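import Mathlib

/-!
The family of digit patterns behind the counterexample.
-/

set_option autoImplicit false

namespace Pool.Agent.H418Z.Besov

open Finset

/-- window `n` is active for the label `y` -/
def Act (y n : ℕ) : Prop := y % 2 ^ Nat.log 2 n = n % 2 ^ Nat.log 2 n

/-- the rule: at position `j` and height `d` the pattern goes up -/
def Up (y j d : ℕ) : Prop :=
  d = 0 ∨ ∃ n, n ≤ 2 * j ∧ Act y n ∧ j < n ∧ d + (n - j) ≤ 4 * Nat.log 2 n

open Classical in
/-- the height of the pattern with label `y` -/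
noncomputable def D (y : ℕ) : ℕ → ℕ
  | 0 => 0
  | j + 1 => if Up y j (D y j) then D y j + 1 else D y j - 1

/-- digit `j` is forced to be zero -/
def Z (y j : ℕ) : Prop := Up y j (D y j)

open Classical in
/-- number of forced digits before position `j` -/
noncomputable def zc (y : ℕ) : ℕ → ℕ
  | 0 => 0
  | j + 1 => if Z y j then zc y j + 1 else zc y j

open Classical in
/-- the admissible dyadic intervals of level `j` -/
noncomputable def P (y : ℕ) : ℕ → Finset ℕ
  | 0 => {0}
  | j + 1 => if Z y j then (P y j).image (fun k => 2 * k)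
      else (P y j).image (fun k => 2 * k) ∪ (P y j).image (fun k => 2 * k + 1)

theorem D_up {y j : ℕ} (h : Z y j) : D y (j + 1) = D y j + 1 := by
  simp only [D]; exact if_pos h

theorem D_down {y j : ℕ} (h : ¬ Z y j) : D y (j + 1) = D y j - 1 := by
  simp only [D]; exact if_neg h

theorem D_pos_of_not {y j : ℕ} (h : ¬ Z y j) : 0 < D y j := by
  by_contra h0
  exact h (Or.inl (by omega))

theorem zc_up {y j : ℕ} (h : Z y j) : zc y (j + 1) = zc y j + 1 := by
  simp only [zc]; exact if_pos h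

theorem zc_down {y j : ℕ} (h : ¬ Z y j) : zc y (j + 1) = zc y j := by
  simp only [zc]; exact if_neg h

theorem P_up {y j : ℕ} (h : Z y j) : P y (j + 1) = (P y j).image (fun k => 2 * k) := by
  simp only [P]; exact if_pos h

theorem P_down {y j : ℕ} (h : ¬ Z y j) :
    P y (j + 1) = (P y j).image (fun k => 2 * k) ∪ (P y j).image (fun k => 2 * k + 1) := by
  simp only [P]; exact if_neg h

theorem two_zc (y j : ℕ) : 2 * zc y j = j + D y j := by
  induction j with
  | zero => simp [zc, D]
  | succ j ih =>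
    by_cases h : Z y j
    · rw [zc_up h, D_up h]; omega
    · have := D_pos_of_not h
      rw [zc_down h, D_down h]; omega

theorem sum_P_up {y j : ℕ} (h : Z y j) {M : Type*} [AddCommMonoid M] (g : ℕ → M) :
    ∑ k ∈ P y (j + 1), g k = ∑ k ∈ P y j, g (2 * k) := by
  rw [P_up h, sum_image]
  intro a _ b _ hab
  simp only at hab
  omega

theorem sum_P_down {y j : ℕ} (h : ¬ Z y j) {M : Type*} [AddCommMonoid M] (g : ℕ → M) :
    ∑ k ∈ P y (j + 1), g k = ∑ k ∈ P y j, (g (2 * k) + g (2 * k + 1)) := by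
  rw [P_down h, sum_union, sum_image, sum_image, sum_add_distrib]
  · intro a _ b _ hab
    simp only at hab
    omega
  · intro a _ b _ hab
    simp only at hab
    omega
  · rw [disjoint_left]
    intro a ha hb
    simp only [mem_image] at ha hb
    obtain ⟨c, -, hc⟩ := ha
    obtain ⟨d, -, hd⟩ := hb
    omega

theorem card_P (y j : ℕ) : (P y j).card * 2 ^ zc y j = 2 ^ j := by
  induction j with
  | zero => simp [P, zc]
  | succ j ih =>
    by_cases h : Z y j
    · have h1 := sum_P_up h (fun _ => (1 : ℕ))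
      simp only [sum_const, smul_eq_mul, mul_one] at h1
      rw [h1, zc_up h, pow_succ, pow_succ, ← ih]; ring
    · have h1 := sum_P_down h (fun _ => (1 : ℕ))
      simp only [sum_const, smul_eq_mul, mul_one] at h1
      rw [h1, zc_down h, pow_succ, ← ih]; ring

theorem lt_of_mem_P (y j : ℕ) : ∀ k ∈ P y j, k < 2 ^ j := by
  induction j with
  | zero => simp [P]
  | succ j ih =>
    intro k hk
    by_cases h : Z y j
    · rw [P_up h] at hk
      simp only [mem_image] at hk
      obtain ⟨c, hc, rfl⟩ := hk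
      have := ih c hc
      rw [pow_succ]; omega
    · rw [P_down h] at hk
      simp only [mem_union, mem_image] at hk
      rcases hk with ⟨c, hc, rfl⟩ | ⟨c, hc, rfl⟩ <;>
      · have := ih c hc
        rw [pow_succ]; omega

theorem half_mem_P {y j k : ℕ} (hk : k ∈ P y (j + 1)) : k / 2 ∈ P y j := by
  by_cases h : Z y j
  · rw [P_up h] at hk
    simp only [mem_image] at hk
    obtain ⟨c, hc, rfl⟩ := hk
    rwa [show 2 * c / 2 = c by omega]
  · rw [P_down h] at hk
    simp only [mem_union, mem_image] at hk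
    rcases hk with ⟨c, hc, rfl⟩ | ⟨c, hc, rfl⟩
    · rwa [show 2 * c / 2 = c by omega]
    · rwa [show (2 * c + 1) / 2 = c by omega]

/-- upper invariant -/
theorem D_upper (y j : ℕ) :
    D y j ≤ 1 ∨ ∃ n, n ≤ 2 * j ∧ Act y n ∧ D y j + Nat.dist j n ≤ 4 * Nat.log 2 n := by
  induction j with
  | zero => left; simp [D]
  | succ j ih =>
    by_cases h : Z y j
    · rw [D_up h]
      rcases h with h0 | ⟨n, hn, ha, hj, hd⟩
      · left; omega
      · right
        refine ⟨n, by omega, ha, ?_⟩
        unfold Nat.dist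
        omega
    · rw [D_down h]
      have := D_pos_of_not h
      rcases ih with h1 | ⟨n, hn, ha, hd⟩
      · left; omega
      · right
        refine ⟨n, by omega, ha, ?_⟩
        unfold Nat.dist at hd ⊢
        omega

/-- lower invariant along the ramp of an active window -/
theorem D_lower (y n : ℕ) (ha : Act y n) (hn : 8 * Nat.log 2 n ≤ n) (i : ℕ)
    (hi : i ≤ 4 * Nat.log 2 n) : i ≤ D y (n - 4 * Nat.log 2 n + i) + 1 := by
  induction i with
  | zero => omega
  | succ i ih =>
    have ih' := ih (by omega)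
    rw [← add_assoc]
    by_cases h : Z y (n - 4 * Nat.log 2 n + i)
    · rw [D_up h]; omega
    · rw [D_down h]
      have h2 : ¬ (D y (n - 4 * Nat.log 2 n + i) + (n - (n - 4 * Nat.log 2 n + i))
          ≤ 4 * Nat.log 2 n) := fun h3 => h (Or.inr ⟨n, by omega, ha, by omega, h3⟩)
      omega

theorem D_peak (y n : ℕ) (ha : Act y n) (hn : 8 * Nat.log 2 n ≤ n) :
    4 * Nat.log 2 n ≤ D y n + 1 := by
  have := D_lower y n ha hn (4 * Nat.log 2 n) le_rfl
  rwa [show n - 4 * Nat.log 2 n + 4 * Nat.log 2 n = n by omega] at this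

theorem act_congr {y y' T n : ℕ} (h : y % 2 ^ T = y' % 2 ^ T) (hn : n < 2 ^ (T + 1)) :
    Act y n ↔ Act y' n := by
  have hl : Nat.log 2 n ≤ T := by
    rcases Nat.eq_zero_or_pos n with rfl | hpos
    · simp
    · have := (Nat.log_lt_iff_lt_pow (by norm_num : 1 < 2) (by omega : n ≠ 0)).mpr hn
      omega
  have hd : 2 ^ Nat.log 2 n ∣ 2 ^ T := pow_dvd_pow 2 hl
  unfold Act
  rw [← Nat.mod_mod_of_dvd y hd, h, Nat.mod_mod_of_dvd y' hd]

theorem up_congr {y y' T j d : ℕ} (h : y % 2 ^ T = y' % 2 ^ T) (hj : j < 2 ^ T) :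
    Up y j d ↔ Up y' j d := by
  unfold Up
  refine or_congr Iff.rfl (exists_congr fun n => ?_)
  refine and_congr_right fun hn => and_congr_left fun _ => act_congr h ?_
  rw [pow_succ]; omega

theorem D_congr {y y' T : ℕ} (h : y % 2 ^ T = y' % 2 ^ T) (j : ℕ) (hj : j ≤ 2 ^ T) :
    D y j = D y' j ∧ P y j = P y' j := by
  induction j with
  | zero => simp [D, P]
  | succ j ih =>
    obtain ⟨h1, h2⟩ := ih (by omega)
    have hz : Z y j ↔ Z y' j := by
      unfold Z
      rw [h1]
      exact up_congr h (by omega)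
    by_cases hZ : Z y j
    · rw [D_up hZ, D_up (hz.mp hZ), P_up hZ, P_up (hz.mp hZ), h1, h2]
      exact ⟨rfl, rfl⟩
    · have hZ' : ¬ Z y' j := fun h3 => hZ (hz.mpr h3)
      rw [D_down hZ, D_down hZ', P_down hZ, P_down hZ', h1, h2]
      exact ⟨rfl, rfl⟩

theorem log_window (t y : ℕ) : Nat.log 2 (2 ^ t + y % 2 ^ t) = t := by
  have hp : 0 < 2 ^ t := by positivity
  have := Nat.mod_lt y hp
  apply Nat.log_eq_of_pow_le_of_lt_pow
  · omega
  · rw [pow_succ]; omega

theorem act_window (t y : ℕ) : Act y (2 ^ t + y % 2 ^ t) := by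
  unfold Act
  rw [log_window]
  simp

open Classical in
theorem card_act (T n : ℕ) (hT : Nat.log 2 n ≤ T) :
    ((range (2 ^ T)).filter (fun y => Act y n)).card * 2 ^ Nat.log 2 n ≤ 2 ^ T := by
  set t := Nat.log 2 n with ht
  have hp : 0 < 2 ^ t := by positivity
  have h1 : ((range (2 ^ T)).filter (fun y => Act y n)).card ≤ (range (2 ^ (T - t))).card := by
    apply card_le_card_of_injOn (fun y => y / 2 ^ t)
    · intro y hy
      simp only [coe_filter, mem_range, Set.mem_ofPred_eq, coe_range, Set.mem_Iio] at hy ⊢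
      rw [Nat.div_lt_iff_lt_mul hp, ← pow_add, show T - t + t = T by omega]
      exact hy.1
    · intro a ha b hb hab
      simp only [coe_filter, mem_range, Set.mem_ofPred_eq, Act] at ha hb
      simp only at hab
      rw [← Nat.div_add_mod a (2 ^ t), ← Nat.div_add_mod b (2 ^ t), hab, ha.2, hb.2]
  rw [card_range] at h1
  calc _ ≤ 2 ^ (T - t) * 2 ^ t := Nat.mul_le_mul_right _ h1
    _ = 2 ^ T := by rw [← pow_add, show T - t + t = T by omega]

theorem sum_geom_dist {ρ : ℝ} (h0 : 0 ≤ ρ) (h1 : ρ < 1) (j N : ℕ) :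
    ∑ n ∈ range N, ρ ^ Nat.dist j n ≤ 2 * (1 - ρ)⁻¹ := by
  have hs : Summable (fun i : ℕ => ρ ^ i) := summable_geometric_of_lt_one h0 h1
  have ht : ∑' i : ℕ, ρ ^ i = (1 - ρ)⁻¹ := tsum_geometric_of_lt_one h0 h1
  have key : ∀ (S : Finset ℕ), Set.InjOn (fun n => Nat.dist j n) S →
      ∑ n ∈ S, ρ ^ Nat.dist j n ≤ (1 - ρ)⁻¹ := by
    intro S hS
    rw [← ht, ← sum_image (f := fun i => ρ ^ i) hS]
    exact hs.sum_le_tsum _ (fun i _ => pow_nonneg h0 i)
  rw [← sum_filter_add_sum_filter_not (range N) (fun n => n ≤ j), two_mul]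
  apply add_le_add
  · apply key
    intro a ha b hb hab
    simp only [coe_filter, Set.mem_ofPred_eq] at ha hb
    simp only [Nat.dist] at hab
    omega
  · apply key
    intro a ha b hb hab
    simp only [coe_filter, Set.mem_ofPred_eq] at ha hb
    simp only [Nat.dist] at hab
    omega

/-- the fourth root of two -/
noncomputable def s : ℝ := (2 : ℝ) ^ (1 / 4 : ℝ)

theorem s_pow_four : s ^ 4 = 2 := by
  unfold s
  rw [← Real.rpow_natCast, ← Real.rpow_mul (by norm_num)]
  norm_num

theorem one_lt_s : 1 < s := Real.one_lt_rpow (by norm_num) (by norm_num)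

theorem s_pos : 0 < s := lt_trans one_pos one_lt_s

theorem s_le_two : s ≤ 2 := by
  have h := s_pow_four
  have h1 := one_lt_s
  by_contra hc
  have h2 : (2 : ℝ) < s := not_le.mp hc
  have : (2 : ℝ) ^ 4 < s ^ 4 := pow_lt_pow_left₀ h2 (by norm_num) (by norm_num)
  linarith

/-- the constant in the averaged bound -/
noncomputable def C0 : ℝ := 2 + 2 * (1 - s⁻¹)⁻¹

theorem inv_s_lt_one : s⁻¹ < 1 := inv_lt_one_of_one_lt₀ one_lt_s

theorem two_le_C0 : 2 ≤ C0 := by
  unfold C0
  have := inv_s_lt_one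
  have : 0 ≤ (1 - s⁻¹)⁻¹ := inv_nonneg.mpr (by linarith)
  linarith

open Classical in
theorem pow_D_le (y j : ℕ) :
    s ^ D y j ≤ 2 + ∑ n ∈ range (2 * j + 1),
      if Act y n then (2 : ℝ) ^ Nat.log 2 n * s⁻¹ ^ Nat.dist j n else 0 := by
  have hnn : ∀ n ∈ range (2 * j + 1),
      0 ≤ if Act y n then (2 : ℝ) ^ Nat.log 2 n * s⁻¹ ^ Nat.dist j n else 0 := by
    intro n _
    have := s_pos
    split_ifs
    · positivity
    · exact le_rfl
  rcases D_upper y j with h | ⟨n, hn, ha, hd⟩
  · have h1 : s ^ D y j ≤ s ^ 1 := pow_le_pow_right₀ one_lt_s.le h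
    have h2 := s_le_two
    have h3 := sum_nonneg hnn
    rw [pow_one] at h1
    linarith
  · have h1 := single_le_sum hnn (mem_range.mpr (by omega : n < 2 * j + 1))
    simp only [if_pos ha] at h1
    have h2 : s ^ D y j ≤ (2 : ℝ) ^ Nat.log 2 n * s⁻¹ ^ Nat.dist j n := by
      have hp := s_pos
      rw [← s_pow_four, ← pow_mul, inv_pow, ← div_eq_mul_inv, le_div_iff₀ (by positivity),
        ← pow_add]
      exact pow_le_pow_right₀ one_lt_s.le hd
    linarith

theorem sum_pow_D_le (T j : ℕ) (hj : 2 * j ≤ T) :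
    ∑ y ∈ range (2 ^ T), s ^ D y j ≤ 2 ^ T * C0 := by
  classical
  have hp := s_pos
  calc ∑ y ∈ range (2 ^ T), s ^ D y j
      ≤ ∑ y ∈ range (2 ^ T), (2 + ∑ n ∈ range (2 * j + 1),
          if Act y n then (2 : ℝ) ^ Nat.log 2 n * s⁻¹ ^ Nat.dist j n else 0) :=
        sum_le_sum fun y _ => pow_D_le y j
    _ = 2 ^ T * 2 + ∑ n ∈ range (2 * j + 1),
          (((range (2 ^ T)).filter (fun y => Act y n)).card : ℝ) *
            ((2 : ℝ) ^ Nat.log 2 n * s⁻¹ ^ Nat.dist j n) := by
        rw [sum_add_distrib, sum_comm]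
        congr 1
        · simp
        · refine sum_congr rfl fun n _ => ?_
          rw [← sum_filter, sum_const, nsmul_eq_mul]
    _ ≤ 2 ^ T * 2 + ∑ n ∈ range (2 * j + 1), (2 : ℝ) ^ T * s⁻¹ ^ Nat.dist j n := by
        refine add_le_add le_rfl (sum_le_sum fun n hn => ?_)
        rw [← mul_assoc]
        refine mul_le_mul_of_nonneg_right ?_ (by positivity)
        have hl : Nat.log 2 n ≤ T := by
          have := Nat.log_le_self 2 n
          have := mem_range.mp hn
          omega
        exact_mod_cast card_act T n hl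
    _ ≤ 2 ^ T * C0 := by
        rw [← mul_sum, C0, mul_add]
        gcongr
        exact sum_geom_dist (by positivity) inv_s_lt_one j _

end Pool.Agent.H418Z.Besov
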