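import Mathlib
import Pool.Agent.H418Z.BesovComb

/-!
The lower bound for the Besov norm along the patterns.
-/

set_option autoImplicit false

namespace Pool.Agent.H418Z.Besov

open MeasureTheory Finset
open scoped ENNReal

/-- the `L^2` modulus of continuity -/
noncomputable def om (u : ℝ → ℝ) (h : ℝ) : ℝ≥0∞ :=
  eLpNorm (fun x => u (x + h) - u x) 2 volume

theorem om_add_le {u : ℝ → ℝ} (hu : Continuous u) (a b : ℝ) :
    om u (a + b) ≤ om u a + om u b := by
  have h1 : (fun x => u (x + (a + b)) - u x) =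
      ((fun x => u (x + a) - u x) ∘ (fun x => x + b)) + (fun x => u (x + b) - u x) := by
    funext x
    simp only [Pi.add_apply, Function.comp]
    rw [show x + (a + b) = x + b + a by ring]
    ring
  have hm : ∀ c : ℝ, AEStronglyMeasurable (fun x => u (x + c) - u x) volume := fun c =>
    (by fun_prop : Continuous fun x => u (x + c) - u x).aestronglyMeasurable
  unfold om
  rw [h1]
  refine (eLpNorm_add_le ?_ (hm b) (by norm_num)).trans ?_
  · exact (by fun_prop : Continuous ((fun x => u (x + a) - u x) ∘ (fun x => x + b))).aestronglyMeasurable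
  · rw [eLpNorm_comp_measurePreserving (hm a) (measurePreserving_add_right volume b)]

theorem measurable_om {u : ℝ → ℝ} (hu : Continuous u) : Measurable (om u) := by
  have : om u = fun h => (∫⁻ x, ‖u (x + h) - u x‖ₑ ^ (2 : ℝ≥0∞).toReal) ^
      (1 / (2 : ℝ≥0∞).toReal) := by
    funext h
    unfold om
    rw [eLpNorm_eq_lintegral_rpow_enorm_toReal (by norm_num) (by norm_num)]
  rw [this]
  apply Measurable.pow_const
  apply Measurable.lintegral_prod_right
  apply Measurable.pow_const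
  have : Continuous (fun p : ℝ × ℝ => u (p.2 + p.1) - u p.2) := by fun_prop
  exact this.measurable.enorm

/-- the integrand of the Besov seminorm for `α = 1/4`, `p = 2`, `q = 1` -/
noncomputable def F (u : ℝ → ℝ) (h : ℝ) : ℝ≥0∞ :=
  om u h / ENNReal.ofReal (|h| ^ (1 / 4 : ℝ)) / ENNReal.ofReal |h|

theorem om_le_F {u : ℝ → ℝ} {a h : ℝ} (h0 : 0 < h) (ha : h ≤ a) :
    om u h ≤ ENNReal.ofReal (a ^ (1 / 4 : ℝ) * a) * F u h := by
  have h1 : ENNReal.ofReal (|h| ^ (1 / 4 : ℝ)) ≠ 0 := by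
    rw [abs_of_pos h0]
    exact (ENNReal.ofReal_pos.mpr (Real.rpow_pos_of_pos h0 _)).ne'
  have h2 : ENNReal.ofReal |h| ≠ 0 := by
    rw [abs_of_pos h0]
    exact (ENNReal.ofReal_pos.mpr h0).ne'
  have h3 : om u h = F u h * ENNReal.ofReal |h| * ENNReal.ofReal (|h| ^ (1 / 4 : ℝ)) := by
    unfold F
    rw [ENNReal.div_mul_cancel h2 ENNReal.ofReal_ne_top,
      ENNReal.div_mul_cancel h1 ENNReal.ofReal_ne_top]
  rw [h3, mul_assoc, mul_comm, ← ENNReal.ofReal_mul (abs_nonneg h), abs_of_pos h0]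
  refine mul_le_mul_left (ENNReal.ofReal_le_ofReal ?_) _
  rw [mul_comm]
  have := Real.rpow_le_rpow h0.le ha (by norm_num : (0 : ℝ) ≤ 1 / 4)
  have h4 : 0 ≤ h ^ (1 / 4 : ℝ) := Real.rpow_nonneg h0.le _
  exact mul_le_mul this ha h0.le (h4.trans this)

theorem om_le_shell {u : ℝ → ℝ} (hu : Continuous u) {a : ℝ} (ha : 0 < a) :
    om u a ≤ ENNReal.ofReal (6 * a ^ (1 / 4 : ℝ)) * ∫⁻ h in Set.Ioo (a / 3) (2 * a / 3), F u h := by
  set S := Set.Ioo (a / 3) (2 * a / 3) with hS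
  have hSm : MeasurableSet S := measurableSet_Ioo
  have hvol : volume S = ENNReal.ofReal (a / 3) := by
    rw [hS, Real.volume_Ioo]; congr 1; ring
  have hrefl : ∫⁻ h in S, om u (a - h) = ∫⁻ h in S, om u h := by
    have hp := (Measure.measurePreserving_sub_left (volume : Measure ℝ) a).setLIntegral_comp_preimage
      hSm (measurable_om hu)
    have hpre : (fun h : ℝ => a - h) ⁻¹' S = S := by
      ext h
      simp only [hS, Set.mem_preimage, Set.mem_Ioo]
      constructor <;> rintro ⟨h1, h2⟩ <;> constructor <;> linarith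
    rw [hpre] at hp
    exact hp
  have hF : ∫⁻ h in S, om u h ≤ ENNReal.ofReal (a ^ (1 / 4 : ℝ) * a) * ∫⁻ h in S, F u h := by
    rw [← lintegral_const_mul' _ _ ENNReal.ofReal_ne_top]
    refine setLIntegral_mono' hSm fun h hh => ?_
    have := hh.1
    have := hh.2
    exact om_le_F (by linarith) (by linarith)
  have h1 : om u a * ENNReal.ofReal (a / 3) ≤ 2 * ∫⁻ h in S, om u h := by
    calc om u a * ENNReal.ofReal (a / 3) = ∫⁻ _ in S, om u a := by
          rw [setLIntegral_const, hvol]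
      _ ≤ ∫⁻ h in S, (om u h + om u (a - h)) := by
          refine lintegral_mono fun h => ?_
          have := om_add_le hu h (a - h)
          rwa [show h + (a - h) = a by ring] at this
      _ = 2 * ∫⁻ h in S, om u h := by
          rw [lintegral_add_left (measurable_om hu), hrefl, two_mul]
  have hr : 0 ≤ a ^ (1 / 4 : ℝ) := Real.rpow_nonneg ha.le _
  have h2 : om u a * ENNReal.ofReal (a / 3) ≤
      (ENNReal.ofReal (6 * a ^ (1 / 4 : ℝ)) * ∫⁻ h in S, F u h) * ENNReal.ofReal (a / 3) := by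
    refine h1.trans ((mul_le_mul_right hF 2).trans (le_of_eq ?_))
    rw [← mul_assoc, mul_right_comm (ENNReal.ofReal (6 * a ^ (1 / 4 : ℝ))),
      ← ENNReal.ofReal_mul (by positivity),
      show (2 : ℝ≥0∞) = ENNReal.ofReal 2 by simp, ← ENNReal.ofReal_mul (by norm_num)]
    congr 2
    ring
  exact (ENNReal.mul_le_mul_iff_left (ENNReal.ofReal_pos.mpr (by linarith)).ne'
    ENNReal.ofReal_ne_top).mp h2

theorem sum_shell_le (u : ℝ → ℝ) (m : ℕ) :
    ∑ j ∈ range m, ∫⁻ h in Set.Ioo ((1 / 2 ^ (j + 1) : ℝ) / 3) (2 * (1 / 2 ^ (j + 1)) / 3), F u h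
      ≤ ∫⁻ h, F u h := by
  rw [← lintegral_biUnion_finset]
  · exact setLIntegral_le_lintegral _ _
  · intro i hi j hj hij
    wlog hlt : i < j generalizing i j
    · exact (this hj hi hij.symm (by omega)).symm
    rw [Function.onFun, Set.disjoint_left]
    intro x hx hy
    have h1 := hx.1
    have h2 := hy.2
    have h3 : (2 : ℝ) ^ (i + 2) ≤ 2 ^ (j + 1) := pow_le_pow_right₀ (by norm_num) (by omega)
    have h4 : (1 / 2 ^ (j + 1) : ℝ) ≤ 1 / 2 ^ (i + 2) :=
      one_div_le_one_div_of_le (by positivity) h3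
    have h5 : (1 / 2 ^ (i + 1) : ℝ) = 2 * (1 / 2 ^ (i + 2)) := by
      rw [pow_succ 2 (i + 1)]; field_simp
    linarith
  · intro _ _
    exact measurableSet_Ioo

theorem lintegral_le_holder {w : ℝ → ℝ} (hw : Continuous w) (L : Set ℝ) :
    ∫⁻ x in L, ‖w x‖ₑ ≤ eLpNorm w 2 volume * volume L ^ (1 / 2 : ℝ) := by
  have h := eLpNorm_le_eLpNorm_mul_rpow_measure_univ (p := 1) (q := 2) (μ := volume.restrict L)
    (by norm_num) hw.aestronglyMeasurable
  rw [eLpNorm_one_eq_lintegral_enorm, Measure.restrict_apply_univ] at h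
  refine h.trans ?_
  have h2 : (1 / (1 : ℝ≥0∞).toReal - 1 / (2 : ℝ≥0∞).toReal) = 1 / 2 := by norm_num
  rw [h2]
  gcongr
  exact Measure.restrict_le_self

theorem enorm_intervalIntegral_le (w : ℝ → ℝ) {a b : ℝ} (hab : a ≤ b) :
    ‖∫ x in a..b, w x‖ₑ ≤ ∫⁻ x in Set.Ioc a b, ‖w x‖ₑ := by
  rw [intervalIntegral.integral_of_le hab]
  exact enorm_integral_le_lintegral_enorm _

/-- integral over a dyadic interval -/
noncomputable def cell (u : ℝ → ℝ) (j k : ℕ) : ℝ :=
  ∫ x in ((k : ℝ) / 2 ^ j)..(((k : ℝ) + 1) / 2 ^ j), u x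

/-- average of `u` over the admissible intervals of level `j` -/
noncomputable def A (u : ℝ → ℝ) (y j : ℕ) : ℝ := 2 ^ zc y j * ∑ k ∈ P y j, cell u j k

theorem cell_split {u : ℝ → ℝ} (hu : Continuous u) (j k : ℕ) :
    cell u j k = cell u (j + 1) (2 * k) + cell u (j + 1) (2 * k + 1) := by
  unfold cell
  have e1 : ((2 * k : ℕ) : ℝ) / 2 ^ (j + 1) = (k : ℝ) / 2 ^ j := by
    push_cast; rw [pow_succ]; field_simp
  have e2 : (((2 * k + 1 : ℕ) : ℝ) + 1) / 2 ^ (j + 1) = ((k : ℝ) + 1) / 2 ^ j := by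
    push_cast; rw [pow_succ]; field_simp; ring
  have e3 : ((2 * k + 1 : ℕ) : ℝ) / 2 ^ (j + 1) = (((2 * k : ℕ) : ℝ) + 1) / 2 ^ (j + 1) := by
    push_cast; ring
  rw [e1, e2, e3, intervalIntegral.integral_add_adjacent_intervals
    (hu.intervalIntegrable _ _) (hu.intervalIntegrable _ _)]

theorem cell_diff {u : ℝ → ℝ} (hu : Continuous u) (j k : ℕ) :
    cell u j (k + 1) - cell u j k = cell (fun x => u (x + 1 / 2 ^ j) - u x) j k := by
  unfold cell
  rw [intervalIntegral.integral_sub ((by fun_prop : Continuous fun x => u (x + 1 / 2 ^ j)).intervalIntegrable _ _)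
    (hu.intervalIntegrable _ _), intervalIntegral.integral_comp_add_right]
  congr 2
  · push_cast; ring
  · push_cast; ring

theorem enorm_sum_cell_le {w : ℝ → ℝ} (hw : Continuous w) (j : ℕ) (Q : Finset ℕ) :
    ‖∑ k ∈ Q, cell w j k‖ₑ ≤
      eLpNorm w 2 volume * ENNReal.ofReal ((Q.card : ℝ) / 2 ^ j) ^ (1 / 2 : ℝ) := by
  have hle : ∀ k : ℕ, (k : ℝ) / 2 ^ j ≤ ((k : ℝ) + 1) / 2 ^ j := fun k => by
    gcongr; linarith
  calc ‖∑ k ∈ Q, cell w j k‖ₑ ≤ ∑ k ∈ Q, ‖cell w j k‖ₑ := enorm_sum_le _ _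
    _ ≤ ∑ k ∈ Q, ∫⁻ x in Set.Ioc ((k : ℝ) / 2 ^ j) (((k : ℝ) + 1) / 2 ^ j), ‖w x‖ₑ :=
        sum_le_sum fun k _ => enorm_intervalIntegral_le w (hle k)
    _ = ∫⁻ x in ⋃ k ∈ Q, Set.Ioc ((k : ℝ) / 2 ^ j) (((k : ℝ) + 1) / 2 ^ j), ‖w x‖ₑ := by
        rw [lintegral_biUnion_finset]
        · intro a ha b hb hab
          wlog hlt : a < b generalizing a b
          · exact (this hb ha hab.symm (by omega)).symm
          rw [Function.onFun, Set.disjoint_left]
          intro x hx hy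
          have h1 := hx.2
          have h2 := hy.1
          have h3 : ((a : ℝ) + 1) / 2 ^ j ≤ (b : ℝ) / 2 ^ j := by
            gcongr
            exact_mod_cast hlt
          linarith
        · intro _ _
          exact measurableSet_Ioc
    _ ≤ eLpNorm w 2 volume *
          volume (⋃ k ∈ Q, Set.Ioc ((k : ℝ) / 2 ^ j) (((k : ℝ) + 1) / 2 ^ j)) ^ (1 / 2 : ℝ) :=
        lintegral_le_holder hw _
    _ ≤ _ := by
        gcongr
        refine (measure_biUnion_finset_le _ _).trans (le_of_eq ?_)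
        have : ∀ k ∈ Q, volume (Set.Ioc ((k : ℝ) / 2 ^ j) (((k : ℝ) + 1) / 2 ^ j)) =
            ENNReal.ofReal (1 / 2 ^ j) := by
          intro k _
          rw [Real.volume_Ioc]; congr 1; ring
        rw [sum_congr rfl this, sum_const, nsmul_eq_mul, ← ENNReal.ofReal_natCast,
          ← ENNReal.ofReal_mul (by positivity)]
        congr 1; ring

theorem A_down {u : ℝ → ℝ} (hu : Continuous u) {y j : ℕ} (h : ¬ Z y j) :
    A u y (j + 1) = A u y j := by
  unfold A
  rw [zc_down h, sum_P_down h]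
  congr 1
  exact sum_congr rfl fun k _ => (cell_split hu j k).symm

theorem A_up {u : ℝ → ℝ} (hu : Continuous u) {y j : ℕ} (h : Z y j) :
    A u y j - A u y (j + 1) = 2 ^ zc y j *
      ∑ k ∈ P y (j + 1), cell (fun x => u (x + 1 / 2 ^ (j + 1)) - u x) (j + 1) k := by
  unfold A
  rw [zc_up h, sum_P_up h, sum_P_up h, pow_succ, mul_assoc, ← mul_sub, mul_sum, ← sum_sub_distrib]
  congr 1
  refine sum_congr rfl fun k _ => ?_
  rw [cell_split hu j k, ← cell_diff hu]
  ring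

theorem rpow_quarter (j : ℕ) : ((1 : ℝ) / 2 ^ j) ^ (1 / 4 : ℝ) = s⁻¹ ^ j := by
  have h : ((1 : ℝ) / 2 ^ j) = (s⁻¹ ^ j) ^ 4 := by
    rw [← pow_mul, mul_comm, pow_mul, inv_pow, s_pow_four, inv_pow, one_div]
  have hp : 0 ≤ s⁻¹ ^ j := by have := s_pos; positivity
  rw [h, ← Real.rpow_natCast, ← Real.rpow_mul hp]
  norm_num

theorem step_le {u : ℝ → ℝ} (hu : Continuous u) (y j : ℕ) :
    ‖A u y j - A u y (j + 1)‖ₑ ≤ ENNReal.ofReal (6 * s ^ D y j) *
      ∫⁻ h in Set.Ioo ((1 / 2 ^ (j + 1) : ℝ) / 3) (2 * (1 / 2 ^ (j + 1)) / 3), F u h := by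
  by_cases h : Z y j
  swap
  · rw [A_down hu h]; simp
  have hp := s_pos
  rw [A_up hu h, enorm_mul]
  have h1 := enorm_sum_cell_le (w := fun x => u (x + 1 / 2 ^ (j + 1)) - u x) (by fun_prop) (j + 1)
    (P y (j + 1))
  have h2 := om_le_shell hu (a := 1 / 2 ^ (j + 1)) (by positivity)
  have h3 : ENNReal.ofReal (((P y (j + 1)).card : ℝ) / 2 ^ (j + 1)) ^ (1 / 2 : ℝ) ≤
      ENNReal.ofReal (s⁻¹ ^ (2 * zc y j)) := by
    have hc : ((P y (j + 1)).card : ℝ) * 2 ^ (zc y j + 1) = 2 ^ (j + 1) := by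
      have := card_P y (j + 1)
      rw [zc_up h] at this
      exact_mod_cast this
    have h4 : ((P y (j + 1)).card : ℝ) / 2 ^ (j + 1) ≤ (s⁻¹ ^ (2 * zc y j)) ^ 2 := by
      rw [← pow_mul, show 2 * zc y j * 2 = 4 * zc y j by ring, pow_mul, inv_pow, s_pow_four,
        div_le_iff₀ (by positivity), ← hc, inv_pow, pow_succ]
      field_simp
      have : (0 : ℝ) ≤ (P y (j + 1)).card := Nat.cast_nonneg _
      linarith
    rw [ENNReal.ofReal_rpow_of_nonneg (by positivity) (by norm_num)]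
    apply ENNReal.ofReal_le_ofReal
    calc _ ≤ ((s⁻¹ ^ (2 * zc y j)) ^ 2) ^ (1 / 2 : ℝ) :=
          Real.rpow_le_rpow (by positivity) h4 (by norm_num)
      _ = _ := by
          rw [← Real.rpow_natCast, ← Real.rpow_mul (by positivity)]
          norm_num
  have h5 : ‖(2 : ℝ) ^ zc y j‖ₑ = ENNReal.ofReal (2 ^ zc y j) :=
    Real.enorm_eq_ofReal (by positivity)
  rw [h5]
  set J := ∫⁻ h in Set.Ioo ((1 / 2 ^ (j + 1) : ℝ) / 3) (2 * (1 / 2 ^ (j + 1)) / 3), F u h
  calc _ ≤ ENNReal.ofReal (2 ^ zc y j) *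
        ((ENNReal.ofReal (6 * ((1 : ℝ) / 2 ^ (j + 1)) ^ (1 / 4 : ℝ)) * J) *
          ENNReal.ofReal (s⁻¹ ^ (2 * zc y j))) := by
        refine mul_le_mul_right (h1.trans ?_) _
        exact mul_le_mul' h2 h3
    _ = ENNReal.ofReal (2 ^ zc y j * (6 * ((1 : ℝ) / 2 ^ (j + 1)) ^ (1 / 4 : ℝ)) *
          s⁻¹ ^ (2 * zc y j)) * J := by
        rw [ENNReal.ofReal_mul (p := 2 ^ zc y j * (6 * ((1 : ℝ) / 2 ^ (j + 1)) ^ (1 / 4 : ℝ)))
          (by positivity), ENNReal.ofReal_mul (p := 2 ^ zc y j) (by positivity)]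
        generalize ENNReal.ofReal (6 * ((1 : ℝ) / 2 ^ (j + 1)) ^ (1 / 4 : ℝ)) = X
        ring
    _ ≤ _ := by
        refine mul_le_mul_left (ENNReal.ofReal_le_ofReal ?_) _
        have e2 : (2 : ℝ) ^ zc y j = s ^ (2 * zc y j) * (s ^ j * s ^ D y j) := by
          rw [← s_pow_four, ← pow_mul, ← pow_add, ← pow_add]
          congr 1
          have := two_zc y j
          omega
        rw [rpow_quarter, e2, pow_succ, inv_pow, inv_pow]
        have h6 := one_lt_s
        field_simp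
        linarith

theorem enorm_A_le {u : ℝ → ℝ} (hu : Continuous u) (y m : ℕ) :
    ‖A u y m‖ₑ ≤ eLpNorm u 2 volume + ∑ j ∈ range m, ENNReal.ofReal (6 * s ^ D y j) *
      ∫⁻ h in Set.Ioo ((1 / 2 ^ (j + 1) : ℝ) / 3) (2 * (1 / 2 ^ (j + 1)) / 3), F u h := by
  induction m with
  | zero =>
    have := enorm_sum_cell_le hu 0 {0}
    simpa [A, zc, P] using this
  | succ m ih =>
    rw [sum_range_succ, ← add_assoc]
    have : A u y (m + 1) = A u y m - (A u y m - A u y (m + 1)) := by ring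
    rw [this]
    exact enorm_sub_le.trans (add_le_add ih (step_le hu y m))

theorem half_le_A {u : ℝ → ℝ} (hu : Continuous u) (y m : ℕ)
    (h : ∀ k ∈ P y m, ∀ x ∈ Set.Icc ((k : ℝ) / 2 ^ m) (((k : ℝ) + 1) / 2 ^ m), 1 / 2 ≤ u x) :
    1 / 2 ≤ A u y m := by
  have h1 : ∀ k ∈ P y m, (1 / 2 : ℝ) / 2 ^ m ≤ cell u m k := by
    intro k hk
    have hle : (k : ℝ) / 2 ^ m ≤ ((k : ℝ) + 1) / 2 ^ m := by gcongr; linarith
    have := intervalIntegral.integral_mono_on (μ := volume) hle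
      (continuous_const.intervalIntegrable _ _) (hu.intervalIntegrable _ _) (h k hk)
    rw [intervalIntegral.integral_const, smul_eq_mul] at this
    refine le_trans (le_of_eq ?_) this
    ring
  have h2 := card_nsmul_le_sum _ _ _ h1
  have hc : ((P y m).card : ℝ) * 2 ^ zc y m = 2 ^ m := by exact_mod_cast card_P y m
  unfold A
  rw [nsmul_eq_mul] at h2
  calc (1 / 2 : ℝ) = 2 ^ zc y m * ((P y m).card * ((1 / 2 : ℝ) / 2 ^ m)) := by
        rw [← hc]
        have : (0 : ℝ) < (P y m).card := by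
          have h3 : (0 : ℝ) < (P y m).card * 2 ^ zc y m := by rw [hc]; positivity
          exact (mul_pos_iff_of_pos_right (by positivity)).mp h3
        field_simp
    _ ≤ _ := by gcongr

theorem main_lower {u : ℝ → ℝ} (hu : Continuous u) (m : ℕ)
    (h : ∀ y, ∀ k ∈ P y m, ∀ x ∈ Set.Icc ((k : ℝ) / 2 ^ m) (((k : ℝ) + 1) / 2 ^ m), 1 / 2 ≤ u x) :
    ENNReal.ofReal (1 / 2) ≤ ENNReal.ofReal (6 * C0) * (eLpNorm u 2 volume + ∫⁻ h, F u h) := by
  set T := 2 * m
  set J : ℕ → ℝ≥0∞ := fun j =>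
    ∫⁻ h in Set.Ioo ((1 / 2 ^ (j + 1) : ℝ) / 3) (2 * (1 / 2 ^ (j + 1)) / 3), F u h with hJ
  have hp := s_pos
  have hC := two_le_C0
  have h1 : ∀ y ∈ range (2 ^ T), ENNReal.ofReal (1 / 2) ≤
      eLpNorm u 2 volume + ∑ j ∈ range m, ENNReal.ofReal (6 * s ^ D y j) * J j := by
    intro y _
    refine le_trans ?_ (enorm_A_le hu y m)
    have h2 := half_le_A hu y m (h y)
    rw [Real.enorm_eq_ofReal (by linarith)]
    exact ENNReal.ofReal_le_ofReal h2
  have h2 := sum_le_sum h1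
  rw [sum_const, sum_add_distrib, sum_const, card_range, sum_comm, nsmul_eq_mul, nsmul_eq_mul] at h2
  have h3 : ∀ j ∈ range m, ∑ y ∈ range (2 ^ T), ENNReal.ofReal (6 * s ^ D y j) * J j ≤
      ((2 ^ T : ℕ) : ℝ≥0∞) * (ENNReal.ofReal (6 * C0) * J j) := by
    intro j hj
    rw [← sum_mul, ← mul_assoc, ← ENNReal.ofReal_sum_of_nonneg (fun _ _ => by positivity),
      ← ENNReal.ofReal_natCast, ← ENNReal.ofReal_mul (by positivity), ← mul_sum]
    refine mul_le_mul_left (ENNReal.ofReal_le_ofReal ?_) _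
    have := sum_pow_D_le T j (by have := mem_range.mp hj; omega)
    push_cast
    linarith
  have h4 := sum_le_sum h3
  rw [← mul_sum, ← mul_sum] at h4
  have h5 : ((2 ^ T : ℕ) : ℝ≥0∞) * ENNReal.ofReal (1 / 2) ≤ ((2 ^ T : ℕ) : ℝ≥0∞) *
      (ENNReal.ofReal (6 * C0) * (eLpNorm u 2 volume + ∫⁻ h, F u h)) := by
    refine h2.trans ((add_le_add le_rfl h4).trans ?_)
    rw [← mul_add, mul_add (ENNReal.ofReal (6 * C0))]
    gcongr
    · have : (1 : ℝ≥0∞) ≤ ENNReal.ofReal (6 * C0) := by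
        rw [← ENNReal.ofReal_one]
        exact ENNReal.ofReal_le_ofReal (by linarith)
      exact le_mul_of_one_le_left' this
    · exact sum_shell_le u m
  exact (ENNReal.mul_le_mul_iff_right (by positivity) (ENNReal.natCast_ne_top _)).mp h5

end Pool.Agent.H418Z.Besov
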