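import Mathlib

/-!
Besov norm (order `0 < α < 1`) and Besov capacity of compact sets on the real line.
-/

set_option autoImplicit false

namespace Pool.Agent.H418Z.Besov

open MeasureTheory
open scoped ENNReal ContDiff

/-- The Besov norm of `u` on the real line for `0 < α < 1`:
`‖u‖_p + (∫ (‖u(· + h) - u‖_p / |h|^α)^q dh / |h|)^(1/q)`, with values in `[0, ∞]`. -/
noncomputable def besovNorm (α p q : ℝ) (u : ℝ → ℝ) : ℝ≥0∞ :=
  eLpNorm u (ENNReal.ofReal p) volume +
    (∫⁻ h : ℝ, (eLpNorm (fun x => u (x + h) - u x) (ENNReal.ofReal p) volume /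
        ENNReal.ofReal (|h| ^ α)) ^ q / ENNReal.ofReal |h|) ^ (1 / q)

/-- The Besov capacity of a compact set `K`: the infimum of the `p`-th power of the Besov norm
over all smooth compactly supported `u` with `u ≥ 1` on `K`. -/
noncomputable def besovCapacity (α p q : ℝ) (K : Set ℝ) : ℝ≥0∞ :=
  ⨅ (u : ℝ → ℝ) (_ : ContDiff ℝ ∞ u) (_ : HasCompactSupport u) (_ : ∀ x ∈ K, 1 ≤ u x),
    besovNorm α p q u ^ p

end Pool.Agent.H418Z.Besov
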