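import Mathlib
import Pool.Agent.H418Z.BesovDefs
import Pool.Agent.H418Z.BesovAnal

/-!
The compact set, its Hausdorff measure and its capacity.
-/

set_option autoImplicit false

namespace Pool.Agent.H418Z.Besov

open MeasureTheory Finset Filter Topology
open scoped ENNReal MeasureTheory

/-- closed dyadic interval -/
def I (j k : ℕ) : Set ℝ := Set.Icc ((k : ℝ) / 2 ^ j) (((k : ℝ) + 1) / 2 ^ j)

/-- the level-`m` approximation -/
def Km (m : ℕ) : Set ℝ := ⋃ k ∈ {k : ℕ | ∃ y, k ∈ P y m}, I m k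

/-- the compact set -/
def K : Set ℝ := ⋂ m, Km m

theorem I_succ_subset (j k : ℕ) : I (j + 1) k ⊆ I j (k / 2) := by
  apply Set.Icc_subset_Icc
  · have h1 : ((k / 2 : ℕ) : ℝ) * 2 ≤ k := by exact_mod_cast Nat.div_mul_le_self k 2
    rw [pow_succ, div_le_div_iff₀ (by positivity) (by positivity)]
    have : (0 : ℝ) < 2 ^ j := by positivity
    nlinarith
  · have h1 : (k : ℝ) + 1 ≤ (((k / 2 : ℕ) : ℝ) + 1) * 2 := by
      have : k + 1 ≤ (k / 2 + 1) * 2 := by omega
      exact_mod_cast this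
    rw [pow_succ, div_le_div_iff₀ (by positivity) (by positivity)]
    have : (0 : ℝ) < 2 ^ j := by positivity
    nlinarith

theorem exists_mem_of_le {y n m : ℕ} (h : n ≤ m) {x : ℝ} (hx : ∃ k ∈ P y m, x ∈ I m k) :
    ∃ k ∈ P y n, x ∈ I n k := by
  induction m, h using Nat.le_induction with
  | base => exact hx
  | succ m _ ih =>
    obtain ⟨k, hk, hxk⟩ := hx
    exact ih ⟨k / 2, half_mem_P hk, I_succ_subset m k hxk⟩

theorem mem_Km {m : ℕ} {x : ℝ} : x ∈ Km m ↔ ∃ y, ∃ k ∈ P y m, x ∈ I m k := by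
  simp only [Km, Set.mem_iUnion, Set.mem_ofPred_eq, exists_prop]
  constructor
  · rintro ⟨k, ⟨y, hy⟩, hx⟩
    exact ⟨y, k, hy, hx⟩
  · rintro ⟨y, k, hy, hx⟩
    exact ⟨k, ⟨y, hy⟩, hx⟩

theorem Km_anti {n m : ℕ} (h : n ≤ m) : Km m ⊆ Km n := by
  intro x hx
  obtain ⟨y, hy⟩ := mem_Km.mp hx
  exact mem_Km.mpr ⟨y, exists_mem_of_le h hy⟩

theorem isCompact_Km (m : ℕ) : IsCompact (Km m) := by
  apply Set.Finite.isCompact_biUnion
  · refine (Set.finite_lt_nat (2 ^ m)).subset ?_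
    rintro k ⟨y, hy⟩
    exact lt_of_mem_P y m k hy
  · intro k _
    exact isCompact_Icc

theorem isCompact_K : IsCompact K :=
  (isCompact_Km 0).of_isClosed_subset (isClosed_iInter fun m => (isCompact_Km m).isClosed)
    (Set.iInter_subset _ 0)

theorem exists_Km_subset {U : Set ℝ} (hU : IsOpen U) (hK : K ⊆ U) : ∃ m, Km m ⊆ U := by
  by_contra hc
  push Not at hc
  have hne := IsCompact.nonempty_iInter_of_sequence_nonempty_isCompact_isClosed
    (fun m => Km m ∩ Uᶜ) (fun m => Set.inter_subset_inter_left _ (Km_anti (Nat.le_succ m)))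
    (fun m => by
      obtain ⟨x, hx, hxU⟩ := Set.not_subset.mp (hc m)
      exact ⟨x, hx, hxU⟩)
    ((isCompact_Km 0).inter_right hU.isClosed_compl)
    (fun m => (isCompact_Km m).isClosed.inter hU.isClosed_compl)
  obtain ⟨x, hx⟩ := hne
  rw [Set.mem_iInter] at hx
  exact (hx 0).2 (hK (Set.mem_iInter.mpr fun m => (hx m).1))

theorem lower_of_ge_one {u : ℝ → ℝ} (hu : Continuous u) (h : ∀ x ∈ K, 1 ≤ u x) :
    ENNReal.ofReal (1 / 2) ≤ ENNReal.ofReal (6 * C0) * besovNorm (1 / 4) 2 1 u := by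
  obtain ⟨m, hm⟩ := exists_Km_subset (U := {x | 1 / 2 < u x}) (isOpen_lt continuous_const hu)
    (fun x hx => by have := h x hx; show 1 / 2 < u x; linarith)
  have := main_lower hu m (fun y k hk x hx => le_of_lt (hm (mem_Km.mpr ⟨y, k, hk, hx⟩)))
  refine this.trans (le_of_eq ?_)
  unfold besovNorm F om
  simp

theorem capacity_pos : 0 < besovCapacity (1 / 4) 2 1 K := by
  have hC := two_le_C0
  have hc : 0 < (ENNReal.ofReal (1 / 2) / ENNReal.ofReal (6 * C0)) ^ (2 : ℝ) := by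
    apply ENNReal.rpow_pos
    · exact ENNReal.div_pos (by simp) ENNReal.ofReal_ne_top
    · exact ENNReal.div_ne_top ENNReal.ofReal_ne_top
        (ENNReal.ofReal_pos.mpr (by linarith)).ne'
  refine lt_of_lt_of_le hc ?_
  unfold besovCapacity
  refine le_iInf fun u => le_iInf fun hu => le_iInf fun _ => le_iInf fun h1 => ?_
  apply ENNReal.rpow_le_rpow _ (by norm_num)
  rw [ENNReal.div_le_iff' (ENNReal.ofReal_pos.mpr (by linarith)).ne' ENNReal.ofReal_ne_top]
  exact lower_of_ge_one hu.continuous h1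

/-- the peak of the window of stage `t` for the label `y` -/
def pk (t y : ℕ) : ℕ := 2 ^ t + y % 2 ^ t

/-- index set of the cover at stage `t` -/
noncomputable def cov (t : ℕ) : Finset (Σ _ : ℕ, ℕ) :=
  (range (2 ^ (t + 1))).sigma fun y => P y (pk t y)

theorem K_subset_cov (t : ℕ) : K ⊆ ⋃ i : cov t, I (pk t i.1.1) i.1.2 := by
  intro x hx
  have hp : 0 < 2 ^ t := by positivity
  have hp' : 0 < 2 ^ (t + 1) := by positivity
  obtain ⟨y, hy⟩ := mem_Km.mp (Set.mem_iInter.mp hx (2 ^ (t + 1)))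
  set y' := y % 2 ^ (t + 1) with hy'
  have hcong : y % 2 ^ (t + 1) = y' % 2 ^ (t + 1) := by rw [hy', Nat.mod_mod]
  rw [(D_congr hcong (2 ^ (t + 1)) le_rfl).2] at hy
  have hle : pk t y' ≤ 2 ^ (t + 1) := by
    have := Nat.mod_lt y' hp
    unfold pk
    rw [pow_succ]; omega
  obtain ⟨k, hk, hxk⟩ := exists_mem_of_le hle hy
  refine Set.mem_iUnion.mpr ⟨⟨⟨y', k⟩, ?_⟩, hxk⟩
  simp only [cov, mem_sigma, mem_range]
  exact ⟨Nat.mod_lt y hp', hk⟩

theorem ediam_I (j k : ℕ) : Metric.ediam (I j k) = ENNReal.ofReal (1 / 2 ^ j) := by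
  unfold I
  rw [Real.ediam_Icc]
  congr 1; ring

theorem eight_mul_le (t : ℕ) (ht : 6 ≤ t) : 8 * t ≤ 2 ^ t := by
  induction t, ht using Nat.le_induction with
  | base => norm_num
  | succ t ht ih => rw [pow_succ]; omega

theorem piece_le (t y : ℕ) (ht : 6 ≤ t) :
    ((P y (pk t y)).card : ℝ) * ((1 : ℝ) / 2 ^ pk t y) ^ (1 / 2 : ℝ) ≤ 2 * (1 / 4) ^ t := by
  set n := pk t y with hn
  have hp := s_pos
  have h1 := one_lt_s
  have hD : 4 * t ≤ D y n + 1 := by
    have h := D_peak y n (act_window t y) (by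
      rw [hn, pk, log_window]
      have := eight_mul_le t ht
      omega)
    rwa [hn, pk, log_window] at h
  have hr : ((1 : ℝ) / 2 ^ n) ^ (1 / 2 : ℝ) = (s ^ (2 * n))⁻¹ := by
    have h : ((1 : ℝ) / 2 ^ n) = ((s ^ (2 * n))⁻¹) ^ 2 := by
      rw [inv_pow, ← pow_mul, show 2 * n * 2 = 4 * n by ring, pow_mul, s_pow_four, one_div]
    rw [h, ← Real.rpow_natCast, ← Real.rpow_mul (by positivity)]
    norm_num
  have hc : ((P y n).card : ℝ) * 2 ^ zc y n = 2 ^ n := by exact_mod_cast card_P y n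
  have hc2 : ((P y n).card : ℝ) * s ^ (2 * D y n) = s ^ (2 * n) := by
    have e1 : (2 : ℝ) ^ zc y n = s ^ (2 * D y n) * s ^ (2 * n) := by
      rw [← s_pow_four, ← pow_mul, ← pow_add]
      congr 1
      have := two_zc y n
      omega
    have e2 : (2 : ℝ) ^ n = s ^ (2 * n) * s ^ (2 * n) := by
      rw [← s_pow_four, ← pow_mul, ← pow_add]
      congr 1
      omega
    rw [e1, e2, ← mul_assoc] at hc
    exact mul_right_cancel₀ (by positivity) hc
  have h4 : (4 : ℝ) ^ t ≤ 2 * s ^ (2 * D y n) := by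
    have e3 : (4 : ℝ) ^ t = s ^ (8 * t) := by
      rw [pow_mul, show s ^ 8 = (s ^ 4) ^ 2 by ring, s_pow_four]; norm_num
    rw [e3]
    calc s ^ (8 * t) ≤ s ^ (4 + 2 * D y n) := pow_le_pow_right₀ h1.le (by omega)
      _ = _ := by rw [pow_add, s_pow_four]
  rw [hr, ← hc2, one_div_pow]
  have hcpos : (0 : ℝ) < (P y n).card := by
    have h3 : (0 : ℝ) < (P y n).card * 2 ^ zc y n := by rw [hc]; positivity
    exact (mul_pos_iff_of_pos_right (by positivity)).mp h3
  field_simp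
  linarith

theorem cov_sum_le (t : ℕ) (ht : 6 ≤ t) :
    ∑ i : cov t, Metric.ediam (I (pk t i.1.1) i.1.2) ^ (1 / 2 : ℝ) ≤
      ENNReal.ofReal (4 * (1 / 2) ^ t) := by
  rw [sum_coe_sort (cov t) (fun i => Metric.ediam (I (pk t i.1) i.2) ^ (1 / 2 : ℝ)), cov, sum_sigma]
  have h1 : ∀ y ∈ range (2 ^ (t + 1)),
      ∑ k ∈ P y (pk t y), Metric.ediam (I (pk t y) k) ^ (1 / 2 : ℝ) ≤
        ENNReal.ofReal (2 * (1 / 4) ^ t) := by
    intro y _
    simp only [ediam_I]
    rw [sum_const, nsmul_eq_mul, ENNReal.ofReal_rpow_of_nonneg (by positivity) (by norm_num),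
      ← ENNReal.ofReal_natCast, ← ENNReal.ofReal_mul (by positivity)]
    exact ENNReal.ofReal_le_ofReal (piece_le t y ht)
  refine (sum_le_sum h1).trans (le_of_eq ?_)
  rw [sum_const, card_range, nsmul_eq_mul, ← ENNReal.ofReal_natCast,
    ← ENNReal.ofReal_mul (by positivity)]
  congr 1
  push_cast
  rw [show (1 / 4 : ℝ) = (1 / 2) * (1 / 2) by norm_num, mul_pow, pow_succ, one_div_pow]
  field_simp
  norm_num

theorem hausdorff_K : μH[1 / 2] K = 0 := by
  have hg : Tendsto (fun t : ℕ => (1 / 2 : ℝ) ^ t) atTop (𝓝 0) :=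
    tendsto_pow_atTop_nhds_zero_of_lt_one (by norm_num) (by norm_num)
  have hr : Tendsto (fun t : ℕ => ENNReal.ofReal ((1 / 2 : ℝ) ^ t)) atTop (𝓝 0) := by
    simpa using ENNReal.tendsto_ofReal hg
  have hr4 : Tendsto (fun t : ℕ => ENNReal.ofReal (4 * (1 / 2 : ℝ) ^ t)) atTop (𝓝 0) := by
    have := ENNReal.tendsto_ofReal (hg.const_mul 4)
    simpa only [mul_zero, ENNReal.ofReal_zero] using this
  have h := Measure.hausdorffMeasure_le_liminf_sum (1 / 2) K _ hr
    (fun t (i : cov t) => I (pk t i.1.1) i.1.2)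
    (Eventually.of_forall fun t i => by
      rw [ediam_I, one_div_pow]
      apply ENNReal.ofReal_le_ofReal
      apply one_div_le_one_div_of_le (by positivity)
      apply pow_le_pow_right₀ (by norm_num)
      have := Nat.lt_two_pow_self (n := t)
      unfold pk
      omega)
    (Eventually.of_forall K_subset_cov)
  refine le_antisymm (h.trans ?_) bot_le
  rw [← hr4.liminf_eq]
  exact liminf_le_liminf ((eventually_ge_atTop 6).mono cov_sum_le)

end Pool.Agent.H418Z.Besov
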