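import Mathlib

set_option autoImplicit false

namespace Pool.Agent.H418Z.Box

open Matrix

theorem gen_inv {F V V' : Type} [Field F] [AddCommGroup V] [Module F V] [AddCommGroup V']
    [Module F V'] (f : V →ₗ[F] V') : ∃ s : V' →ₗ[F] V, ∀ x, f (s (f x)) = f x := by
  obtain ⟨g, hg⟩ := LinearMap.exists_rightInverse_of_surjective f.rangeRestrict
    (LinearMap.range_rangeRestrict f)
  obtain ⟨p, hp⟩ := LinearMap.exists_leftInverse_of_injective (LinearMap.range f).subtype
    (Submodule.ker_subtype _)
  refine ⟨g ∘ₗ p, fun x => ?_⟩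
  have h1 : p (f x) = f.rangeRestrict x := LinearMap.congr_fun hp (f.rangeRestrict x)
  have h2 : f.rangeRestrict (g (f.rangeRestrict x)) = f.rangeRestrict x :=
    LinearMap.congr_fun hg _
  simp only [LinearMap.comp_apply, h1]
  exact congrArg Subtype.val h2

/-- action of an integer matrix on vectors with entries in an abelian group -/
def act {B α β : Type} [AddCommGroup B] [Fintype β] (N : Matrix α β ℤ) (c : β → B) : α → B :=
  fun i => ∑ j, N i j • c j

theorem act_mul {B α β γ : Type} [AddCommGroup B] [Fintype β] [Fintype γ] (N : Matrix α β ℤ)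
    (N' : Matrix β γ ℤ) (c : γ → B) : act (N * N') c = act N (act N' c) := by
  funext i
  simp only [act, Matrix.mul_apply, Finset.sum_smul, Finset.smul_sum, smul_smul]
  exact Finset.sum_comm

theorem act_add {B α β : Type} [AddCommGroup B] [Fintype β] (N N' : Matrix α β ℤ)
    (c : β → B) : act (N + N') c = act N c + act N' c := by
  funext i
  simp [act, add_smul, Finset.sum_add_distrib]

theorem act_zero {B α β : Type} [AddCommGroup B] [Fintype β] (N : Matrix α β ℤ) :
    act N (0 : β → B) = 0 := by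
  funext i
  simp [act]

theorem act_add' {B α β : Type} [AddCommGroup B] [Fintype β] (N : Matrix α β ℤ)
    (c c' : β → B) : act N (c + c') = act N c + act N c' := by
  funext i
  simp [act, Finset.sum_add_distrib]

theorem act_smul' {B α β : Type} [AddCommGroup B] [Fintype β] (N : Matrix α β ℤ) (z : ℤ)
    (c : β → B) : act N (z • c) = z • act N c := by
  funext i
  simp [act, Finset.smul_sum, smul_smul, mul_comm]

theorem act_scalar {B α : Type} [AddCommGroup B] [Fintype α] [DecidableEq α] (z : ℤ)
    (c : α → B) : act (algebraMap ℤ (Matrix α α ℤ) z) c = z • c := by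
  funext i
  simp [act, Matrix.algebraMap_matrix_apply]

theorem alg {B S0 S1 S2 : Type} [AddCommGroup B] [Fintype S0] [Fintype S1] [Fintype S2]
    [DecidableEq S0] [DecidableEq S1] [DecidableEq S2]
    (D1 : Matrix S0 S1 ℤ) (D2 : Matrix S1 S2 ℤ)
    (hex : ∀ c : S1 → ZMod 2, (D1.map (Int.castRingHom (ZMod 2))) *ᵥ c = 0 →
      ∃ e, (D2.map (Int.castRingHom (ZMod 2))) *ᵥ e = c)
    (H : AddSubgroup (S1 → B)) (hB : ∀ b : S0 → B, act D1ᵀ b ∈ H)
    (hZ : ∀ c ∈ H, act D2ᵀ c = 0) (c : S1 → B) (hc : act D2ᵀ c = 0) :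
    ∃ N : ℕ, Odd N ∧ N • c ∈ H := by
  have : Fact (Nat.Prime 2) := ⟨Nat.prime_two⟩
  set f := Matrix.toLin' (D1.map (Int.castRingHom (ZMod 2))) with hf
  set g := Matrix.toLin' (D2.map (Int.castRingHom (ZMod 2))) with hg
  obtain ⟨s, hs⟩ := gen_inv f
  obtain ⟨t, ht⟩ := gen_inv g
  have hid : s ∘ₗ f + g ∘ₗ (t ∘ₗ (LinearMap.id - s ∘ₗ f)) = LinearMap.id := by
    refine LinearMap.ext fun x => ?_
    obtain ⟨e, he⟩ := hex (x - s (f x)) (by
      have : f (x - s (f x)) = 0 := by rw [map_sub, hs, sub_self]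
      simpa [hf] using this)
    have he' : g e = x - s (f x) := by simpa [hg] using he
    simp only [LinearMap.add_apply, LinearMap.comp_apply, LinearMap.sub_apply, LinearMap.id_apply]
    rw [← he', ht, he']; abel
  let S : Matrix S1 S0 ℤ := (LinearMap.toMatrix' s).map fun z => (z.val : ℤ)
  let U : Matrix S2 S1 ℤ := (LinearMap.toMatrix' (t ∘ₗ (LinearMap.id - s ∘ₗ f))).map
    fun z => (z.val : ℤ)
  have hS : S.map (Int.castRingHom (ZMod 2)) = LinearMap.toMatrix' s := by
    ext i j; simp [S]
  have hU : U.map (Int.castRingHom (ZMod 2)) =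
      LinearMap.toMatrix' (t ∘ₗ (LinearMap.id - s ∘ₗ f)) := by
    ext i j; simp only [U, Matrix.map_apply]; simp
  let E : Matrix S1 S1 ℤ := (S * D1 + D2 * U)ᵀ
  have hE : E.map (Int.castRingHom (ZMod 2)) = 1 := by
    have := congrArg LinearMap.toMatrix' hid
    rw [map_add, LinearMap.toMatrix'_comp, LinearMap.toMatrix'_comp g, ← hS, ← hU, hf, hg,
      LinearMap.toMatrix'_toLin', LinearMap.toMatrix'_toLin', LinearMap.toMatrix'_id,
      ← Matrix.map_mul, ← Matrix.map_mul, ← Matrix.map_add _ (map_add _)] at this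
    simp only [E]
    rw [Matrix.transpose_map, this, Matrix.transpose_one]
  have hdet : Odd E.det := by
    have := (Int.castRingHom (ZMod 2)).map_det E
    rw [RingHom.mapMatrix_apply, hE, Matrix.det_one] at this
    exact ZMod.intCast_eq_one_iff_odd.1 this
  have hEH : ∀ c : S1 → B, act D2ᵀ c = 0 → act E c ∈ H := by
    intro c hc
    simp only [E, Matrix.transpose_add, Matrix.transpose_mul, act_add, act_mul, hc, act_zero,
      add_zero]
    exact hB _
  have hpoly : ∀ p : Polynomial ℤ, act D2ᵀ (act (Polynomial.aeval E p) c) = 0 := by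
    intro p
    induction p using Polynomial.induction_on with
    | C a => rw [Polynomial.aeval_C, act_scalar, act_smul', hc, smul_zero]
    | add p q hp hq => rw [map_add, act_add, act_add', hp, hq, add_zero]
    | monomial n a ih =>
      rw [pow_succ', ← mul_assoc, mul_comm (Polynomial.C a), mul_assoc, map_mul,
        Polynomial.aeval_X, act_mul]
      exact hZ _ (hEH _ ih)
  have hch := Matrix.aeval_self_charpoly E
  rw [← Polynomial.X_mul_divX_add E.charpoly, map_add, map_mul, Polynomial.aeval_X,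
    Polynomial.aeval_C] at hch
  have h1 : act (E * Polynomial.aeval E E.charpoly.divX) c + E.charpoly.coeff 0 • c = 0 := by
    rw [← act_scalar, ← act_add, hch]
    funext i; simp [act]
  have h2 : E.charpoly.coeff 0 • c ∈ H := by
    rw [eq_neg_of_add_eq_zero_right h1, act_mul]
    exact H.neg_mem (hEH _ (hpoly _))
  have h3 : Odd (E.charpoly.coeff 0) := by
    rw [Matrix.det_eq_sign_charpoly_coeff] at hdet
    exact (Int.odd_mul.1 hdet).2
  refine ⟨(E.charpoly.coeff 0).natAbs, Int.natAbs_odd.2 h3, ?_⟩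
  rw [← natCast_zsmul]
  rcases Int.natAbs_eq (E.charpoly.coeff 0) with h | h
  · rwa [← h]
  · rw [h, neg_smul] at h2
    exact neg_mem_iff.1 h2

end Pool.Agent.H418Z.Box
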