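import Mathlib

set_option autoImplicit false

namespace Pool.Agent.H418Z.Box

/-- Geometric realisation of a simplicial complex `K` (given as a predicate on finite sets of
vertices) on a finite vertex set `W`: the union of the geometric simplices of `K`, in barycentric
coordinates, with the subspace topology of `W → ℝ`. -/
def Rl {W : Type} [Fintype W] (K : Finset W → Prop) : Set (W → ℝ) :=
  {x | (∀ w, 0 ≤ x w) ∧ ∑ w, x w = 1 ∧ ∃ σ, K σ ∧ ∀ w ∉ σ, x w = 0}

/-- The mod 2 simplicial boundary of the augmented chain complex: the coefficient of `τ` in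
`bd c` is the sum of the coefficients in `c` of the simplices `τ ∪ {v}`, `v ∉ τ`. -/
def bd {W : Type} [Fintype W] [DecidableEq W] (c : Finset W → ZMod 2) (τ : Finset W) : ZMod 2 :=
  ∑ v ∈ τᶜ, c (insert v τ)

/-- `c` is a mod 2 chain of `K` made of simplices with `m` vertices (dimension `m - 1`). -/
def IsChain {W : Type} (K : Finset W → Prop) (m : ℕ) (c : Finset W → ZMod 2) : Prop :=
  ∀ σ, c σ ≠ 0 → K σ ∧ σ.card = m

/-- The reduced mod 2 simplicial homology of `K` vanishes in degree `m - 1`: every cycle made of
simplices with `m` vertices is a boundary. -/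
def Acyc {W : Type} [Fintype W] [DecidableEq W] (K : Finset W → Prop) (m : ℕ) : Prop :=
  ∀ c, IsChain K m c → bd c = 0 → ∃ e, IsChain K (m + 1) e ∧ bd e = c

/-- The box complex `B₀(G)` on `V × Bool`: the sets `A ⊎ B` with every vertex of `A` adjacent to
every vertex of `B` (this forces `A ∩ B = ∅`). -/
def B0 {V : Type} (G : SimpleGraph V) (σ : Finset (V × Bool)) : Prop :=
  ∀ a b, (a, false) ∈ σ → (b, true) ∈ σ → G.Adj a b

/-- The involution `A ⊎ B ↦ B ⊎ A` in barycentric coordinates. -/
def swapPt {V : Type} (x : V × Bool → ℝ) : V × Bool → ℝ := fun p => x (p.1, !p.2)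

end Pool.Agent.H418Z.Box
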