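import Pool.Agent.H418Z.BoxGrp
import Pool.Agent.H418Z.BoxDefs

set_option autoImplicit false
set_option linter.unusedSectionVars false

namespace Pool.Agent.H418Z.Box

open Topology Set Function

abbrev II : Type := ↥unitInterval

variable {W W' W'' : Type} [Fintype W] [DecidableEq W] [Fintype W'] [DecidableEq W']
  [Fintype W''] [DecidableEq W'']

abbrev R (K : Finset W → Prop) : Type := ↥(Rl K)

def Down (K : Finset W → Prop) : Prop := ∀ ⦃σ τ : Finset W⦄, σ ⊆ τ → K τ → K σ

theorem isClosed_supp (K : Finset W → Prop) :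
    IsClosed {x : W → ℝ | ∃ σ, K σ ∧ ∀ w ∉ σ, x w = 0} := by
  have : {x : W → ℝ | ∃ σ, K σ ∧ ∀ w ∉ σ, x w = 0} =
      ⋃ σ ∈ {σ | K σ}, ⋂ w ∈ {w | w ∉ σ}, {x : W → ℝ | x w = 0} := by
    ext x; simp
  rw [this]
  exact (Set.toFinite _).isClosed_biUnion fun σ _ =>
    isClosed_biInter fun w _ => isClosed_eq (continuous_apply w) continuous_const

theorem isCompact_Rl (K : Finset W → Prop) : IsCompact (Rl K) := by
  have : Rl K = stdSimplex ℝ W ∩ {x : W → ℝ | ∃ σ, K σ ∧ ∀ w ∉ σ, x w = 0} := by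
    ext x; simp [Rl, stdSimplex, and_assoc]
  rw [this]
  exact (isCompact_stdSimplex ℝ W).inter_right (isClosed_supp K)

instance (K : Finset W → Prop) : CompactSpace (R K) := isCompact_iff_compactSpace.mp (isCompact_Rl K)

def push (g : W' → W) (x : W' → ℝ) : W → ℝ := fun w => ∑ w', if g w' = w then x w' else 0

theorem continuous_push (g : W' → W) : Continuous (push g) :=
  continuous_pi fun w => continuous_finsetSum _ fun w' _ => by
    split_ifs <;> fun_prop

theorem push_sum (g : W' → W) (x : W' → ℝ) : ∑ w, push g x w = ∑ w', x w' := by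
  unfold push; rw [Finset.sum_comm]; simp

theorem push_supp (g : W' → W) {x : W' → ℝ} {σ : Finset W'} (h : ∀ w ∉ σ, x w = 0) :
    ∀ w ∉ σ.image g, push g x w = 0 := by
  intro w hw
  refine Finset.sum_eq_zero fun w' _ => ?_
  split_ifs with h1
  · exact h w' fun h2 => hw (Finset.mem_image.2 ⟨w', h2, h1⟩)
  · rfl

theorem push_push (g : W' → W) (g' : W'' → W') (x : W'' → ℝ) :
    push g (push g' x) = push (g ∘ g') x := by
  funext w
  unfold push
  have : ∀ w', (if g w' = w then ∑ w'', (if g' w'' = w' then x w'' else 0) else 0) =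
      ∑ w'', if g' w'' = w' then (if g (g' w'') = w then x w'' else 0) else 0 := by
    intro w'
    split_ifs with h
    · refine Finset.sum_congr rfl fun w'' _ => ?_
      split_ifs with h1 h2
      · rfl
      · exact absurd (h1 ▸ h) h2
      · rfl
    · refine (Finset.sum_eq_zero fun w'' _ => ?_).symm
      split_ifs with h1 h2
      · exact absurd (h1 ▸ h2) h
      · rfl
      · rfl
  simp_rw [this]
  rw [Finset.sum_comm]; simp

theorem push_inj {g : W' → W} (hg : Injective g) (x : W' → ℝ) (w' : W') :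
    push g x (g w') = x w' := by
  unfold push; simp [hg.eq_iff]

theorem push_restrict {g : W' → W} (hg : Injective g) {x : W → ℝ}
    (h : ∀ w ∉ Finset.univ.image g, x w = 0) : push g (x ∘ g) = x := by
  funext w
  by_cases hw : w ∈ Finset.univ.image g
  · obtain ⟨w', -, rfl⟩ := Finset.mem_image.1 hw
    exact push_inj hg _ _
  · rw [h w hw]; exact push_supp g (σ := Finset.univ) (by simp) w hw

theorem push_id (x : W → ℝ) : push id x = x := funext fun w => push_inj injective_id x w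

def pushR {K' : Finset W' → Prop} {K : Finset W → Prop} (g : W' → W)
    (h : ∀ σ, K' σ → K (σ.image g)) : C(R K', R K) :=
  ⟨fun x => ⟨push g x.1, fun w => Finset.sum_nonneg fun w' _ => by
      split_ifs
      · exact x.2.1 w'
      · exact le_rfl, by rw [push_sum]; exact x.2.2.1, by
      obtain ⟨σ, h1, h2⟩ := x.2.2.2
      exact ⟨_, h σ h1, push_supp g h2⟩⟩,
    ((continuous_push g).comp continuous_subtype_val).subtype_mk _⟩

@[simp] theorem pushR_val {K' : Finset W' → Prop} {K : Finset W → Prop} (g : W' → W)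
    (h : ∀ σ, K' σ → K (σ.image g)) (x : R K') : (pushR g h x).1 = push g x.1 := rfl

def incl {L K : Finset W → Prop} (h : ∀ σ, L σ → K σ) : C(R L, R K) :=
  ⟨fun x => ⟨x.1, x.2.1, x.2.2.1, by
      obtain ⟨σ, h1, h2⟩ := x.2.2.2
      exact ⟨σ, h σ h1, h2⟩⟩, continuous_subtype_val.subtype_mk _⟩

@[simp] theorem incl_val {L K : Finset W → Prop} (h : ∀ σ, L σ → K σ) (x : R L) :
    (incl h x).1 = x.1 := rfl

/-- points with at most `j` nonzero coordinates -/
def Z (K : Finset W → Prop) (j : ℕ) : Set (R K) :=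
  {x | ∃ σ : Finset W, σ.card ≤ j ∧ ∀ w ∉ σ, x.1 w = 0}

theorem isClosed_Z (K : Finset W → Prop) (j : ℕ) : IsClosed (Z K j) :=
  (isClosed_supp (fun σ : Finset W => σ.card ≤ j)).preimage continuous_subtype_val

theorem Z_mono (K : Finset W → Prop) {i j : ℕ} (h : i ≤ j) : Z K i ⊆ Z K j :=
  fun _ ⟨σ, h1, h2⟩ => ⟨σ, h1.trans h, h2⟩

theorem not_mem_Z0 {K : Finset W → Prop} (x : R K) : x ∉ Z K 0 := by
  rintro ⟨σ, h1, h2⟩
  have : σ = ∅ := by simpa using h1
  subst this
  have := x.2.2.1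
  simp [h2] at this

theorem pushR_maps {K' : Finset W' → Prop} {K : Finset W → Prop} (g : W' → W)
    (h : ∀ σ, K' σ → K (σ.image g)) (j : ℕ) : MapsTo (pushR g h) (Z K' j) (Z K j) :=
  fun _ ⟨σ, h1, h2⟩ => ⟨σ.image g, Finset.card_image_le.trans h1, push_supp g h2⟩

theorem incl_maps {L K : Finset W → Prop} (h : ∀ σ, L σ → K σ) (j : ℕ) :
    MapsTo (incl h) (Z L j) (Z K j) := fun _ hx => hx

def full (W : Type) : Finset W → Prop := fun _ => True

theorem down_full : Down (full W) := fun _ _ _ _ => trivial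

variable {T : Type} [TopologicalSpace T] (t0 : T)

abbrev A (j : ℕ) := G t0 (R (full (Fin (j + 1)))) (Z _ j)

noncomputable def ev {K : Finset W → Prop} (hK : Down K) {j : ℕ} (g : Fin (j + 1) → W)
    (h : K (Finset.univ.image g)) : G t0 (R K) (Z K j) →* A t0 j :=
  pull t0 (pushR g fun σ _ => hK (Finset.image_subset_image (Finset.subset_univ σ)) h)
    (pushR_maps _ _ j)

variable {t0}

theorem ev_congr {K : Finset W → Prop} (hK : Down K) {j : ℕ} {g g' : Fin (j + 1) → W}
    (e : g = g') (h : K (Finset.univ.image g)) (h' : K (Finset.univ.image g'))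
    (φ : G t0 (R K) (Z K j)) : ev t0 hK g h φ = ev t0 hK g' h' φ := by
  subst e; rfl

theorem ev_deg {K : Finset W → Prop} (hK : Down K) {j : ℕ} {g : Fin (j + 1) → W}
    (h : K (Finset.univ.image g)) (hg : ¬ Injective g) (φ : G t0 (R K) (Z K j)) :
    ev t0 hK g h φ = 1 := by
  unfold ev
  refine pull_eq_one _ _ (fun x => ?_) φ
  refine ⟨Finset.univ.image g, ?_, push_supp g (σ := Finset.univ) (by simp)⟩
  have h1 : (Finset.univ.image g).card ≤ j + 1 := Finset.card_image_le.trans (by simp)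
  have h2 : (Finset.univ.image g).card ≠ j + 1 := fun h2 => hg (by
    have : (Finset.univ.image g).card = (Finset.univ : Finset (Fin (j + 1))).card := by
      simpa using h2
    have := Finset.card_image_iff.1 this
    simpa [Set.injOn_univ] using this)
  omega

theorem ev_push {K : Finset W → Prop} (hK : Down K) {K' : Finset W' → Prop} (hK' : Down K')
    {j : ℕ} (f : W → W') (hf : ∀ σ, K σ → K' (σ.image f)) (g : Fin (j + 1) → W)
    (h : K (Finset.univ.image g)) (g' : Fin (j + 1) → W') (hg' : g' = f ∘ g)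
    (h' : K' (Finset.univ.image g')) (φ : G t0 (R K') (Z K' j)) :
    ev t0 hK g h (pull t0 (pushR f hf) (pushR_maps _ _ j) φ) = ev t0 hK' g' h' φ := by
  subst hg'
  exact pull_comp _ _ _ _ _ _ (fun x => Subtype.ext (push_push f g x.1).symm) φ

theorem ev_incl {L K : Finset W → Prop} (hL : Down L) (hK : Down K) (hLK : ∀ σ, L σ → K σ)
    {j : ℕ} (g : Fin (j + 1) → W) (h : L (Finset.univ.image g)) (φ : G t0 (R K) (Z K j)) :
    ev t0 hL g h (pull t0 (incl hLK) (incl_maps _ j) φ) = ev t0 hK g (hLK _ h) φ :=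
  pull_comp _ _ _ _ _ _ (fun _ => rfl) φ

theorem ev_id {j : ℕ} (g : Fin (j + 1) → Fin (j + 1)) (hg : ∀ k, g k = k) (a : A t0 j) :
    ev t0 down_full g trivial a = a := by
  obtain rfl : g = id := funext hg
  exact pull_id _ _ (fun x => Subtype.ext (push_id x.1)) a

theorem img_emb [LinearOrder W] (σ : Finset W) {k : ℕ} (h : σ.card = k) :
    Finset.univ.image (σ.orderEmbOfFin h) = σ := by
  refine Finset.coe_injective ?_
  rw [Finset.coe_image, Finset.coe_univ, Set.image_univ]
  exact Finset.range_orderEmbOfFin σ h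

theorem glue_sk [LinearOrder W] {K : Finset W → Prop} (hK : Down K) {j : ℕ}
    (hc : ∀ σ, K σ → σ.card ≤ j + 1) (φ : G t0 (R K) (Z K j))
    (hφ : ∀ σ (hσ : K σ) (h : σ.card = j + 1),
      ev t0 hK (σ.orderEmbOfFin h) (by rwa [img_emb]) φ = 1) : φ = 1 := by
  refine glue (ι := {σ : Finset W // K σ ∧ σ.card = j + 1}) (B := Z (full (Fin (j + 1))) j)
    (fun i => pushR (i.1.orderEmbOfFin i.2.2) fun σ _ =>
      hK (Finset.image_subset_image (Finset.subset_univ σ))
        (by rw [img_emb]; exact i.2.1))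
    (fun i => pushR_maps _ _ j) (isClosed_Z K j) ?_ ?_ ?_ φ (fun i => hφ i.1 i.2.1 i.2.2)
  · intro x
    obtain ⟨σ, h1, h2⟩ := x.2.2.2
    rcases (hc σ h1).lt_or_eq with h3 | h3
    · exact Or.inl ⟨σ, by omega, h2⟩
    · have hi := (σ.orderEmbOfFin h3).injective
      have hr : push (σ.orderEmbOfFin h3) (x.1 ∘ σ.orderEmbOfFin h3) = x.1 :=
        push_restrict hi (by rwa [img_emb])
      refine Or.inr ⟨⟨σ, h1, h3⟩, ⟨x.1 ∘ σ.orderEmbOfFin h3, fun k => x.2.1 _, ?_,
        Finset.univ, trivial, by simp⟩, Subtype.ext hr⟩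
      rw [← push_sum (σ.orderEmbOfFin h3), hr]; exact x.2.2.1
  · rintro ⟨σ, h1, h3⟩ d ⟨τ, h4, h5⟩
    have hi := (σ.orderEmbOfFin h3).injective
    refine ⟨Finset.univ.filter fun k => σ.orderEmbOfFin h3 k ∈ τ, le_trans ?_ h4, ?_⟩
    · exact Finset.card_le_card_of_injOn (σ.orderEmbOfFin h3) (fun k hk => by simpa using hk)
        hi.injOn
    · intro k hk
      rw [← push_inj hi d.1 k]
      exact h5 _ (by simpa using hk)
  · rintro ⟨σ, h1, h3⟩ d ⟨σ', h1', h3'⟩ d' he hd
    have hi := (σ.orderEmbOfFin h3).injective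
    have he' : push (σ.orderEmbOfFin h3) d.1 = push (σ'.orderEmbOfFin h3') d'.1 :=
      congrArg Subtype.val he
    have hsub : σ ⊆ σ' := by
      intro w hw
      rw [← img_emb σ h3] at hw
      obtain ⟨k, -, rfl⟩ := Finset.mem_image.1 hw
      by_contra hn
      refine hd ⟨Finset.univ.erase k, by simp, fun k' hk' => ?_⟩
      obtain rfl : k' = k := by simpa using hk'
      rw [← push_inj hi d.1 k', he']
      refine push_supp _ (σ := Finset.univ) (by simp) _ ?_
      rwa [img_emb]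
    obtain rfl : σ = σ' := Finset.eq_of_subset_of_card_le hsub (by omega)
    refine ⟨rfl, Subtype.ext (funext fun k => ?_)⟩
    rw [← push_inj hi d.1 k, he', push_inj hi]

theorem exists_retr {L K : Finset W → Prop} (hne : (Rl L).Nonempty) :
    ∃ r : R K × II → R K × II, Continuous r ∧ (∀ x, r (x, 0) = (x, 0)) ∧
      (∀ x : R K, x.1 ∈ Rl L → ∀ t, r (x, t) = (x, t)) ∧ ∀ p, (r p).2 = 0 ∨ (r p).1.1 ∈ Rl L := by
  obtain ⟨n, hn⟩ : ∃ n : ℝ, n = (Fintype.card W : ℝ) := ⟨_, rfl⟩
  have hbig : ∀ x : W → ℝ, ∑ w, x w = 1 → ∃ w, 1 / (n + 1) < x w := by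
    intro x hx
    by_contra h
    push Not at h
    have h1 : ∑ w, x w ≤ ∑ _w : W, 1 / (n + 1) := Finset.sum_le_sum fun w _ => h w
    rw [hx, Finset.sum_const, Finset.card_univ, nsmul_eq_mul, ← hn] at h1
    have h2 : (0 : ℝ) ≤ n := by rw [hn]; positivity
    rw [mul_one_div, le_div_iff₀ (by linarith)] at h1
    linarith
  have hn0 : (0 : ℝ) < n + 1 := by rw [hn]; positivity
  let θ : R K → ℝ := fun x => Metric.infDist x.1 (Rl L)
  have hθc : Continuous θ := (Metric.continuous_infDist_pt _).comp continuous_subtype_val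
  have hθ0 : ∀ x, 0 ≤ θ x := fun x => Metric.infDist_nonneg
  let δ : R K × II → ℝ := fun p => min (θ p.1) (p.2 / (n + 1))
  have hδc : Continuous δ := by fun_prop
  have hδ0 : ∀ p, 0 ≤ δ p := fun p => le_min (hθ0 _) (div_nonneg p.2.2.1 hn0.le)
  have hδ1 : ∀ p, δ p ≤ 1 / (n + 1) := fun p =>
    (min_le_right _ _).trans (div_le_div_of_nonneg_right p.2.2.2 hn0.le)
  let y : R K × II → W → ℝ := fun p w => max (p.1.1 w - δ p) 0
  have hyc : ∀ w, Continuous fun p => y p w := fun w => by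
    have : Continuous fun p : R K × II => p.1.1 w :=
      (continuous_apply w).comp (continuous_subtype_val.comp continuous_fst)
    fun_prop
  have hy0 : ∀ p w, 0 ≤ y p w := fun p w => le_max_right _ _
  have hs : ∀ p, 0 < ∑ w, y p w := by
    intro p
    obtain ⟨w, hw⟩ := hbig p.1.1 p.1.2.2.1
    refine Finset.sum_pos' (fun w _ => hy0 p w) ⟨w, Finset.mem_univ _, ?_⟩
    exact lt_max_of_lt_left (by linarith [hδ1 p])
  have hmem : ∀ (p : R K × II) (K' : Finset W → Prop), (∃ σ, K' σ ∧ ∀ w ∉ σ, p.1.1 w ≤ δ p) →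
      (fun w => y p w / ∑ w, y p w) ∈ Rl K' := by
    rintro p K' ⟨σ, h1, h2⟩
    refine ⟨fun w => div_nonneg (hy0 p w) (hs p).le, ?_, σ, h1, fun w hw => ?_⟩
    · rw [← Finset.sum_div, div_self (hs p).ne']
    · have : y p w = 0 := max_eq_right (by linarith [h2 w hw])
      simp [this]
  have hmemK : ∀ p : R K × II, (fun w => y p w / ∑ w, y p w) ∈ Rl K := fun p => hmem p K (by
    obtain ⟨σ, h1, h2⟩ := p.1.2.2.2
    exact ⟨σ, h1, fun w hw => by rw [h2 w hw]; exact hδ0 p⟩)
  have hfix : ∀ p : R K × II, δ p = 0 → (fun w => y p w / ∑ w, y p w) = p.1.1 := by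
    intro p hp
    have : ∀ w, y p w = p.1.1 w := fun w => by
      simp only [y, hp, sub_zero]; exact max_eq_left (p.1.2.1 w)
    funext w
    simp only [this, p.1.2.2.1, div_one]
  refine ⟨fun p => (⟨_, hmemK p⟩, ⟨max 0 (p.2 - (n + 1) * θ p.1), le_max_left _ _,
    max_le zero_le_one (by nlinarith [p.2.2.2, hθ0 p.1])⟩), ?_, ?_, ?_, ?_⟩
  · refine Continuous.prodMk (Continuous.subtype_mk (continuous_pi fun w => ?_) _)
      (Continuous.subtype_mk (by fun_prop) _)
    exact (hyc w).div (continuous_finsetSum _ fun w _ => hyc w) fun p => (hs p).ne'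
  · intro x
    refine Prod.ext (Subtype.ext (hfix (x, 0) ?_)) (Subtype.ext ?_)
    · simp [δ, hθ0]
    · exact max_eq_left (by simp; nlinarith [hθ0 x])
  · intro x hx t
    have : θ x = 0 := Metric.infDist_zero_of_mem hx
    refine Prod.ext (Subtype.ext (hfix (x, t) ?_)) (Subtype.ext ?_)
    · simp only [δ, this]; exact min_eq_left (div_nonneg t.2.1 hn0.le)
    · simp only [this]; simpa using t.2.1
  · intro p
    by_cases h : (p.2 : ℝ) - (n + 1) * θ p.1 ≤ 0
    · exact Or.inl (Subtype.ext (max_eq_left h))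
    · right
      have h1 : δ p = θ p.1 := min_eq_left (by rw [le_div_iff₀ hn0]; linarith)
      obtain ⟨z, hz, hd⟩ := (isCompact_Rl L).exists_infDist_eq_dist hne p.1.1
      obtain ⟨σ, h2, h3⟩ := hz.2.2
      refine hmem p L ⟨σ, h2, fun w hw => ?_⟩
      have := dist_le_pi_dist p.1.1 z w
      rw [h3 w hw, Real.dist_eq, sub_zero, ← hd] at this
      rw [h1]
      exact (le_abs_self _).trans this

theorem hep_cx {L K : Finset W → Prop} (hLK : ∀ σ, L σ → K σ) (hne : (Rl L).Nonempty)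
    {S L0 : Set (R K)} (hS : ∀ x, x ∈ S ↔ x.1 ∈ Rl L) (h0 : L0 ⊆ S) {L' : Set (R L)}
    (hm : MapsTo (incl hLK) L' L0) (hm' : ∀ y, incl hLK y ∈ L0 → y ∈ L')
    (φ : G t0 (R K) L0) (hφ : pull t0 (incl hLK) hm φ = 1) :
    ∃ ψ : G t0 (R K) S, pull t0 (ContinuousMap.id _) (fun _ hx => h0 hx) ψ = φ := by
  obtain ⟨r, h1, h2, h3, h4⟩ := exists_retr (K := K) hne
  refine hep h0 (incl hLK) (fun x y h => Subtype.ext (congrArg Subtype.val h :)) (fun x => ?_) hm hm'
    r h1 h2 (fun x hx => h3 x ((hS x).1 hx)) (fun p => (h4 p).imp id (hS _).2) φ hφ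
  rw [hS]
  exact ⟨fun h => ⟨⟨x.1, h⟩, rfl⟩, fun ⟨y, hy⟩ => hy ▸ y.2⟩

end Pool.Agent.H418Z.Box
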