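import Mathlib

set_option autoImplicit false

namespace Pool.Agent.H418Z.Box

open unitInterval Topology Set Function

/-- descent along a continuous surjection from a compact space to a Hausdorff space -/
theorem descend0 {C Z T : Type*} [TopologicalSpace C] [TopologicalSpace Z] [TopologicalSpace T]
    [CompactSpace C] [T2Space Z] (q : C → Z) (hq : Continuous q) (hs : Surjective q)
    (Φ : C → T) (hΦ : Continuous Φ) (hc : ∀ c c', q c = q c' → Φ c = Φ c') :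
    ∃ F : C(Z, T), ∀ c, F (q c) = Φ c := by
  have hQ : IsQuotientMap q := hq.isClosedMap.isQuotientMap hq hs
  have key : ∀ c, Φ (surjInv hs (q c)) = Φ c := fun c => hc _ _ (surjInv_eq hs _)
  refine ⟨⟨fun z => Φ (surjInv hs z), ?_⟩, key⟩
  rw [hQ.continuous_iff]
  have : (fun z => Φ (surjInv hs z)) ∘ q = Φ := funext key
  rw [this]; exact hΦ

variable {T : Type} [TopologicalSpace T] (t0 : T)

/-- maps `K → T` sending `L` to the base point -/
def M (K : Type) [TopologicalSpace K] (L : Set K) : Type := {f : C(K, T) // ∀ x ∈ L, f x = t0}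

instance (K : Type) [TopologicalSpace K] (L : Set K) : TopologicalSpace (M t0 K L) :=
  instTopologicalSpaceSubtype

def cst (K : Type) [TopologicalSpace K] (L : Set K) : M t0 K L :=
  ⟨ContinuousMap.const K t0, fun _ _ => rfl⟩

def G (K : Type) [TopologicalSpace K] (L : Set K) : Type :=
  FundamentalGroup (M t0 K L) (cst t0 K L)

noncomputable instance (K : Type) [TopologicalSpace K] (L : Set K) : Group (G t0 K L) :=
  inferInstanceAs (Group (FundamentalGroup (M t0 K L) (cst t0 K L)))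

variable {K K' K'' : Type} [TopologicalSpace K] [TopologicalSpace K'] [TopologicalSpace K'']
  {L : Set K} {L' : Set K'} {L'' : Set K''}

def pullM (g : C(K', K)) (hg : MapsTo g L' L) : C(M t0 K L, M t0 K' L') :=
  ⟨fun f => ⟨f.1.comp g, fun _ hx => f.2 _ (hg hx)⟩,
    Continuous.subtype_mk ((ContinuousMap.continuous_precomp g).comp continuous_subtype_val) _⟩

noncomputable def pull (g : C(K', K)) (hg : MapsTo g L' L) : G t0 K L →* G t0 K' L' :=
  FundamentalGroup.mapOfEq (pullM t0 g hg) rfl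

/-- the class of a loop -/
def cls (γ : Path (cst t0 K L) (cst t0 K L)) : G t0 K L := Path.Homotopic.Quotient.mk γ

def pullP (g : C(K', K)) (hg : MapsTo g L' L) (γ : Path (cst t0 K L) (cst t0 K L)) :
    Path (cst t0 K' L') (cst t0 K' L') := γ.map (pullM t0 g hg).continuous

variable {t0}

theorem cls_surj (φ : G t0 K L) : ∃ γ, cls t0 γ = φ := Path.Homotopic.Quotient.mk_surjective φ

theorem pull_cls (g : C(K', K)) (hg : MapsTo g L' L) (γ : Path (cst t0 K L) (cst t0 K L)) :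
    pull t0 g hg (cls t0 γ) = cls t0 (pullP t0 g hg γ) := by
  exact FundamentalGroup.mapOfEq_apply (pullM t0 g hg) rfl (cls t0 γ)

@[simp] theorem pullP_apply (g : C(K', K)) (hg : MapsTo g L' L)
    (γ : Path (cst t0 K L) (cst t0 K L)) (s : I) (x : K') :
    (pullP t0 g hg γ s).1 x = (γ s).1 (g x) := rfl

theorem cont_ev [CompactSpace K] [T2Space K] {X : Type*} [TopologicalSpace X] {f : X → M t0 K L} {k : X → K}
    (hf : Continuous f) (hk : Continuous k) : Continuous fun x => (f x).1 (k x) :=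
  (continuous_subtype_val.comp hf).eval hk

theorem cont_into {X : Type*} [TopologicalSpace X] {f : X → M t0 K L}
    (hf : Continuous fun p : X × K => (f p.1).1 p.2) : Continuous f :=
  Continuous.subtype_mk (p := fun f : C(K, T) => ∀ x ∈ L, f x = t0)
    (ContinuousMap.continuous_of_continuous_uncurry (fun x => (f x).1) hf) (fun x => (f x).2)

theorem M_ext {f g : M t0 K L} (h : ∀ x, f.1 x = g.1 x) : f = g :=
  Subtype.ext (ContinuousMap.ext h)

/-- build a path in the mapping space -/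
def mkPath (F : C(K × I, T)) (hL : ∀ x ∈ L, ∀ s, F (x, s) = t0) (f0 f1 : M t0 K L)
    (h0 : ∀ x, F (x, 0) = f0.1 x) (h1 : ∀ x, F (x, 1) = f1.1 x) : Path f0 f1 where
  toFun s := ⟨⟨fun x => F (x, s), by fun_prop⟩, fun x hx => hL x hx s⟩
  continuous_toFun := cont_into (by
    show Continuous fun p : I × K => F (p.2, p.1)
    fun_prop)
  source' := M_ext h0
  target' := M_ext h1

@[simp] theorem mkPath_apply (F : C(K × I, T)) (hL : ∀ x ∈ L, ∀ s, F (x, s) = t0)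
    (f0 f1 : M t0 K L) (h0 : ∀ x, F (x, 0) = f0.1 x) (h1 : ∀ x, F (x, 1) = f1.1 x) (s : I) (x : K) :
    (mkPath F hL f0 f1 h0 h1 s).1 x = F (x, s) := rfl

theorem homotopic_of {f0 f1 : M t0 K L} {p q : Path f0 f1} (H : K × (I × I) → T)
    (hH : Continuous H) (hp : ∀ x s, H (x, (0, s)) = (p s).1 x)
    (hq : ∀ x s, H (x, (1, s)) = (q s).1 x) (h0 : ∀ x t, H (x, (t, 0)) = f0.1 x)
    (h1 : ∀ x t, H (x, (t, 1)) = f1.1 x) (hL : ∀ x ∈ L, ∀ ts, H (x, ts) = t0) :
    p.Homotopic q := by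
  refine ⟨⟨⟨⟨fun ts => ⟨⟨fun x => H (x, ts), by fun_prop⟩, fun x hx => hL x hx ts⟩,
    cont_into (by
      show Continuous fun z : (I × I) × K => H (z.2, z.1)
      fun_prop)⟩, fun s => M_ext fun x => hp x s, fun s => M_ext fun x => hq x s⟩, ?_⟩⟩
  intro t s hs
  rcases hs with rfl | rfl
  · refine M_ext fun x => ?_
    have := h0 x t
    simpa using this
  · refine M_ext fun x => ?_
    have := h1 x t
    simpa using this

theorem of_homotopic [CompactSpace K] [T2Space K] {f0 f1 : M t0 K L} {p q : Path f0 f1}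
    (h : p.Homotopic q) : ∃ H : C(K × (I × I), T), (∀ x s, H (x, (0, s)) = (p s).1 x) ∧
    (∀ x s, H (x, (1, s)) = (q s).1 x) ∧ (∀ x t, H (x, (t, 0)) = f0.1 x) ∧
    (∀ x t, H (x, (t, 1)) = f1.1 x) ∧ (∀ x ∈ L, ∀ ts, H (x, ts) = t0) := by
  obtain ⟨F⟩ := h
  refine ⟨⟨fun z => (F z.2).1 z.1, cont_ev (by fun_prop) (by fun_prop)⟩, ?_, ?_, ?_, ?_, ?_⟩
  · intro x s; simp
  · intro x s; simp
  · intro x t; simp
  · intro x t; simp
  · intro x hx ts; exact (F ts).2 x hx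

theorem cls_eq {γ γ' : Path (cst t0 K L) (cst t0 K L)} :
    cls t0 γ = cls t0 γ' ↔ γ.Homotopic γ' := Path.Homotopic.Quotient.eq

theorem cls_refl : cls t0 (Path.refl (cst t0 K L)) = 1 := rfl

theorem pull_comp (g : C(K', K)) (hg : MapsTo g L' L) (g' : C(K'', K')) (hg' : MapsTo g' L'' L')
    (g'' : C(K'', K)) (hg'' : MapsTo g'' L'' L) (h : ∀ x, g'' x = g (g' x)) (φ : G t0 K L) :
    pull t0 g' hg' (pull t0 g hg φ) = pull t0 g'' hg'' φ := by
  obtain ⟨γ, rfl⟩ := cls_surj φ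
  rw [pull_cls, pull_cls, pull_cls]
  congr 1
  ext : 1
  funext s
  exact M_ext fun x => by simp [h]

theorem pull_id (g : C(K, K)) (hg : MapsTo g L L) (h : ∀ x, g x = x) (φ : G t0 K L) :
    pull t0 g hg φ = φ := by
  obtain ⟨γ, rfl⟩ := cls_surj φ
  rw [pull_cls]
  congr 1
  ext : 1
  funext s
  exact M_ext fun x => by simp [h]

theorem pull_eq_one (g : C(K', K)) (hg : MapsTo g L' L) (h : ∀ x, g x ∈ L) (φ : G t0 K L) :
    pull t0 g hg φ = 1 := by
  obtain ⟨γ, rfl⟩ := cls_surj φ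
  rw [pull_cls, ← cls_refl]
  congr 1
  ext : 1
  funext s
  exact M_ext fun x => (γ s).2 _ (h x)

theorem pull_homotopy [CompactSpace K] [T2Space K] (g0 g1 : C(K', K)) (hg0 : MapsTo g0 L' L)
    (hg1 : MapsTo g1 L' L) (h : K' × I → K) (hh : Continuous h) (h0 : ∀ x, h (x, 0) = g0 x)
    (h1 : ∀ x, h (x, 1) = g1 x) (hL : ∀ x ∈ L', ∀ t, h (x, t) ∈ L) (φ : G t0 K L) :
    pull t0 g0 hg0 φ = pull t0 g1 hg1 φ := by
  obtain ⟨γ, rfl⟩ := cls_surj φ
  rw [pull_cls, pull_cls, cls_eq]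
  refine homotopic_of (fun z => (γ z.2.2).1 (h (z.1, z.2.1))) (cont_ev (by fun_prop) (by fun_prop))
    ?_ ?_ ?_ ?_ ?_
  · intro x s; simp [h0]
  · intro x s; simp [h1]
  · intro x t; simp; rfl
  · intro x t; simp; rfl
  · intro x hx ts; exact (γ _).2 _ (hL x hx _)

theorem glue [CompactSpace K] [T2Space K] {ι D : Type} [Finite ι] [TopologicalSpace D]
    [CompactSpace D] [T2Space D] {B : Set D} (e : ι → C(D, K)) (he : ∀ i, MapsTo (e i) B L)
    (hL : IsClosed L) (hcov : ∀ x, x ∈ L ∨ ∃ i d, e i d = x)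
    (hB : ∀ i d, e i d ∈ L → d ∈ B)
    (hinj : ∀ i d i' d', e i d = e i' d' → d ∉ B → i = i' ∧ d = d')
    (φ : G t0 K L) (hφ : ∀ i, pull t0 (e i) (he i) φ = 1) : φ = 1 := by
  obtain ⟨γ, rfl⟩ := cls_surj φ
  have h1 : ∀ i, _ := fun i => by
    have := hφ i
    rw [pull_cls, ← cls_refl, cls_eq] at this
    exact of_homotopic this
  choose H hp hq h0 h1 hb using h1
  have : CompactSpace L := isCompact_iff_compactSpace.mp hL.isCompact
  let q : (L × (I × I)) ⊕ (Σ _ : ι, D × (I × I)) → K × (I × I) :=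
    Sum.elim (fun z => (z.1.1, z.2)) (fun z => (e z.1 z.2.1, z.2.2))
  let Φ : (L × (I × I)) ⊕ (Σ _ : ι, D × (I × I)) → T :=
    Sum.elim (fun _ => t0) (fun z => H z.1 z.2)
  have hs : Surjective q := by
    rintro ⟨x, ts⟩
    rcases hcov x with hx | ⟨i, d, rfl⟩
    · exact ⟨Sum.inl (⟨x, hx⟩, ts), rfl⟩
    · exact ⟨Sum.inr ⟨i, (d, ts)⟩, rfl⟩
  obtain ⟨F, hF⟩ := descend0 q
    (Continuous.sumElim (by fun_prop) (continuous_sigma fun i => by
      show Continuous fun z : D × (I × I) => (e i z.1, z.2)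
      fun_prop)) hs Φ
    (Continuous.sumElim (by fun_prop) (continuous_sigma fun i => (H i).continuous)) (by
      rintro (⟨x, ts⟩ | ⟨i, d, ts⟩) (⟨x', ts'⟩ | ⟨i', d', ts'⟩) h
      · rfl
      · simp only [q, Sum.elim_inl, Sum.elim_inr, Prod.mk.injEq] at h
        exact (hb i' d' (hB _ _ (h.1 ▸ x.2)) _).symm
      · simp only [q, Sum.elim_inl, Sum.elim_inr, Prod.mk.injEq] at h
        exact (hb i d (hB _ _ (h.1 ▸ x'.2)) _)
      · simp only [q, Sum.elim_inr, Prod.mk.injEq] at h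
        obtain ⟨h, rfl⟩ := h
        by_cases hd : d ∈ B
        · have hd' : d' ∈ B := hB _ _ (h ▸ he i hd)
          exact (hb i d hd _).trans (hb i' d' hd' _).symm
        · obtain ⟨rfl, rfl⟩ := hinj _ _ _ _ h hd
          rfl)
  have hF1 : ∀ x ∈ L, ∀ ts, F (x, ts) = t0 := fun x hx ts => hF (Sum.inl (⟨x, hx⟩, ts))
  have hF2 : ∀ i d ts, F (e i d, ts) = H i (d, ts) := fun i d ts => hF (Sum.inr ⟨i, (d, ts)⟩)
  rw [← cls_refl, cls_eq]
  refine homotopic_of F F.continuous ?_ ?_ ?_ ?_ hF1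
  · intro x s
    rcases hcov x with hx | ⟨i, d, rfl⟩
    · rw [hF1 x hx, (γ s).2 x hx]
    · rw [hF2, hp]; rfl
  · intro x s
    rcases hcov x with hx | ⟨i, d, rfl⟩
    · rw [hF1 x hx]; rfl
    · rw [hF2, hq]; rfl
  · intro x t
    rcases hcov x with hx | ⟨i, d, rfl⟩
    · rw [hF1 x hx]; rfl
    · rw [hF2, h0]; rfl
  · intro x t
    rcases hcov x with hx | ⟨i, d, rfl⟩
    · rw [hF1 x hx]; rfl
    · rw [hF2, h1]; rfl

theorem hep [CompactSpace K] [T2Space K] [CompactSpace K'] [T2Space K'] {L0 : Set K} (hL0 : L0 ⊆ L)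
    (j : C(K', K)) (hj : Injective j) (hr : ∀ x, x ∈ L ↔ ∃ y, j y = x) (hjm : MapsTo j L' L0)
    (hjm' : ∀ y, j y ∈ L0 → y ∈ L')
    (r : K × I → K × I) (hrc : Continuous r) (hr0 : ∀ x, r (x, 0) = (x, 0))
    (hrL : ∀ x ∈ L, ∀ t, r (x, t) = (x, t)) (hrA : ∀ p, (r p).2 = 0 ∨ (r p).1 ∈ L)
    (φ : G t0 K L0) (hφ : pull t0 j hjm φ = 1) :
    ∃ ψ : G t0 K L, pull t0 (ContinuousMap.id K) (fun _ hx => hL0 hx) ψ = φ := by
  obtain ⟨γ, rfl⟩ := cls_surj φ
  rw [pull_cls, ← cls_refl, cls_eq] at hφ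
  obtain ⟨H, hp, hq, h0, h1, hb⟩ := of_homotopic hφ
  let A : Type := {p : K × I // p.2 = 0 ∨ p.1 ∈ L}
  let q : (K × I) ⊕ (K' × (I × I)) → A × I :=
    Sum.elim (fun z => (⟨(z.1, 0), Or.inl rfl⟩, z.2))
      (fun z => (⟨(j z.1, z.2.1), Or.inr ((hr _).2 ⟨_, rfl⟩)⟩, z.2.2))
  let Φ : (K × I) ⊕ (K' × (I × I)) → T := Sum.elim (fun z => (γ z.2).1 z.1) H
  have hs : Surjective q := by
    rintro ⟨⟨⟨x, t⟩, h | h⟩, s⟩
    · obtain rfl : t = 0 := h
      exact ⟨Sum.inl (x, s), rfl⟩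
    · obtain ⟨y, rfl⟩ := (hr x).1 h
      exact ⟨Sum.inr (y, (t, s)), rfl⟩
  obtain ⟨F, hF⟩ := descend0 q
    (Continuous.sumElim (by fun_prop) (by fun_prop)) hs Φ
    (Continuous.sumElim (cont_ev (by fun_prop) (by fun_prop)) H.continuous) (by
      rintro (⟨x, s⟩ | ⟨y, t, s⟩) (⟨x', s'⟩ | ⟨y', t', s'⟩) h
      · simp only [q, A, Sum.elim_inl, Prod.mk.injEq, Subtype.mk.injEq] at h
        obtain ⟨⟨rfl, -⟩, rfl⟩ := h
        rfl
      · simp only [q, A, Sum.elim_inl, Sum.elim_inr, Prod.mk.injEq, Subtype.mk.injEq] at h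
        obtain ⟨⟨rfl, rfl⟩, rfl⟩ := h
        exact (hp _ _).symm
      · simp only [q, A, Sum.elim_inl, Sum.elim_inr, Prod.mk.injEq, Subtype.mk.injEq] at h
        obtain ⟨⟨rfl, rfl⟩, rfl⟩ := h
        exact hp _ _
      · simp only [q, A, Sum.elim_inr, Prod.mk.injEq, Subtype.mk.injEq] at h
        obtain ⟨⟨h, rfl⟩, rfl⟩ := h
        obtain rfl := hj h
        rfl)
  have hF1 : ∀ x s, F (⟨(x, 0), Or.inl rfl⟩, s) = (γ s).1 x := fun x s => hF (Sum.inl (x, s))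
  have hF2 : ∀ y t s h, F (⟨(j y, t), h⟩, s) = H (y, (t, s)) :=
    fun y t s _ => hF (Sum.inr (y, (t, s)))
  have hF0 : ∀ a : A, F (a, 0) = t0 ∧ F (a, 1) = t0 := by
    rintro ⟨⟨x, t⟩, h | h⟩
    · obtain rfl : t = 0 := h
      rw [hF1, hF1]; simp; rfl
    · obtain ⟨y, rfl⟩ := (hr x).1 h
      rw [hF2, hF2, h0, h1]; exact ⟨rfl, rfl⟩
  let Θ : K × (I × I) → T := fun z => F (⟨r (z.1, z.2.1), hrA _⟩, z.2.2)
  have hΘ : Continuous Θ := by
    refine F.continuous.comp (Continuous.prodMk (Continuous.subtype_mk (by fun_prop) _) ?_)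
    fun_prop
  have hΘL : ∀ y t s, Θ (j y, (t, s)) = H (y, (t, s)) := by
    intro y t s
    have hx : j y ∈ L := (hr _).2 ⟨_, rfl⟩
    rw [← hF2 y t s (Or.inr hx)]
    simp only [Θ]
    congr 2
    exact Subtype.ext (hrL _ hx t)
  refine ⟨cls t0 (mkPath ⟨fun z => Θ (z.1, (1, z.2)), by fun_prop⟩ ?_ _ _ ?_ ?_), ?_⟩
  · intro x hx s
    obtain ⟨y, rfl⟩ := (hr x).1 hx
    show Θ (j y, (1, s)) = t0
    rw [hΘL, hq]; rfl
  · intro x; exact (hF0 _).1
  · intro x; exact (hF0 _).2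
  · rw [pull_cls, cls_eq]
    refine Path.Homotopic.symm (homotopic_of Θ hΘ ?_ ?_ ?_ ?_ ?_)
    · intro x s
      rw [← hF1 x s]
      simp only [Θ]
      congr 2
      exact Subtype.ext (hr0 x)
    · intro x s; rfl
    · intro x t; exact (hF0 _).1
    · intro x t; exact (hF0 _).2
    · rintro x hx ⟨t, s⟩
      obtain ⟨y, rfl⟩ := (hr x).1 (hL0 hx)
      rw [hΘL]; exact hb y (hjm' y hx) _

end Pool.Agent.H418Z.Box
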