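import Pool.Agent.H418Z.BoxCx

set_option autoImplicit false
set_option linter.unusedSectionVars false

namespace Pool.Agent.H418Z.Box

open Topology Set Function

variable {W : Type} [Fintype W] [DecidableEq W]
variable {T : Type} [TopologicalSpace T] {t0 : T}

theorem single_mem {K : Finset W → Prop} {v : W} (h : K {v}) : Pi.single v (1 : ℝ) ∈ Rl K := by
  refine ⟨fun w => ?_, by simp, {v}, h, fun w hw => ?_⟩
  · by_cases h : w = v
    · subst h; simp
    · simp [h]
  · have : w ≠ v := by simpa using hw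
    simp [this]

theorem horn {j : ℕ} (i0 : Fin (j + 2)) (φ : G t0 (R (full (Fin (j + 2)))) (Z _ j))
    (h : ∀ i ≠ i0, ev t0 down_full i.succAbove trivial φ = 1) :
    ev t0 down_full i0.succAbove trivial φ = 1 := by
  let Λ : Finset (Fin (j + 2)) → Prop := fun σ => ∃ i ≠ i0, i ∉ σ
  have hΛ : Down Λ := fun σ τ hs ⟨i, h1, h2⟩ => ⟨i, h1, fun h3 => h2 (hs h3)⟩
  have hsub : ∀ σ, Λ σ → full (Fin (j + 2)) σ := fun _ _ => trivial
  have hle : ∀ (σ : Finset (Fin (j + 2))) i, i ∉ σ → σ ⊆ Finset.univ.erase i := by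
    intro σ i hi w hw
    simp only [Finset.mem_erase, Finset.mem_univ, and_true]
    rintro rfl; exact hi hw
  have h1 : pull t0 (incl hsub) (incl_maps _ j) φ = 1 := by
    refine glue_sk hΛ (fun σ ⟨i, _, hi⟩ => (Finset.card_le_card (hle σ i hi)).trans (by simp)) _ ?_
    rintro σ ⟨i, hi0, hi⟩ hc
    have he : σ = Finset.univ.erase i :=
      Finset.eq_of_subset_of_card_le (hle σ i hi) (by simp [hc])
    rw [ev_incl hΛ down_full, ← h i hi0]
    refine ev_congr _ (Finset.orderEmbOfFin_unique hc (fun x => ?_)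
      (Fin.strictMono_succAbove i)).symm _ _ _
    rw [he]; simp [Fin.succAbove_ne]
  have hv : Pi.single i0 (1 : ℝ) ∈ Rl Λ :=
    single_mem ⟨i0.succAbove 0, Fin.succAbove_ne _ _, by simp [Fin.succAbove_ne]⟩
  let S : Set (R (full (Fin (j + 2)))) := {x | x.1 ∈ Rl Λ}
  have hZS : Z _ j ⊆ S := by
    rintro x ⟨σ, h2, h3⟩
    refine ⟨x.2.1, x.2.2.1, σ, ?_, h3⟩
    by_contra hn
    have : Finset.univ.erase i0 ⊆ σ := by
      intro w hw
      by_contra hw'
      exact hn ⟨w, by simpa using hw, hw'⟩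
    have := Finset.card_le_card this
    simp at this
    omega
  obtain ⟨ψ, rfl⟩ := hep_cx hsub ⟨_, hv⟩ (S := S) (fun _ => Iff.rfl) hZS (incl_maps _ j)
    (fun _ hy => hy) φ h1
  let d : C(R (full (Fin (j + 1))), R (full (Fin (j + 2)))) := pushR i0.succAbove fun _ _ => trivial
  have hd : MapsTo d (Z _ j) S := fun x hx => hZS (pushR_maps _ _ j hx)
  let e : R (full (Fin (j + 2))) := ⟨Pi.single i0 1, single_mem trivial⟩
  have e1 : ev t0 down_full i0.succAbove trivial
      (pull t0 (ContinuousMap.id _) (fun _ hx => hZS hx) ψ) = pull t0 d hd ψ :=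
    pull_comp _ _ _ _ _ _ (fun _ => rfl) ψ
  rw [e1]
  have hmem : ∀ p : R (full (Fin (j + 1))) × II, (∀ w, 0 ≤ (1 - (p.2 : ℝ)) * (d p.1).1 w +
      p.2 * e.1 w) ∧ ∑ w, ((1 - (p.2 : ℝ)) * (d p.1).1 w + p.2 * e.1 w) = 1 := by
    intro p
    refine ⟨fun w => add_nonneg (mul_nonneg (sub_nonneg.2 p.2.2.2) ((d p.1).2.1 w))
      (mul_nonneg p.2.2.1 (e.2.1 w)), ?_⟩
    rw [Finset.sum_add_distrib, ← Finset.mul_sum, ← Finset.mul_sum, (d p.1).2.2.1, e.2.2.1]
    ring
  rw [pull_homotopy d (ContinuousMap.const _ e) hd (fun _ _ => hv)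
    (fun p => ⟨fun w => (1 - (p.2 : ℝ)) * (d p.1).1 w + p.2 * e.1 w, (hmem p).1, (hmem p).2,
      Finset.univ, trivial, by simp⟩) ?_ ?_ ?_ ?_]
  · exact pull_eq_one _ _ (fun _ => hv) ψ
  · refine Continuous.subtype_mk (continuous_pi fun w => ?_) _
    have : Continuous fun p : R (full (Fin (j + 1))) × II => (d p.1).1 w :=
      (continuous_apply w).comp (continuous_subtype_val.comp (d.continuous.comp continuous_fst))
    have h2 : Continuous fun p : R (full (Fin (j + 1))) × II => (p.2 : ℝ) := by fun_prop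
    exact ((continuous_const.sub h2).mul this).add (h2.mul continuous_const)
  · intro x; exact Subtype.ext (funext fun w => by simp)
  · intro x; exact Subtype.ext (funext fun w => by simp)
  · rintro x ⟨σ, h2, h3⟩ t
    obtain ⟨k, hk⟩ : ∃ k, k ∉ σ := by
      by_contra hn
      push Not at hn
      have : σ = Finset.univ := Finset.eq_univ_iff_forall.2 hn
      subst this
      simp at h2
    refine ⟨(hmem (x, t)).1, (hmem (x, t)).2, Finset.univ.erase (i0.succAbove k),
      ⟨i0.succAbove k, Fin.succAbove_ne _ _, by simp⟩, fun w hw => ?_⟩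
    obtain rfl : w = i0.succAbove k := by simpa using hw
    have h4 : (d x).1 (i0.succAbove k) = 0 := by
      rw [← h3 k hk]; exact push_inj Fin.succAbove_right_injective _ _
    simp [h4, e, Fin.succAbove_ne]

/-- degeneracy -/
noncomputable def dg {j : ℕ} (i : Fin (j + 1)) :
    A t0 j →* G t0 (R (full (Fin (j + 2)))) (Z _ j) :=
  pull t0 (pushR i.predAbove fun _ _ => trivial) (pushR_maps _ _ j)

theorem ev_dg {j : ℕ} (i : Fin (j + 1)) (k : Fin (j + 2)) (a : A t0 j) :
    ev t0 down_full k.succAbove trivial (dg i a) =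
      if k = i.castSucc ∨ k = i.succ then a else 1 := by
  unfold dg
  rw [ev_push down_full down_full _ _ _ _ _ rfl trivial]
  split_ifs with h
  · refine ev_id _ (fun m => ?_) a
    rcases h with rfl | rfl
    · simp
    · simp only [comp]
      obtain h | h := m.le_or_gt i
      · rw [Fin.succAbove_succ_of_le _ _ h, Fin.predAbove_castSucc_of_le _ _ h]
      · rw [Fin.succAbove_succ_of_lt _ _ h, Fin.predAbove_succ_of_le _ _ h.le]
  · refine ev_deg _ _ (fun hi => ?_) a
    push Not at h
    obtain ⟨m, hm⟩ := Fin.exists_succAbove_eq h.1.symm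
    obtain ⟨m', hm'⟩ := Fin.exists_succAbove_eq h.2.symm
    have : m = m' := hi (by simp [hm, hm'])
    subst this
    exact (Fin.castSucc_lt_succ (i := i)).ne (hm.symm.trans hm')

theorem A_comm {j : ℕ} (a b : A t0 (j + 1)) : a * b = b * a := by
  have := horn (t0 := t0) (1 : Fin (j + 3)) (dg 0 a * dg 1 b * (dg 0 a)⁻¹ * (dg 1 b)⁻¹) (by
    intro i hi
    simp only [map_mul, map_inv, ev_dg]
    by_cases h0 : i = 0
    · subst h0
      rw [if_neg (c := (0 : Fin (j + 3)) = _ ∨ _) (t := b)]
      · simp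
      · simp [Fin.ext_iff, Nat.mod_eq_of_lt (show 2 < j + 1 + 2 by omega)]
    · rw [if_neg (c := i = _ ∨ _) (t := a)]
      · rw [one_mul, inv_one, mul_one, mul_inv_cancel]
      · simp [h0, hi])
  simp only [map_mul, map_inv, ev_dg] at this
  rw [if_pos (by simp), if_pos (by simp)] at this
  rw [mul_inv_eq_one, mul_inv_eq_iff_eq_mul] at this
  exact this

noncomputable instance (j : ℕ) : CommGroup (A t0 (j + 1)) :=
  { (inferInstance : Group (A t0 (j + 1))) with mul_comm := A_comm }

theorem alt_abstract {B : Type} [AddCommGroup B] {n : ℕ} (S : AddSubgroup (Fin (n + 2) → B))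
    (h1 : ∀ (i : Fin (n + 1)) (a : B),
      (fun k => if k = i.castSucc ∨ k = i.succ then a else 0) ∈ S)
    (h2 : ∀ c ∈ S, (∀ k ≠ 0, c k = 0) → c 0 = 0) :
    ∀ c ∈ S, ∑ k : Fin (n + 2), (-1 : ℤ) ^ (k : ℕ) • c k = 0 := by
  have key : ∀ m : ℕ, ∀ c ∈ S, (∀ k : Fin (n + 2), m < k → c k = 0) →
      ∑ k : Fin (n + 2), (-1 : ℤ) ^ (k : ℕ) • c k = 0 := by
    intro m
    induction m with
    | zero =>
      intro c hc h
      have h3 : ∀ k ≠ 0, c k = 0 := fun k hk => h k (Nat.pos_of_ne_zero fun h => hk (Fin.ext h))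
      refine Finset.sum_eq_zero fun k _ => ?_
      by_cases hk : k = 0
      · subst hk; rw [h2 c hc h3, smul_zero]
      · rw [h3 k hk, smul_zero]
    | succ m ih =>
      intro c hc h
      by_cases hm : m < n + 1
      · let i : Fin (n + 1) := ⟨m, hm⟩
        have h3 := ih _ (S.sub_mem hc (h1 i (c i.succ))) (by
          intro k hk
          simp only [Pi.sub_apply]
          by_cases hk' : k = i.succ
          · simp [hk']
          · have h4 : k ≠ i.castSucc := by
              intro h4; subst h4; simp [i] at hk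
            have h5 : (k : ℕ) ≠ m + 1 := fun h5 => hk' (Fin.ext h5)
            rw [h k (by omega)]; simp [hk', h4])
        simp only [Pi.sub_apply, smul_sub, Finset.sum_sub_distrib] at h3
        have h4 : ∑ k : Fin (n + 2), (-1 : ℤ) ^ (k : ℕ) •
            (if k = i.castSucc ∨ k = i.succ then c i.succ else 0) = 0 := by
          have hne : i.castSucc ≠ i.succ := (Fin.castSucc_lt_succ (i := i)).ne
          rw [Finset.sum_eq_add i.castSucc i.succ hne]
          · simp [pow_succ]
          · intro k _ hk; simp [hk.1, hk.2]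
          · simp
          · simp
        rwa [h4, sub_zero] at h3
      · exact ih c hc fun k hk => by have := k.2; omega
  intro c hc
  exact key (n + 2) c hc fun k hk => by have := k.2; omega

theorem hal_std {j : ℕ} (φ : G t0 (R (full (Fin (j + 3)))) (Z _ (j + 1))) :
    ∑ k : Fin (j + 3), (-1 : ℤ) ^ (k : ℕ) •
      Additive.ofMul (ev t0 down_full k.succAbove trivial φ) = 0 := by
  let S : AddSubgroup (Fin (j + 3) → Additive (A t0 (j + 1))) :=
    { carrier := {c | ∃ φ : G t0 (R (full (Fin (j + 3)))) (Z _ (j + 1)),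
        ∀ k, c k = Additive.ofMul (ev t0 down_full k.succAbove trivial φ)}
      zero_mem' := ⟨1, fun k => by simp⟩
      add_mem' := by
        rintro a b ⟨φ, h1⟩ ⟨ψ, h2⟩
        exact ⟨φ * ψ, fun k => by simp [h1, h2]⟩
      neg_mem' := by
        rintro a ⟨φ, h1⟩
        exact ⟨φ⁻¹, fun k => by simp [h1]⟩ }
  refine alt_abstract S ?_ ?_ _ ⟨φ, fun _ => rfl⟩
  · intro i a
    refine ⟨dg i a.toMul, fun k => ?_⟩
    rw [ev_dg]
    beta_reduce
    split_ifs <;> rfl
  · rintro c ⟨ψ, h1⟩ h2
    rw [h1, horn 0 ψ fun i hi => by simpa [h1] using h2 i hi]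
    rfl

theorem hal {K : Finset W → Prop} (hK : Down K) {j : ℕ} (g : Fin (j + 3) → W)
    (hg : K (Finset.univ.image g)) (φ : G t0 (R K) (Z K (j + 1)))
    (c : Fin (j + 3) → Additive (A t0 (j + 1)))
    (hc : ∀ k h, c k = Additive.ofMul (ev t0 hK (g ∘ k.succAbove) h φ)) :
    ∑ k : Fin (j + 3), (-1 : ℤ) ^ (k : ℕ) • c k = 0 := by
  have hf : ∀ σ, full (Fin (j + 3)) σ → K (σ.image g) := fun σ _ =>
    hK (Finset.image_subset_image (Finset.subset_univ σ)) hg
  rw [← hal_std (pull t0 (pushR g hf) (pushR_maps _ _ _) φ)]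
  refine Finset.sum_congr rfl fun k _ => ?_
  have h : K (Finset.univ.image (g ∘ k.succAbove)) := by
    rw [← Finset.image_image]; exact hf _ trivial
  rw [hc k h, ev_push down_full hK g hf _ _ _ rfl h]

/-- the sign rule -/
theorem ev_cycle {j : ℕ} (p : Fin (j + 2)) (a : A t0 (j + 1)) :
    Additive.ofMul (ev t0 down_full p.cycleRange trivial a) =
      (-1 : ℤ) ^ (p : ℕ) • Additive.ofMul a := by
  have := hal down_full (Fin.cons 0 p.cycleRange : Fin (j + 3) → Fin (j + 2)) trivial a
    (fun k => Additive.ofMul (ev t0 down_full _ trivial a)) (fun _ _ => rfl)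
  rw [Finset.sum_eq_add 0 p.succ (Fin.succ_ne_zero p).symm] at this
  · rw [ev_congr down_full (g' := p.cycleRange) (by funext k; simp) _ trivial,
      ev_id (_ ∘ p.succ.succAbove) (by
        intro k
        refine Fin.cases ?_ (fun k => ?_) k
        · simp
        · simp)] at this
    simp only [Fin.val_zero, pow_zero, one_smul, Fin.val_succ, pow_succ, mul_neg, mul_one,
      neg_smul] at this
    exact add_neg_eq_zero.1 this
  · intro k _ hk
    rw [ev_deg]
    · simp
    · intro hi
      obtain ⟨m, hm⟩ := Fin.exists_succAbove_eq hk.1.symm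
      obtain ⟨m', hm'⟩ := Fin.exists_succAbove_eq hk.2.symm
      have : m = m' := hi (by simp [hm, hm'])
      subst this
      exact Fin.succ_ne_zero p (hm'.symm.trans hm)
  · simp
  · simp

end Pool.Agent.H418Z.Box
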