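import Pool.Agent.H418Z.BoxCx

set_option autoImplicit false
set_option linter.unusedSectionVars false

namespace Pool.Agent.H418Z.Box

open Function

section general

variable {W : Type} [Fintype W] [DecidableEq W] {K : Finset W → Prop}

theorem bd_add (c c' : Finset W → ZMod 2) : bd (c + c') = bd c + bd c' := by
  funext τ; simp [bd, Finset.sum_add_distrib]

theorem bd_bd (c : Finset W → ZMod 2) : bd (bd c) = 0 := by
  funext τ
  have h2 : ∀ w ∈ τᶜ, bd c (insert w τ) =
      ∑ w' ∈ τᶜ, if w' ≠ w then c (insert w' (insert w τ)) else 0 := by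
    intro w _
    rw [← Finset.sum_filter]
    unfold bd
    congr 1
    ext z; simp [and_comm]
  change ∑ w ∈ τᶜ, bd c (insert w τ) = 0
  rw [Finset.sum_congr rfl h2, ← Finset.sum_product']
  refine Finset.sum_involution (fun p _ => p.swap) ?_ ?_ ?_ ?_
  · intro p _
    simp only [Prod.fst_swap, Prod.snd_swap, ne_comm (a := p.1), Finset.insert_comm p.1]
    exact CharTwo.add_self_eq_zero _
  · intro p _ h3 h4
    have : p.2 = p.1 := congrArg Prod.fst h4
    simp [this] at h3
  · intro p hp
    simp only [Finset.mem_product] at hp ⊢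
    exact ⟨hp.2, hp.1⟩
  · intro p _; rfl

theorem IsChain.add {m : ℕ} {c c' : Finset W → ZMod 2} (h : IsChain K m c) (h' : IsChain K m c') :
    IsChain K m (c + c') := by
  intro σ hσ
  by_cases h1 : c σ = 0
  · exact h' σ (by simpa [h1] using hσ)
  · exact h σ h1

theorem IsChain.mono {K' : Finset W → Prop} {m : ℕ} {c : Finset W → ZMod 2} (h : IsChain K m c)
    (hK : ∀ σ, K σ → K' σ) : IsChain K' m c := fun σ hσ => ⟨hK σ (h σ hσ).1, (h σ hσ).2⟩

theorem IsChain.bd (hK : Down K) {m : ℕ} {c : Finset W → ZMod 2} (h : IsChain K (m + 1) c) :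
    IsChain K m (bd c) := by
  intro τ hτ
  obtain ⟨v, hv, h1⟩ := Finset.exists_ne_zero_of_sum_ne_zero hτ
  obtain ⟨h2, h3⟩ := h _ h1
  rw [Finset.card_insert_of_notMem (by simpa using hv)] at h3
  exact ⟨hK (Finset.subset_insert _ _) h2, by omega⟩

/-- coning lemma -/
theorem cone (P : W → Prop) [DecidablePred P] (v : Finset W → W) (r m : ℕ)
    (hv : ∀ B, ¬ P (v B))
    (hKv : ∀ σ, K σ → (σ.filter P).card = r → K (insert (v (σ.filter P)) σ))
    {z : Finset W → ZMod 2} (hz : IsChain K m z) (hr : ∀ σ, z σ ≠ 0 → (σ.filter P).card ≤ r)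
    (hb : ∀ τ, (τ.filter P).card = r → bd z τ = 0) :
    ∃ b, IsChain K (m + 1) b ∧ (∀ σ, b σ ≠ 0 → (σ.filter P).card = r) ∧
      ∀ τ, (z + bd b) τ ≠ 0 → (τ.filter P).card < r := by
  let b : Finset W → ZMod 2 := fun ρ =>
    if (ρ.filter P).card = r ∧ v (ρ.filter P) ∈ ρ then z (ρ.erase (v (ρ.filter P))) else 0
  have hfe : ∀ (ρ : Finset W) w, ¬ P w → (ρ.erase w).filter P = ρ.filter P := by
    intro ρ w hw
    ext x; simp only [Finset.mem_filter, Finset.mem_erase]
    exact ⟨fun h => ⟨h.1.2, h.2⟩, fun h => ⟨⟨fun h' => hw (h' ▸ h.2), h.1⟩, h.2⟩⟩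
  have hfi : ∀ (ρ : Finset W) w, ¬ P w → (insert w ρ).filter P = ρ.filter P := by
    intro ρ w hw
    rw [Finset.filter_insert, if_neg hw]
  have hfi' : ∀ (ρ : Finset W) w, P w → w ∉ ρ →
      ((insert w ρ).filter P).card = (ρ.filter P).card + 1 := by
    intro ρ w hw hw'
    rw [Finset.filter_insert, if_pos hw, Finset.card_insert_of_notMem (by simp [hw'])]
  have hbr : ∀ σ, b σ ≠ 0 → (σ.filter P).card = r := by
    intro σ h
    simp only [b] at h
    split_ifs at h with h1
    · exact h1.1
    · exact absurd rfl h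
  refine ⟨b, fun ρ h => ?_, hbr, fun τ h => ?_⟩
  · simp only [b] at h
    split_ifs at h with h1
    · obtain ⟨h2, h3⟩ := hz _ h
      have h4 := hKv _ h2 (by rw [hfe _ _ (hv _)]; exact h1.1)
      rw [hfe _ _ (hv _), Finset.insert_erase h1.2] at h4
      rw [Finset.card_erase_of_mem h1.2] at h3
      have := Finset.card_pos.2 ⟨_, h1.2⟩
      exact ⟨h4, by omega⟩
    · exact absurd rfl h
  · by_contra hn
    apply h
    rcases (not_lt.1 hn).lt_or_eq with h1 | h1
    · have h2 : z τ = 0 := by
        by_contra h2; have := hr τ h2; omega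
      have h3 : bd b τ = 0 := Finset.sum_eq_zero fun w _ => by
        by_contra h3
        have h4 := hbr _ h3
        have := Finset.card_le_card (Finset.filter_subset_filter P (Finset.subset_insert w τ))
        omega
      simp [h2, h3]
    · have hPw : ∀ w ∈ τᶜ, P w → b (insert w τ) = 0 := by
        intro w hw hP
        by_contra h3
        have h4 := hbr _ h3
        rw [hfi' _ _ hP (by simpa using hw)] at h4
        omega
      suffices h2 : bd b τ = z τ by
        simp only [Pi.add_apply, h2]; exact CharTwo.add_self_eq_zero _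
      by_cases h2 : v (τ.filter P) ∈ τ
      · have h3 := hb (τ.erase (v (τ.filter P))) (by rw [hfe _ _ (hv _)]; exact h1.symm)
        unfold bd at h3 ⊢
        rw [Finset.compl_erase, Finset.sum_insert (by simpa using h2), Finset.insert_erase h2,
          CharTwo.add_eq_zero] at h3
        rw [h3]
        refine Finset.sum_congr rfl fun w hw => ?_
        by_cases hP : P w
        · rw [hPw w hw hP]
          by_contra h4
          have h5 := hr _ (Ne.symm h4)
          rw [hfi' _ _ hP (fun h => by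
            have := Finset.mem_of_mem_erase h; simp at hw; exact hw this), hfe _ _ (hv _)] at h5
          omega
        · simp only [b, hfi _ _ hP]
          rw [if_pos ⟨h1.symm, Finset.mem_insert_of_mem h2⟩, Finset.erase_insert_of_ne]
          rintro rfl
          simp at hw; exact hw h2
      · unfold bd
        rw [Finset.sum_eq_single (v (τ.filter P))]
        · simp only [b, hfi _ _ (hv _)]
          rw [if_pos ⟨h1.symm, Finset.mem_insert_self _ _⟩, Finset.erase_insert h2]
        · intro w hw hne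
          by_cases hP : P w
          · exact hPw w hw hP
          · simp only [b, hfi _ _ hP]
            rw [if_neg]
            rintro ⟨-, h3⟩
            rcases Finset.mem_insert.1 h3 with h3 | h3
            · exact hne h3.symm
            · exact h2 h3
        · intro h3; simp at h3; exact absurd h3 h2

theorem push_down (hK : Down K) (P : W → Prop) [DecidablePred P] (v : Finset W → W) (m : ℕ)
    (hv : ∀ B, ¬ P (v B))
    (hKv : ∀ σ, K σ → 0 < (σ.filter P).card → K (insert (v (σ.filter P)) σ)) (r : ℕ) :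
    ∀ z : Finset W → ZMod 2, IsChain K m z → (∀ σ, z σ ≠ 0 → (σ.filter P).card ≤ r) → bd z = 0 →
      ∃ b, IsChain K (m + 1) b ∧ ∀ τ, (z + bd b) τ ≠ 0 → (τ.filter P).card = 0 := by
  induction r with
  | zero =>
    intro z _ hr _
    refine ⟨0, fun _ h => absurd rfl h, fun τ h => ?_⟩
    have : bd (0 : Finset W → ZMod 2) = 0 := by funext τ; simp [bd]
    rw [this, add_zero] at h
    exact Nat.le_zero.1 (hr τ h)
  | succ r ih =>
    intro z hz hr hb
    obtain ⟨b, h1, -, h3⟩ := cone P v (r + 1) m hv (fun σ h h' => hKv σ h (by omega)) hz hr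
      (fun τ _ => congrFun hb τ)
    obtain ⟨b', h4, h5⟩ := ih (z + bd b) (hz.add (h1.bd hK)) (fun σ h => Nat.lt_succ_iff.1 (h3 σ h))
      (by rw [bd_add, bd_bd, hb, add_zero])
    exact ⟨b + b', h1.add h4, by rwa [bd_add, ← add_assoc]⟩

end general

variable {V : Type} [Fintype V] [DecidableEq V] (G : SimpleGraph V)

/-- the box complex with the common neighbour condition -/
def BG (σ : Finset (V × Bool)) : Prop :=
  B0 G σ ∧ ∀ ε : Bool, ∃ a, ∀ b, (b, ε) ∈ σ → G.Adj a b

variable {G}

theorem down_B0 : Down (B0 G) := fun _ _ h h' a b ha hb => h' a b (h ha) (h hb)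

theorem down_BG : Down (BG G) := fun _ _ h h' =>
  ⟨down_B0 h h'.1, fun ε => (h'.2 ε).imp fun _ ha b hb => ha b (h hb)⟩

theorem B0_adj {σ : Finset (V × Bool)} (h : B0 G σ) {a b : V} {ε : Bool} (ha : (a, !ε) ∈ σ)
    (hb : (b, ε) ∈ σ) : G.Adj a b := by
  cases ε
  · exact (h b a hb ha).symm
  · exact h a b ha hb

theorem B0_of {σ : Finset (V × Bool)} (ε : Bool)
    (h : ∀ a b, (a, !ε) ∈ σ → (b, ε) ∈ σ → G.Adj a b) : B0 G σ := by
  cases ε
  · exact fun a b ha hb => (h b a hb ha).symm
  · exact h

theorem BG_of_mixed {σ : Finset (V × Bool)} (h : B0 G σ) {a b : V} {ε : Bool} (ha : (a, !ε) ∈ σ)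
    (hb : (b, ε) ∈ σ) : BG G σ := by
  refine ⟨h, fun ε' => ?_⟩
  by_cases he : ε' = ε
  · subst he; exact ⟨a, fun c hc => B0_adj h ha hc⟩
  · obtain rfl : ε' = !ε := by cases ε <;> cases ε' <;> simp_all
    exact ⟨b, fun c hc => (B0_adj h hc hb).symm⟩

theorem side (v0 : V) (ε : Bool) {m : ℕ} {z : Finset (V × Bool) → ZMod 2}
    (hz : IsChain (BG G) m z) (hb : bd z = 0) :
    ∃ b c, IsChain (BG G) (m + 1) b ∧ IsChain (B0 G) (m + 1) c ∧
      (∀ σ, c σ ≠ 0 → ∀ p ∈ σ, p.2 ≠ ε) ∧ bd c = z + bd b := by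
  classical
  let v : Finset (V × Bool) → V × Bool := fun B =>
    (if h : ∃ a, ∀ b, (b, ε) ∈ B → G.Adj a b then h.choose else v0, !ε)
  obtain ⟨b, h1, h2⟩ := push_down down_BG (fun p : V × Bool => p.2 = ε) v m
    (fun B => by simp [v]) (by
      intro σ hσ hc
      obtain ⟨⟨b0, ε'⟩, hb0⟩ := Finset.card_pos.1 hc
      obtain ⟨hb1, rfl : ε' = ε⟩ := Finset.mem_filter.1 hb0
      have h : ∃ a, ∀ b, (b, ε') ∈ σ.filter (fun p => p.2 = ε') → G.Adj a b :=
        (hσ.2 ε').imp fun a ha b hb => ha b (Finset.mem_filter.1 hb).1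
      have h' := h.choose_spec
      simp only [v, dif_pos h]
      refine BG_of_mixed (B0_of ε' fun a b ha hb => ?_) (Finset.mem_insert_self _ _)
        (Finset.mem_insert_of_mem hb1)
      have hb' : (b, ε') ∈ σ := by simpa using hb
      rcases Finset.mem_insert.1 ha with ha | ha
      · rw [show a = h.choose from congrArg Prod.fst ha]
        exact h' b (Finset.mem_filter.2 ⟨hb', rfl⟩)
      · exact B0_adj hσ.1 ha hb') (Fintype.card (V × Bool)) z hz
    (fun σ _ => Finset.card_le_univ _) hb
  obtain ⟨c, h3, h4, h5⟩ := cone (K := B0 G) (fun p : V × Bool => p.2 = ε) (fun _ => (v0, !ε)) 0 m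
    (fun B => by simp) (by
      intro σ _ hc
      refine B0_of ε fun a b _ hb => ?_
      have hb' : (b, ε) ∈ σ := by simpa using hb
      rw [Finset.card_eq_zero, Finset.filter_eq_empty_iff] at hc
      exact absurd rfl (hc hb')) ((hz.add (h1.bd down_BG)).mono fun _ h => h.1)
    (fun σ h => (h2 σ h).le) (fun τ _ => by rw [bd_add, bd_bd, hb, add_zero]; rfl)
  refine ⟨b, c, h1, h3, fun σ h => ?_, funext fun τ => ?_⟩
  · have := h4 σ h
    rwa [Finset.card_eq_zero, Finset.filter_eq_empty_iff] at this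
  · have : (z + bd b + bd c) τ = 0 := by
      by_contra h; exact Nat.not_lt_zero _ (h5 τ h)
    exact (CharTwo.add_eq_zero.1 this).symm

theorem acyc_BG (v0 : V) {m : ℕ} (h : Acyc (B0 G) (m + 1)) : Acyc (BG G) m := by
  classical
  intro z hz hb
  obtain ⟨b1, c1, hb1, hc1, hp1, he1⟩ := side v0 true hz hb
  obtain ⟨b2, c2, hb2, hc2, hp2, he2⟩ := side v0 false hz hb
  have h2 : ∀ x : Finset (V × Bool) → ZMod 2, x + x = 0 := fun x =>
    funext fun _ => CharTwo.add_self_eq_zero _
  obtain ⟨e, he, hbe⟩ := h (b1 + c1 + (b2 + c2))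
    (((hb1.mono fun _ h => h.1).add hc1).add ((hb2.mono fun _ h => h.1).add hc2)) (by
      rw [bd_add, bd_add, bd_add, he1, he2]
      linear_combination h2 z + h2 (bd b1) + h2 (bd b2))
  let e1 : Finset (V × Bool) → ZMod 2 := fun σ => if ∀ p ∈ σ, p.2 ≠ true then e σ else 0
  have he1c : IsChain (B0 G) (m + 2) e1 := by
    intro σ hσ
    simp only [e1] at hσ
    split_ifs at hσ
    · exact he σ hσ
    · exact absurd rfl hσ
  have hy : IsChain (BG G) (m + 1) (c1 + bd e1) := by
    intro σ hσ
    have hc := ((hc1.add (he1c.bd down_B0)) σ hσ).2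
    refine ⟨?_, hc⟩
    by_contra hn
    apply hσ
    by_cases hp : ∀ p ∈ σ, p.2 ≠ true
    · obtain ⟨⟨a, ε⟩, ha⟩ : σ.Nonempty := Finset.card_pos.1 (by omega)
      obtain rfl : ε = false := by simpa using hp _ ha
      have e1' : b1 σ = 0 := by by_contra h; exact hn (hb1 σ h).1
      have e2' : b2 σ = 0 := by by_contra h; exact hn (hb2 σ h).1
      have e3' : c2 σ = 0 := by by_contra h; exact hp2 σ h _ ha rfl
      have e4 : bd e1 σ = bd e σ := by
        refine Finset.sum_congr rfl fun w _ => ?_
        simp only [e1]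
        split_ifs with h3
        · rfl
        · by_contra h4
          obtain ⟨b, ε⟩ := w
          have : ε = true := by
            by_contra h5
            refine h3 fun p hp' => ?_
            rcases Finset.mem_insert.1 hp' with rfl | hp'
            · exact h5
            · exact hp p hp'
          subst this
          exact hn (down_BG (Finset.subset_insert _ _) (BG_of_mixed (ε := true)
            (he _ (Ne.symm h4)).1 (Finset.mem_insert_of_mem ha) (Finset.mem_insert_self _ _)))
      simp only [Pi.add_apply, e4, hbe, e1', e2', e3', zero_add, add_zero]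
      exact CharTwo.add_self_eq_zero _
    · have e1' : c1 σ = 0 := by by_contra h; exact hp (hp1 σ h)
      have e2' : bd e1 σ = 0 := Finset.sum_eq_zero fun w _ =>
        if_neg fun h => hp fun p hp' => h p (Finset.mem_insert_of_mem hp')
      simp [e1', e2']
  refine ⟨b1 + (c1 + bd e1), hb1.add hy, ?_⟩
  rw [bd_add, bd_add, bd_bd, he1]
  linear_combination h2 (bd b1)

end Pool.Agent.H418Z.Box
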