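import Pool.Agent.H418Z.BoxSph
import Pool.Agent.H418Z.BoxHom

set_option autoImplicit false
set_option linter.unusedSectionVars false

namespace Pool.Agent.H418Z.Box

open Topology Set Function

variable {V : Type} [Fintype V] [DecidableEq V] {G : SimpleGraph V}

def flip (p : V × Bool) : V × Bool := (p.1, !p.2)

theorem flip_inv : Involutive (flip : V × Bool → V × Bool) := fun p => by simp [flip]

theorem mem_flip {σ : Finset (V × Bool)} {a : V} {ε : Bool} :
    (a, ε) ∈ σ.image flip ↔ (a, !ε) ∈ σ := by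
  simp only [Finset.mem_image, flip, Prod.mk.injEq, Prod.exists]
  constructor
  · rintro ⟨b, ε', h, rfl, rfl⟩; simpa using h
  · intro h; exact ⟨a, !ε, h, rfl, by simp⟩

theorem inv_BG : Inv flip (BG G) := by
  intro σ h
  refine ⟨fun a b ha hb => ?_, fun ε => (h.2 (!ε)).imp fun a ha b hb => ha b (mem_flip.1 hb)⟩
  exact (h.1 b a (mem_flip.1 hb) (mem_flip.1 ha)).symm

/-- the pull towards side `ε` -/
def fav (s : ℝ) (ε : Bool) : ℝ := max (if ε then -s else s) 0

open Classical in
/-- unnormalised weights -/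
noncomputable def wt (G : SimpleGraph V) (v0 : V) (p : ((V × Bool) → ℝ) × ℝ) (w : V × Bool) : ℝ :=
  max (p.1 w - 2 * fav p.2 (!w.2)) 0 +
    (1 - fav p.2 w.2) * max (2 * fav p.2 w.2 - ∑ b, if G.Adj w.1 b then 0 else p.1 (b, !w.2)) 0 +
    if w.1 = v0 then max (2 * fav p.2 w.2 - 1) 0 else 0

theorem continuous_wt (v0 : V) (w : V × Bool) : Continuous fun p => wt G v0 p w := by
  have h : ∀ ε, Continuous fun p : ((V × Bool) → ℝ) × ℝ => fav p.2 ε := fun ε => by
    unfold fav; split_ifs <;> fun_prop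
  unfold wt
  refine Continuous.add (Continuous.add (by fun_prop) (Continuous.mul (by fun_prop)
    (Continuous.max (Continuous.sub (by fun_prop) (continuous_finsetSum _ fun b _ => ?_))
      continuous_const))) ?_
  · split_ifs <;> fun_prop
  · split_ifs <;> fun_prop

theorem wt_flip (v0 : V) (p : ((V × Bool) → ℝ) × ℝ) (w : V × Bool) :
    wt G v0 (fun w => p.1 (flip w), -p.2) w = wt G v0 p (flip w) := by
  have h : ∀ ε, fav (-p.2) ε = fav p.2 (!ε) := fun ε => by cases ε <;> simp [fav]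
  simp only [wt, h, flip]
  rfl

theorem fav_nonneg (s : ℝ) (ε : Bool) : 0 ≤ fav s ε := le_max_right _ _

theorem fav_le (s : ℝ) (ε : Bool) : fav s ε ≤ |s| := by
  refine max_le ?_ (abs_nonneg _)
  split_ifs
  · exact neg_le_abs s
  · exact le_abs_self s

theorem exists_side (s : ℝ) : ∃ ε, fav s ε = |s| ∧ fav s (!ε) = 0 := by
  rcases le_total 0 s with h | h
  · exact ⟨false, by simp [fav, h, abs_of_nonneg h]⟩
  · exact ⟨true, by simp [fav, h, abs_of_nonpos h]⟩

theorem wt_spec (v0 : V) (p : Su (BG G)) : (∀ w, 0 ≤ wt G v0 p.1 w) ∧ 0 < ∑ w, wt G v0 p.1 w ∧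
    ∃ σ, B0 G σ ∧ ∀ w ∉ σ, wt G v0 p.1 w = 0 := by
  classical
  obtain ⟨⟨x, s⟩, hx0, hx1, σ, hσ, hxσ⟩ := p
  simp only at hx0 hx1 hxσ ⊢
  have hsum : 0 ≤ ∑ w, x w := Finset.sum_nonneg fun w _ => hx0 w
  have hs1 : |s| ≤ 1 := by linarith
  have hS : ∀ a ε, 0 ≤ ∑ b, if G.Adj a b then 0 else x (b, ε) := fun a ε =>
    Finset.sum_nonneg fun b _ => by
      split_ifs
      · exact le_rfl
      · exact hx0 _
  have t1 : ∀ w : V × Bool, 0 ≤ max (x w - 2 * fav s (!w.2)) 0 := fun w => le_max_right _ _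
  have t2 : ∀ w : V × Bool, 0 ≤ (1 - fav s w.2) *
      max (2 * fav s w.2 - ∑ b, if G.Adj w.1 b then 0 else x (b, !w.2)) 0 := fun w =>
    mul_nonneg (by linarith [fav_le s w.2]) (le_max_right _ _)
  have t3 : ∀ w : V × Bool, 0 ≤ if w.1 = v0 then max (2 * fav s w.2 - 1) 0 else 0 := fun w => by
    split_ifs
    · exact le_max_right _ _
    · exact le_rfl
  have h0 : ∀ w, 0 ≤ wt G v0 (x, s) w := fun w => add_nonneg (add_nonneg (t1 w) (t2 w)) (t3 w)
  obtain ⟨ε, he1, he2⟩ := exists_side s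
  refine ⟨h0, ?_, Finset.univ.filter fun w => wt G v0 (x, s) w ≠ 0, B0_of (!ε) ?_, by simp⟩
  · suffices h : ∃ w, 0 < wt G v0 (x, s) w by
      obtain ⟨w, hw⟩ := h
      exact Finset.sum_pos' (fun w _ => h0 w) ⟨w, Finset.mem_univ _, hw⟩
    rcases hs1.lt_or_eq with h1 | h1
    · rcases (abs_nonneg s).lt_or_eq with h2 | h2
      · obtain ⟨a, ha⟩ := hσ.2 (!ε)
        refine ⟨(a, ε), ?_⟩
        have h3 : (∑ b, if G.Adj a b then 0 else x (b, !ε)) = 0 :=
          Finset.sum_eq_zero fun b _ => by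
            split_ifs with h
            · rfl
            · exact hxσ _ fun h' => h (ha b h')
        have h4 : 0 < (1 - fav s ε) *
            max (2 * fav s ε - ∑ b, if G.Adj a b then 0 else x (b, !ε)) 0 := by
          rw [h3, he1]
          exact mul_pos (by linarith) (lt_max_of_lt_left (by linarith))
        exact add_pos_of_pos_of_nonneg (add_pos_of_nonneg_of_pos (t1 (a, ε)) h4) (t3 (a, ε))
      · have h3 : ∑ w, x w ≠ 0 := by linarith
        obtain ⟨w, -, hw⟩ := Finset.exists_ne_zero_of_sum_ne_zero h3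
        refine ⟨w, add_pos_of_pos_of_nonneg (add_pos_of_pos_of_nonneg ?_ (t2 w)) (t3 w)⟩
        have := fav_le s (!w.2)
        exact lt_max_of_lt_left (by
          have := lt_of_le_of_ne (hx0 w) (Ne.symm hw); simp only; linarith)
    · refine ⟨(v0, ε), add_pos_of_nonneg_of_pos (add_nonneg (t1 _) (t2 _)) ?_⟩
      simp only [if_true, he1, h1]
      norm_num
  · intro a b ha hb
    simp only [Bool.not_not, Finset.mem_filter, Finset.mem_univ, true_and] at ha hb
    have hb1 : 2 * |s| < x (b, !ε) := by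
      by_contra h
      apply hb
      simp only [wt, Bool.not_not, he1, he2, mul_zero, zero_sub]
      rw [max_eq_right (by linarith), max_eq_right (by linarith [hS b ε]),
        max_eq_right (by norm_num)]
      simp
    have hb2 : x (b, !ε) ≤ ∑ w, x w :=
      Finset.single_le_sum (fun w _ => hx0 w) (Finset.mem_univ _)
    have hb3 : (b, !ε) ∈ σ := by
      by_contra h; rw [hxσ _ h] at hb1; linarith [abs_nonneg s]
    by_contra hn
    apply ha
    have h1 : x (a, ε) = 0 := hxσ _ fun h => hn (B0_adj hσ.1 (ε := !ε) (by simpa using h) hb3)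
    have h2 : x (b, !ε) ≤ ∑ b, if G.Adj a b then 0 else x (b, !ε) := by
      have := Finset.single_le_sum (f := fun b => if G.Adj a b then 0 else x (b, !ε))
        (fun b _ => by
          split_ifs
          · exact le_rfl
          · exact hx0 _) (Finset.mem_univ b)
      simpa [hn] using this
    simp only [wt, he1, he2, h1]
    rw [max_eq_right (by norm_num), max_eq_right (by linarith),
      max_eq_right (by linarith [abs_nonneg s])]
    simp

theorem main (n : ℕ) (h : ∀ m ≤ n, Acyc (B0 G) m) :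
    ∃ f : C(Sph n, Rl (B0 G)), ∀ x, (f (neg x)).1 = swapPt (f x).1 := by
  let _ : LinearOrder (V × Bool) :=
    LinearOrder.lift' (Fintype.equivFin (V × Bool)) (Fintype.equivFin (V × Bool)).injective
  obtain ⟨⟨v0, -⟩, -⟩ := vertex_of_acyc (X := B0 G) (fun _ _ h => by simp at h) (h 0 n.zero_le)
  obtain ⟨f, hf⟩ := sphere_maps (X := BG G) down_BG flip_inv inv_BG
    ⟨fun _ _ h => by simp at h, fun _ => ⟨v0, fun _ h => by simp at h⟩⟩ n
    fun m hm => acyc_BG v0 (h (m + 1) hm)
  let g : C(Sph n, Su (BG G)) := (inclS (sk_le _ n)).comp f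
  have hg : ∀ x, (g (neg x)).1 = (fun w => (g x).1.1 (flip w), -(g x).1.2) := fun x =>
    congrArg Subtype.val (hf x)
  refine ⟨⟨fun x => ⟨fun w => wt G v0 (g x).1 w / ∑ w, wt G v0 (g x).1 w,
    fun w => div_nonneg ((wt_spec v0 _).1 w) (wt_spec v0 _).2.1.le, ?_, ?_⟩, ?_⟩, fun x => ?_⟩
  · rw [← Finset.sum_div, div_self (wt_spec v0 _).2.1.ne']
  · obtain ⟨σ, h1, h2⟩ := (wt_spec v0 (g x)).2.2
    exact ⟨σ, h1, fun w hw => by simp [h2 w hw]⟩
  · have hc : ∀ w, Continuous fun x => wt G v0 (g x).1 w := fun w =>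
      (continuous_wt v0 w).comp (continuous_subtype_val.comp g.continuous)
    exact Continuous.subtype_mk (continuous_pi fun w => (hc w).div
      (continuous_finsetSum _ fun w _ => hc w) fun x => (wt_spec v0 _).2.1.ne') _
  · funext w
    simp only [ContinuousMap.coe_mk, swapPt, hg, wt_flip]
    rw [sum_tau flip_inv (wt G v0 (g x).1)]
    rfl

end Pool.Agent.H418Z.Box
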