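import Pool.Agent.H418Z.BoxSusp

set_option autoImplicit false
set_option linter.unusedSectionVars false

namespace Pool.Agent.H418Z.Box

open Topology Set Function

def SphS (n : ℕ) : Set (Fin (n + 1) → ℝ) := {x | ∑ i, x i ^ 2 = 1}

abbrev Sph (n : ℕ) : Type := ↥(SphS n)

instance (n : ℕ) : CompactSpace (Sph n) := by
  refine isCompact_iff_compactSpace.mp (Metric.isCompact_of_isClosed_isBounded ?_ ?_)
  · exact isClosed_eq (by fun_prop) continuous_const
  · refine (Metric.isBounded_closedBall (x := 0) (r := 1)).subset fun x hx => ?_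
    rw [mem_closedBall_zero_iff, pi_norm_le_iff_of_nonneg zero_le_one]
    intro i
    have h1 : x i ^ 2 ≤ ∑ i, x i ^ 2 :=
      Finset.single_le_sum (f := fun i => x i ^ 2) (fun i _ => sq_nonneg _) (Finset.mem_univ i)
    rw [show ∑ i, x i ^ 2 = 1 from hx] at h1
    exact abs_le_one_iff_mul_self_le_one.2 (by nlinarith)

def neg {n : ℕ} (x : Sph n) : Sph n := ⟨-x.1, by
  have : ∑ i, x.1 i ^ 2 = 1 := x.2
  simpa [SphS] using this⟩

theorem neg_neg' {n : ℕ} (x : Sph n) : neg (neg x) = x := Subtype.ext (neg_neg _)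

theorem continuous_neg' {n : ℕ} : Continuous (neg : Sph n → Sph n) :=
  Continuous.subtype_mk (by fun_prop) _

theorem sphere_step {T : Type} [TopologicalSpace T] {t : T → T} (ht : Continuous t)
    (hi : Involutive t) {n : ℕ} (g : C(Sph n, T)) (hg : ∀ x, g (neg x) = t (g x)) {w0 : T}
    (h : g.Homotopic (ContinuousMap.const _ w0)) :
    ∃ f : C(Sph (n + 1), T), ∀ x, f (neg x) = t (f x) := by
  obtain ⟨F⟩ := h
  have hsq : ∀ h : II, Real.sqrt (1 - (h : ℝ) ^ 2) ^ 2 = 1 - (h : ℝ) ^ 2 := fun h =>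
    Real.sq_sqrt (by nlinarith [h.2.1, h.2.2])
  let q1 : Sph n × II → Sph (n + 1) := fun z =>
    ⟨Fin.cons (z.2 : ℝ) fun i => Real.sqrt (1 - (z.2 : ℝ) ^ 2) * z.1.1 i, by
      have : ∑ i, z.1.1 i ^ 2 = 1 := z.1.2
      simp only [SphS, mem_ofPred_eq, Fin.sum_univ_succ, Fin.cons_zero, Fin.cons_succ, mul_pow,
        ← Finset.mul_sum, hsq]
      rw [Fin.sum_univ_succ] at this
      linear_combination (1 - (z.2 : ℝ) ^ 2) * this⟩
  have hq1 : Continuous q1 := by
    refine Continuous.subtype_mk (continuous_pi fun i => ?_) _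
    refine Fin.cases ?_ (fun i => ?_) i
    · simp only [Fin.cons_zero]; fun_prop
    · simp only [Fin.cons_succ]
      have : Continuous fun z : Sph n × II => z.1.1 i :=
        (continuous_apply i).comp (continuous_subtype_val.comp continuous_fst)
      fun_prop
  have h0 : ∀ z, (q1 z).1 0 = z.2 := fun z => rfl
  have hs : ∀ z i, (q1 z).1 (Fin.succ i) = Real.sqrt (1 - (z.2 : ℝ) ^ 2) * z.1.1 i :=
    fun z i => rfl
  have hsurj : ∀ y : Sph (n + 1), 0 ≤ y.1 0 → ∃ z, q1 z = y := by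
    intro y hy
    have h1 : y.1 0 ^ 2 + ∑ i : Fin (n + 1), y.1 i.succ ^ 2 = 1 := by
      rw [← Fin.sum_univ_succ (fun i => y.1 i ^ 2)]; exact y.2
    have h2 : 0 ≤ ∑ i : Fin (n + 1), y.1 i.succ ^ 2 := Finset.sum_nonneg fun _ _ => sq_nonneg _
    have h3 : y.1 0 ≤ 1 := by nlinarith
    rcases h3.lt_or_eq with h4 | h4
    · have h5 : 0 < Real.sqrt (1 - y.1 0 ^ 2) := Real.sqrt_pos.2 (by nlinarith)
      refine ⟨(⟨fun i => y.1 i.succ / Real.sqrt (1 - y.1 0 ^ 2), ?_⟩, ⟨y.1 0, hy, h3⟩),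
        Subtype.ext (funext fun i => ?_)⟩
      · simp only [SphS, mem_ofPred_eq, div_pow, ← Finset.sum_div]
        rw [hsq ⟨y.1 0, hy, h3⟩, div_eq_one_iff_eq (by nlinarith)]
        simp only; linarith
      · refine Fin.cases rfl (fun i => ?_) i
        rw [hs]; simp only; field_simp
    · refine ⟨(⟨Pi.single 0 1, by simp [SphS, Fin.sum_univ_succ]⟩, ⟨y.1 0, hy, h3⟩),
        Subtype.ext (funext fun i => ?_)⟩
      refine Fin.cases rfl (fun i => ?_) i
      rw [hs]
      have h5 : ∑ i : Fin (n + 1), y.1 i.succ ^ 2 = 0 := by rw [h4] at h1; linarith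
      have h6 := (Finset.sum_eq_zero_iff_of_nonneg fun _ _ => sq_nonneg _).1 h5 i
        (Finset.mem_univ _)
      simp only [h4]
      rw [pow_eq_zero_iff two_ne_zero] at h6
      simp [h6]
  let q : (Sph n × II) ⊕ (Sph n × II) → Sph (n + 1) := Sum.elim q1 fun z => neg (q1 z)
  let Φ : (Sph n × II) ⊕ (Sph n × II) → T :=
    Sum.elim (fun z => F (z.2, z.1)) fun z => t (F (z.2, z.1))
  have hq : Surjective q := by
    intro y
    rcases le_total 0 (y.1 0) with h | h
    · obtain ⟨z, hz⟩ := hsurj y h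
      exact ⟨Sum.inl z, hz⟩
    · obtain ⟨z, hz⟩ := hsurj (neg y) (by simpa [neg] using h)
      exact ⟨Sum.inr z, by simp only [q, Sum.elim_inr, hz, neg_neg']⟩
  have c1 : ∀ z z', q1 z = q1 z' → F (z.2, z.1) = F (z'.2, z'.1) := by
    rintro ⟨x, s⟩ ⟨x', s'⟩ h
    obtain rfl : s = s' := Subtype.ext (by rw [← h0 (x, s), h, h0])
    by_cases h1 : s = 1
    · subst h1; simp
    have h4 : (s : ℝ) < 1 := lt_of_le_of_ne s.2.2 fun h => h1 (Subtype.ext h)
    have h5 : 0 < Real.sqrt (1 - (s : ℝ) ^ 2) := Real.sqrt_pos.2 (by nlinarith [s.2.1])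
    obtain rfl : x = x' := Subtype.ext (funext fun i =>
      mul_left_cancel₀ h5.ne' (by rw [← hs (x, s), h, hs]))
    rfl
  have c2 : ∀ z z', q1 z = neg (q1 z') → F (z.2, z.1) = t (F (z'.2, z'.1)) := by
    rintro ⟨x, s⟩ ⟨x', s'⟩ h
    have h1 : (s : ℝ) = -s' := congrFun (congrArg Subtype.val h) 0
    obtain rfl : s = 0 := Subtype.ext (by simp only [Icc.coe_zero]; linarith [s.2.1, s'.2.1])
    obtain rfl : s' = 0 := Subtype.ext (by simpa using h1)
    obtain rfl : x = neg x' := Subtype.ext (funext fun i => by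
      have : (q1 (x, 0)).1 i.succ = -(q1 (x', 0)).1 i.succ :=
        congrFun (congrArg Subtype.val h) i.succ
      rw [hs, hs] at this
      simpa [neg] using this)
    simp [hg]
  obtain ⟨f, hf⟩ := descend0 q (hq1.sumElim (continuous_neg'.comp hq1)) hq Φ
    (Continuous.sumElim (by fun_prop) (by fun_prop)) (by
      rintro (z | z) (z' | z') h
      · exact c1 z z' h
      · exact c2 z z' h
      · exact (c2 z' z h.symm).symm
      · have : q1 z = q1 z' := by
          rw [← neg_neg' (q1 z), ← neg_neg' (q1 z')]; exact congrArg neg h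
        exact congrArg t (c1 z z' this))
  refine ⟨f, fun y => ?_⟩
  obtain ⟨z | z, rfl⟩ := hq y
  · exact (hf (Sum.inr z)).trans (congrArg t (hf (Sum.inl z)).symm)
  · rw [hf (Sum.inr z)]
    simp only [q, Φ, Sum.elim_inr, neg_neg', hi _]
    exact hf (Sum.inl z)

variable {W : Type} [Fintype W] [DecidableEq W] [LinearOrder W] {τ : W → W}
  {X : Finset W → Prop}

theorem acyc_sk {m k : ℕ} (h : Acyc X m) (hk : m + 1 ≤ k) : Acyc (sk X k) m := by
  intro c hc hb
  obtain ⟨e, he, hb'⟩ := h c (fun σ hσ => ⟨(hc σ hσ).1.1, (hc σ hσ).2⟩) hb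
  exact ⟨e, fun σ hσ => ⟨⟨(he σ hσ).1, (he σ hσ).2.trans_le hk⟩, (he σ hσ).2⟩, hb'⟩

theorem vertex_of_acyc (h0 : X ∅) (h : Acyc X 0) : ∃ a, X {a} := by
  obtain ⟨e, he, hb⟩ := h (fun σ => if σ = ∅ then 1 else 0) (by
    intro σ hσ
    beta_reduce at hσ
    split_ifs at hσ with h1
    · subst h1; exact ⟨h0, rfl⟩
    · exact absurd rfl hσ) (by
    funext τ
    exact Finset.sum_eq_zero fun v _ => if_neg (Finset.insert_ne_empty _ _))
  have h1 : bd e ∅ ≠ 0 := by rw [hb]; simp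
  obtain ⟨v, -, hv⟩ := Finset.exists_ne_zero_of_sum_ne_zero h1
  exact ⟨v, by simpa using (he _ hv).1⟩

theorem abs_sph0 (x : Sph 0) : |x.1 0| = 1 := by
  have : x.1 0 ^ 2 = 1 := by simpa [SphS] using x.2
  rcases sq_eq_one_iff.1 this with h | h <;> simp [h]

theorem sphere_maps (hX : Down X) (hτ : Involutive τ) (hI : Inv τ X) (h0 : X ∅) (n : ℕ)
    (h : ∀ m < n, Acyc X m) :
    ∃ f : C(Sph n, Su (sk X n)), ∀ x, f (neg x) = tS hτ (inv_sk hI n) (f x) := by
  have c0 : Continuous fun x : Sph 0 => x.1 0 := (continuous_apply 0).comp continuous_subtype_val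
  induction n with
  | zero =>
    exact ⟨⟨fun x => pole ⟨h0, le_rfl⟩ (x.1 0) (abs_sph0 x),
      Continuous.subtype_mk (continuous_const.prodMk c0) _⟩, fun x => rfl⟩
  | succ n ih =>
    obtain ⟨f, hf⟩ := ih fun m hm => h m (by omega)
    obtain ⟨a, ha⟩ := vertex_of_acyc h0 (h 0 (by omega))
    rcases n with _ | n
    · have hm : ∀ z : II × Sph 0, (((z.1 : ℝ) • Pi.single a (1 : ℝ), (1 - z.1) * z.2.1 0) :
          (W → ℝ) × ℝ) ∈ Sp (sk X 1) := by
        intro z
        refine ⟨fun w => mul_nonneg z.1.2.1 ((single_mem ha).1 w), ?_, {a}, ⟨ha, by simp⟩,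
          fun w hw => ?_⟩
        · simp only [Pi.smul_apply, smul_eq_mul, ← Finset.mul_sum, abs_mul, abs_sph0,
            abs_of_nonneg (sub_nonneg.2 z.1.2.2)]
          simp
        · have : w ≠ a := by simpa using hw
          simp [this]
      refine sphere_step (continuous_tS hτ _) (tS_tS hτ _)
        ⟨fun x => pole ⟨h0, by simp⟩ (x.1 0) (abs_sph0 x),
          Continuous.subtype_mk (continuous_const.prodMk c0) _⟩ (fun x => rfl)
        (w0 := ⟨_, hm (1, ⟨fun _ => 1, by simp [SphS]⟩)⟩) ⟨⟨⟨fun z => ⟨_, hm z⟩, ?_⟩, ?_, ?_⟩⟩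
      · have : Continuous fun z : II × Sph 0 => z.2.1 0 := c0.comp continuous_snd
        exact Continuous.subtype_mk (Continuous.prodMk (by fun_prop) (by fun_prop)) _
      · intro x; exact Subtype.ext (by simp [pole])
      · intro x; exact Subtype.ext (by simp)
    · obtain ⟨P, hP, w0, hw⟩ := power_map (K := sk X (n + 2)) (down_sk hX _) hτ (inv_sk hI _)
        (a := a) ⟨ha, by simp⟩ n fun m h1 h2 => acyc_sk (h m (by omega)) (by omega)
      let j : C(Su (sk X (n + 1)), Su (sk (sk X (n + 2)) (n + 1))) :=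
        inclS fun σ hσ => ⟨⟨hσ.1, hσ.2.trans (by omega)⟩, hσ.2⟩
      refine sphere_step (continuous_tS hτ _) (tS_tS hτ _) (P.comp (j.comp f)) (fun x => ?_)
        (w0 := w0) (hw.comp (ContinuousMap.Homotopic.refl (j.comp f)))
      simp only [ContinuousMap.comp_apply, hf]
      exact hP (j (f x))

end Pool.Agent.H418Z.Box
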