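import Pool.Agent.H418Z.BoxHal
import Pool.Agent.H418Z.BoxAlg

set_option autoImplicit false
set_option linter.unusedSectionVars false

namespace Pool.Agent.H418Z.Box

open Topology Set Function Matrix

variable {W : Type} [Fintype W] [DecidableEq W] [LinearOrder W]
variable {T : Type} [TopologicalSpace T] {t0 : T}

def Sx (K : Finset W → Prop) (m : ℕ) : Type := {σ : Finset W // K σ ∧ σ.card = m}

instance (K : Finset W → Prop) (m : ℕ) : Finite (Sx K m) := Subtype.finite

noncomputable instance (K : Finset W → Prop) (m : ℕ) : Fintype (Sx K m) := Fintype.ofFinite _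

noncomputable instance (K : Finset W → Prop) (m : ℕ) : DecidableEq (Sx K m) := Classical.decEq _

variable {K : Finset W → Prop}

def emb {m : ℕ} (σ : Sx K m) : Fin m → W := σ.1.orderEmbOfFin σ.2.2

theorem emb_inj {m : ℕ} (σ : Sx K m) : Injective (emb σ) := (σ.1.orderEmbOfFin σ.2.2).injective

theorem emb_img {m : ℕ} (σ : Sx K m) : Finset.univ.image (emb σ) = σ.1 := img_emb _ _

theorem emb_mem {m : ℕ} (σ : Sx K m) (p : Fin m) : emb σ p ∈ σ.1 :=
  Finset.orderEmbOfFin_mem _ _ _

theorem emb_K {m : ℕ} (σ : Sx K m) : K (Finset.univ.image (emb σ)) := by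
  rw [emb_img]; exact σ.2.1

theorem exists_emb {m : ℕ} (σ : Sx K m) {w : W} (h : w ∈ σ.1) : ∃ p, emb σ p = w := by
  rw [← emb_img] at h
  simpa using h

def face (hK : Down K) {m : ℕ} (σ : Sx K (m + 1)) (p : Fin (m + 1)) : Sx K m :=
  ⟨σ.1.erase (emb σ p), hK (Finset.erase_subset _ _) σ.2.1, by
    rw [Finset.card_erase_of_mem (emb_mem σ p), σ.2.2]; rfl⟩

theorem emb_face (hK : Down K) {m : ℕ} (σ : Sx K (m + 1)) (p : Fin (m + 1)) :
    emb (face hK σ p) = emb σ ∘ p.succAbove := by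
  refine (Finset.orderEmbOfFin_unique _ (fun x => ?_)
    ((σ.1.orderEmbOfFin σ.2.2).strictMono.comp (Fin.strictMono_succAbove p))).symm
  exact Finset.mem_erase.2 ⟨fun h => Fin.succAbove_ne _ _ (emb_inj σ h), emb_mem _ _⟩

theorem face_inj (hK : Down K) {m : ℕ} (σ : Sx K (m + 1)) : Injective (face hK σ) := by
  intro p q h
  have : σ.1.erase (emb σ p) = σ.1.erase (emb σ q) := congrArg Subtype.val h
  exact emb_inj σ (Finset.erase_injOn _ (emb_mem σ p) (emb_mem σ q) this)

noncomputable def Dm (hK : Down K) (m : ℕ) : Matrix (Sx K m) (Sx K (m + 1)) ℤ :=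
  fun ω σ => ∑ p, if face hK σ p = ω then (-1) ^ (p : ℕ) else 0

theorem act_Dm (hK : Down K) (m : ℕ) {B : Type} [AddCommGroup B] (b : Sx K m → B)
    (σ : Sx K (m + 1)) :
    act (Dm hK m)ᵀ b σ = ∑ p : Fin (m + 1), (-1 : ℤ) ^ (p : ℕ) • b (face hK σ p) := by
  simp only [act, Dm, Matrix.transpose_apply, Finset.sum_smul]
  rw [Finset.sum_comm]
  simp

noncomputable def ext0 {m : ℕ} (c : Sx K m → ZMod 2) : Finset W → ZMod 2 :=
  fun ρ => ∑ σ, if σ.1 = ρ then c σ else 0

theorem ext0_val {m : ℕ} (c : Sx K m → ZMod 2) (σ : Sx K m) : ext0 c σ.1 = c σ := by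
  unfold ext0
  rw [Finset.sum_eq_single σ]
  · simp
  · intro τ _ h; rw [if_neg fun h' => h (Subtype.ext h')]
  · simp

theorem ext0_chain {m : ℕ} (c : Sx K m → ZMod 2) : IsChain K m (ext0 c) := by
  intro ρ h
  obtain ⟨σ, -, h⟩ := Finset.exists_ne_zero_of_sum_ne_zero h
  split_ifs at h with h'
  · exact h' ▸ σ.2
  · exact absurd rfl h

theorem ext0_res {m : ℕ} {e : Finset W → ZMod 2} (he : IsChain K m e) :
    ext0 (fun σ : Sx K m => e σ.1) = e := by
  funext ρ
  by_cases h : K ρ ∧ ρ.card = m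
  · exact ext0_val (fun σ : Sx K m => e σ.1) ⟨ρ, h⟩
  · have h1 : e ρ = 0 := by by_contra h1; exact h (he ρ h1)
    have h2 : ext0 (fun σ : Sx K m => e σ.1) ρ = 0 := by
      by_contra h1; exact h (ext0_chain _ ρ h1)
    rw [h1, h2]

theorem bd_ext0 (hK : Down K) {m : ℕ} (c : Sx K (m + 1) → ZMod 2) (τ : Finset W) :
    bd (ext0 c) τ = ∑ σ, ∑ p, if (face hK σ p).1 = τ then c σ else 0 := by
  unfold bd ext0
  rw [Finset.sum_comm]
  refine Finset.sum_congr rfl fun σ _ => ?_
  have h1 : ∑ p, (if (face hK σ p).1 = τ then c σ else 0) =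
      ∑ v ∈ σ.1, if σ.1.erase v = τ then c σ else 0 := by
    conv_rhs => rw [← emb_img σ]
    rw [Finset.sum_image fun _ _ _ _ h => emb_inj σ h]
    simp only [emb_img]
    rfl
  rw [h1, ← Finset.sum_filter, ← Finset.sum_filter]
  congr 1
  ext v
  simp only [Finset.mem_filter, Finset.mem_compl]
  constructor
  · rintro ⟨h2, h3⟩
    rw [h3]
    exact ⟨Finset.mem_insert_self _ _, Finset.erase_insert h2⟩
  · rintro ⟨h2, rfl⟩
    exact ⟨Finset.notMem_erase _ _, (Finset.insert_erase h2).symm⟩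

theorem Dm_mulVec (hK : Down K) {m : ℕ} (c : Sx K (m + 1) → ZMod 2) (ω : Sx K m) :
    (((Dm hK m).map (Int.castRingHom (ZMod 2))) *ᵥ c) ω = bd (ext0 c) ω.1 := by
  rw [bd_ext0 hK]
  simp only [Matrix.mulVec, dotProduct, Matrix.map_apply, Dm, map_sum, Finset.sum_mul]
  refine Finset.sum_congr rfl fun σ _ => Finset.sum_congr rfl fun p _ => ?_
  by_cases h : face hK σ p = ω
  · simp [h]
  · rw [if_neg h, if_neg fun h' => h (Subtype.ext h')]; simp

theorem exact_of_acyc (hK : Down K) {m : ℕ} (h : Acyc K (m + 1)) (c : Sx K (m + 1) → ZMod 2)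
    (hc : ((Dm hK m).map (Int.castRingHom (ZMod 2))) *ᵥ c = 0) :
    ∃ e, ((Dm hK (m + 1)).map (Int.castRingHom (ZMod 2))) *ᵥ e = c := by
  obtain ⟨e, he, hb⟩ := h (ext0 c) (ext0_chain c) (by
    funext τ
    by_cases h : K τ ∧ τ.card = m
    · exact (Dm_mulVec hK c ⟨τ, h⟩).symm.trans (congrFun hc _)
    · rw [bd_ext0 hK]
      refine Finset.sum_eq_zero fun σ _ => Finset.sum_eq_zero fun p _ => if_neg ?_
      rintro rfl
      exact h (face hK σ p).2)
  refine ⟨fun σ => e σ.1, funext fun ω => ?_⟩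
  rw [Dm_mulVec, ext0_res he, hb, ext0_val]

theorem pull_contract {X K' : Type} [Fintype X] [DecidableEq X] [Nonempty X] [TopologicalSpace K']
    {L' : Set K'} (hL' : ∀ x, x ∉ L') {j : ℕ} (g : C(K', R (full X)))
    (hg : MapsTo g L' (Z _ (j + 1))) (a : G t0 (R (full X)) (Z _ (j + 1))) :
    pull t0 g hg a = 1 := by
  obtain ⟨v⟩ := ‹Nonempty X›
  let e : R (full X) := ⟨Pi.single v 1, single_mem trivial⟩
  have he : e ∈ Z _ (j + 1) := ⟨{v}, by simp, fun w hw => by
    have : w ≠ v := by simpa using hw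
    simp [e, this]⟩
  have hmem : ∀ p : K' × II, (∀ w, 0 ≤ (1 - (p.2 : ℝ)) * (g p.1).1 w +
      p.2 * e.1 w) ∧ ∑ w, ((1 - (p.2 : ℝ)) * (g p.1).1 w + p.2 * e.1 w) = 1 := by
    intro p
    refine ⟨fun w => add_nonneg (mul_nonneg (sub_nonneg.2 p.2.2.2) ((g p.1).2.1 w))
      (mul_nonneg p.2.2.1 (e.2.1 w)), ?_⟩
    rw [Finset.sum_add_distrib, ← Finset.mul_sum, ← Finset.mul_sum, (g p.1).2.2.1, e.2.2.1]
    ring
  rw [pull_homotopy g (ContinuousMap.const _ e) hg (fun _ _ => he)
    (fun p => ⟨fun w => (1 - (p.2 : ℝ)) * (g p.1).1 w + p.2 * e.1 w, (hmem p).1, (hmem p).2,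
      Finset.univ, trivial, by simp⟩) ?_ ?_ ?_ ?_]
  · exact pull_eq_one _ _ (fun _ => he) a
  · refine Continuous.subtype_mk (continuous_pi fun w => ?_) _
    have : Continuous fun p : K' × II => (g p.1).1 w :=
      (continuous_apply w).comp (continuous_subtype_val.comp (g.continuous.comp continuous_fst))
    have h2 : Continuous fun p : K' × II => (p.2 : ℝ) := by fun_prop
    exact ((continuous_const.sub h2).mul this).add (h2.mul continuous_const)
  · intro x; exact Subtype.ext (funext fun w => by simp)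
  · intro x; exact Subtype.ext (funext fun w => by simp)
  · intro x hx; exact absurd hx (hL' x)

def sk (K : Finset W → Prop) (m : ℕ) : Finset W → Prop := fun σ => K σ ∧ σ.card ≤ m

theorem sk_le (K : Finset W → Prop) (m : ℕ) : ∀ σ, sk K m σ → K σ := fun _ h => h.1

theorem down_sk (hK : Down K) (m : ℕ) : Down (sk K m) :=
  fun _ _ h h' => ⟨hK h h'.1, (Finset.card_le_card h).trans h'.2⟩

/-- forget the relative condition -/
noncomputable def forget (K : Finset W → Prop) (j : ℕ) :
    G t0 (R K) (Z K j) →* G t0 (R K) (Z K 0) :=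
  pull t0 (ContinuousMap.id _) (fun _ hx => Z_mono K (Nat.zero_le j) hx)

/-- restrict to a skeleton -/
noncomputable def res (K : Finset W → Prop) (m j : ℕ) :
    G t0 (R K) (Z K j) →* G t0 (R (sk K m)) (Z (sk K m) j) :=
  pull t0 (incl (sk_le K m)) (incl_maps _ j)

theorem elementary (hK : Down K) {j : ℕ} (ω : Sx K (j + 1)) (a : A t0 (j + 1)) :
    ∃ η : G t0 (R K) (Z K (j + 1)), forget K (j + 1) η = 1 ∧ ∀ σ : Sx K (j + 2),
      Additive.ofMul (ev t0 hK (emb σ) (emb_K σ) η) =
        act (Dm hK (j + 1))ᵀ (Pi.single ω (Additive.ofMul a)) σ := by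
  classical
  let g : W → Fin (j + 2) := fun w => if h : ∃ q, emb ω q = w then h.choose.succ else 0
  have hg1 : ∀ q, g (emb ω q) = q.succ := fun q => by
    have h : ∃ q', emb ω q' = emb ω q := ⟨q, rfl⟩
    simp only [g, dif_pos h]
    rw [emb_inj ω h.choose_spec]
  have hg0 : ∀ w ∉ ω.1, g w = 0 := fun w hw => by
    have h : ¬ ∃ q, emb ω q = w := fun ⟨q, hq⟩ => hw (hq ▸ emb_mem ω q)
    simp only [g, dif_neg h]
  refine ⟨pull t0 (pushR (K' := K) (K := full _) g fun _ _ => trivial) (pushR_maps _ _ _) a, ?_,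
    fun σ => ?_⟩
  · unfold forget
    rw [pull_comp _ _ _ _ (pushR (K' := K) (K := full _) g fun _ _ => trivial)
      (fun x hx => absurd hx (not_mem_Z0 x)) (fun _ => rfl)]
    exact pull_contract not_mem_Z0 _ _ a
  rw [ev_push hK down_full g _ _ _ _ rfl trivial, act_Dm]
  by_cases h : ∃ p, face hK σ p = ω
  · obtain ⟨p, rfl⟩ := h
    rw [Finset.sum_eq_single p, Pi.single_eq_same, ← ev_cycle]
    · refine congrArg Additive.ofMul (ev_congr _ (funext fun k => ?_) _ _ _)
      by_cases hk : k = p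
      · subst hk
        rw [Fin.cycleRange_self]
        exact hg0 _ (Finset.notMem_erase _ _)
      · obtain ⟨q, rfl⟩ := Fin.exists_succAbove_eq hk
        rw [Fin.cycleRange_succAbove, ← hg1, emb_face]
        rfl
    · intro q _ hq
      rw [Pi.single_eq_of_ne fun h => hq (face_inj hK σ h), smul_zero]
    · simp
  · rw [ev_deg, Finset.sum_eq_zero]
    · rfl
    · intro p _
      rw [Pi.single_eq_of_ne fun h' => h ⟨p, h'⟩, smul_zero]
    · intro hi
      have hs : Surjective (g ∘ emb σ) := Finite.surjective_of_injective hi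
      obtain ⟨p, hp⟩ := hs 0
      refine h ⟨p, Subtype.ext (Finset.eq_of_subset_of_card_le ?_ ?_).symm⟩
      · intro w hw
        obtain ⟨q, rfl⟩ := exists_emb ω hw
        refine Finset.mem_erase.2 ⟨fun h' => ?_, ?_⟩
        · rw [Function.comp_apply, ← h', hg1] at hp
          exact Fin.succ_ne_zero _ hp
        · obtain ⟨k, hk⟩ := hs q.succ
          have h2 : emb σ k ∈ ω.1 := by
            by_contra h2
            rw [Function.comp_apply, hg0 _ h2] at hk
            exact Fin.succ_ne_zero _ hk.symm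
          obtain ⟨q', hq'⟩ := exists_emb ω h2
          rw [Function.comp_apply, ← hq', hg1] at hk
          rw [← Fin.succ_injective _ hk, hq']
          exact emb_mem _ _
      · rw [(face hK σ p).2.2, ω.2.2]

theorem step (hK : Down K) {j : ℕ} (hne : (Rl (sk K (j + 1))).Nonempty) (hac : Acyc K (j + 2))
    (ψ : G t0 (R K) (Z K 0)) (hψ : res K (j + 1) 0 ψ = 1) :
    ∃ N : ℕ, Odd N ∧ res K (j + 2) 0 (ψ ^ N) = 1 := by
  obtain ⟨ψ', rfl⟩ : ∃ ψ', forget K (j + 1) ψ' = ψ := by
    refine hep_cx (sk_le K (j + 1)) hne (S := Z K (j + 1)) (fun x => ⟨?_, ?_⟩)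
      (Z_mono K (Nat.zero_le _)) (incl_maps _ 0) (fun _ h => h) ψ hψ
    · rintro ⟨σ, h1, h2⟩
      obtain ⟨τ, h3, h4⟩ := x.2.2.2
      refine ⟨x.2.1, x.2.2.1, σ ∩ τ, ⟨hK Finset.inter_subset_right h3,
        (Finset.card_le_card Finset.inter_subset_left).trans h1⟩, fun w hw => ?_⟩
      by_cases h5 : w ∈ σ
      · exact h4 w fun h6 => hw (Finset.mem_inter.2 ⟨h5, h6⟩)
      · exact h2 w h5
    · rintro ⟨-, -, σ, h1, h2⟩
      exact ⟨σ, h1.2, h2⟩
  let cp : G t0 (R K) (Z K (j + 1)) → Sx K (j + 2) → Additive (A t0 (j + 1)) :=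
    fun η σ => Additive.ofMul (ev t0 hK (emb σ) (emb_K σ) η)
  let H : AddSubgroup (Sx K (j + 2) → Additive (A t0 (j + 1))) :=
    { carrier := {c | ∃ η, forget K (j + 1) η = 1 ∧ c = cp η}
      zero_mem' := ⟨1, map_one _, funext fun k => by simp [cp]⟩
      add_mem' := by
        rintro a b ⟨φ, h1, rfl⟩ ⟨ψ, h2, rfl⟩
        exact ⟨φ * ψ, by rw [map_mul, h1, h2, mul_one], funext fun k => by simp [cp]⟩
      neg_mem' := by
        rintro a ⟨φ, h1, rfl⟩
        exact ⟨φ⁻¹, by rw [map_inv, h1, inv_one], funext fun k => by simp [cp]⟩ }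
  have hZ : ∀ η, act (Dm hK (j + 2))ᵀ (cp η) = 0 := by
    intro η
    funext ρ
    rw [act_Dm]
    refine hal hK (emb ρ) (emb_K ρ) η _ fun k h => ?_
    exact congrArg Additive.ofMul (ev_congr _ (emb_face hK ρ k) _ _ _)
  obtain ⟨N, hN, η, h1, h2⟩ := alg (Dm hK (j + 1)) (Dm hK (j + 2)) (exact_of_acyc hK hac) H
    (fun b => by
      have : act (Dm hK (j + 1))ᵀ b = ∑ ω, act (Dm hK (j + 1))ᵀ (Pi.single ω (b ω)) := by
        funext σ
        simp only [act, Finset.sum_apply]
        rw [Finset.sum_comm]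
        refine Finset.sum_congr rfl fun ω _ => ?_
        rw [← Finset.smul_sum]
        simp
      rw [this]
      refine H.sum_mem fun ω _ => ?_
      obtain ⟨η, h1, h2⟩ := elementary hK ω (b ω).toMul
      exact ⟨η, h1, funext fun σ => (h2 σ).symm⟩)
    (by rintro c ⟨η, -, rfl⟩; exact hZ η) (cp ψ') (hZ ψ')
  refine ⟨N, hN, ?_⟩
  have h3 : res K (j + 2) (j + 1) (ψ' ^ N * η⁻¹) = 1 := by
    refine glue_sk (down_sk hK _) (fun _ h => h.2) _ fun σ hσ hc => ?_
    unfold res
    rw [ev_incl _ hK, map_mul, map_inv, map_pow, mul_inv_eq_one]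
    exact congrFun h2 ⟨σ, hσ.1, hc⟩
  have h4 : forget K (j + 1) ψ' ^ N = forget K (j + 1) (ψ' ^ N * η⁻¹) := by
    rw [map_mul, map_inv, h1, inv_one, mul_one, map_pow]
  have h5 : ∀ ζ : G t0 (R K) (Z K (j + 1)), res K (j + 2) 0 (forget K (j + 1) ζ) =
      forget (sk K (j + 2)) (j + 1) (res K (j + 2) (j + 1) ζ) := by
    intro ζ
    unfold res forget
    rw [pull_comp _ _ _ _ (incl (sk_le K (j + 2))) (fun x hx => absurd hx (not_mem_Z0 x))
      (fun _ => rfl), pull_comp _ _ _ _ (incl (sk_le K (j + 2)))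
      (fun x hx => absurd hx (not_mem_Z0 x)) (fun _ => rfl)]
  rw [h4, h5, h3, map_one]

theorem ev_vertex (hK : Down K) (hac : Acyc K 1) {a : W} (ha : K {a}) (u : G t0 (R K) (Z K 0))
    (hu : ∀ h, ev t0 hK (fun _ => a) h u = 1) {v : W} (hv : K {v}) (h) :
    ev t0 hK (fun _ => v) h u = 1 := by
  classical
  have him : ∀ w : W, Finset.univ.image (fun _ : Fin (0 + 1) => w) = {w} := fun w => by
    ext; simp [eq_comm]
  let P : W → Prop := fun w => ∀ h, ev t0 hK (fun _ => w) h u = 1
  have hedge : ∀ w w', K {w, w'} → P w → P w' := by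
    intro w w' hw hP h'
    have hw0 : K (Finset.univ.image fun _ : Fin (0 + 1) => w) := by
      rw [him]; exact hK (by simp) hw
    rw [← hP hw0]
    unfold ev
    have hmem : ∀ t : II, (fun z => (1 - (t : ℝ)) * (Pi.single w' (1 : ℝ) : W → ℝ) z +
        t * (Pi.single w (1 : ℝ) : W → ℝ) z) ∈ Rl K := by
      intro t
      refine ⟨fun z => add_nonneg (mul_nonneg (sub_nonneg.2 t.2.2) ?_) (mul_nonneg t.2.1 ?_), ?_,
        {w, w'}, hw, fun z hz => ?_⟩
      · exact (single_mem (K := full W) trivial).1 z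
      · exact (single_mem (K := full W) trivial).1 z
      · rw [Finset.sum_add_distrib, ← Finset.mul_sum, ← Finset.mul_sum]; simp
      · have : z ≠ w ∧ z ≠ w' := by simpa using hz
        simp [this.1, this.2]
    have hpush : ∀ (w : W) (x : R (full (Fin (0 + 1)))),
        push (fun _ => w) x.1 = Pi.single w 1 := by
      intro w x
      funext z
      have := x.2.2.1
      simp only [push, Pi.single_apply]
      by_cases hz : z = w
      · simp only [hz, if_true]; exact this
      · simp [hz, Ne.symm hz]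
    refine pull_homotopy _ _ _ _ (fun p => ⟨_, hmem p.2⟩) ?_ ?_ ?_ ?_ u
    · exact Continuous.subtype_mk (continuous_pi fun w => by fun_prop) _
    · intro x; exact Subtype.ext (funext fun z => by simp [hpush])
    · intro x; exact Subtype.ext (funext fun z => by simp [hpush])
    · intro x hx; exact absurd hx (not_mem_Z0 x)
  by_contra hn
  have hva : v ≠ a := by rintro rfl; exact hn (hu h)
  let c : Finset W → ZMod 2 := fun σ => if σ = {v} ∨ σ = {a} then 1 else 0
  obtain ⟨e, he, hb⟩ := hac c (by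
    intro σ hσ
    simp only [c] at hσ
    split_ifs at hσ with h1
    · rcases h1 with rfl | rfl
      · exact ⟨hv, rfl⟩
      · exact ⟨ha, rfl⟩
    · exact absurd rfl hσ) (by
    funext τ
    by_cases hτ : τ = ∅
    · subst hτ
      simp only [bd, c, Finset.compl_empty, LawfulSingleton.insert_empty_eq,
        Finset.singleton_inj]
      rw [Finset.sum_eq_add v a hva]
      · simp; rfl
      · intro w _ hw; simp [hw.1, hw.2]
      · simp
      · simp
    · refine Finset.sum_eq_zero fun w hw => if_neg ?_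
      have h1 : (insert w τ).card ≠ 1 := by
        rw [Finset.card_insert_of_notMem (by simpa using hw)]
        have := Finset.card_pos.2 (Finset.nonempty_iff_ne_empty.2 hτ)
        omega
      rintro (h2 | h2) <;> simp [h2] at h1)
  have h1 : ∑ w ∈ Finset.univ.filter P, bd e {w} = 0 := by
    have h2 : ∀ w ∈ Finset.univ.filter P, bd e {w} =
        ∑ w' ∈ Finset.univ.filter P, if w' ≠ w then e {w', w} else 0 := by
      intro w hw
      rw [← Finset.sum_filter]
      unfold bd
      symm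
      refine Finset.sum_subset (fun z hz => by simpa using (Finset.mem_filter.1 hz).2) ?_
      intro z hz hz'
      by_contra h3
      refine hz' (Finset.mem_filter.2 ⟨Finset.mem_filter.2 ⟨Finset.mem_univ _, ?_⟩,
        by simpa using hz⟩)
      refine hedge w z ?_ (Finset.mem_filter.1 hw).2
      rw [Finset.pair_comm]; exact (he _ h3).1
    rw [Finset.sum_congr rfl h2, ← Finset.sum_product']
    refine Finset.sum_involution (fun p _ => p.swap) ?_ ?_ ?_ ?_
    · intro p _
      simp only [Prod.fst_swap, Prod.snd_swap, ne_comm (a := p.1), Finset.pair_comm p.1]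
      exact CharTwo.add_self_eq_zero _
    · intro p _ h3 h4
      have : p.2 = p.1 := congrArg Prod.fst h4
      simp [this] at h3
    · intro p hp
      simp only [Finset.mem_product] at hp ⊢
      exact ⟨hp.2, hp.1⟩
    · intro p _; rfl
  rw [hb, Finset.sum_eq_single a] at h1
  · simp [c] at h1
  · intro w hw hwa
    refine if_neg ?_
    rintro (h2 | h2)
    · obtain rfl : w = v := Finset.singleton_injective h2
      exact hn ((Finset.mem_filter.1 hw).2 h)
    · exact hwa (Finset.singleton_injective h2)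
  · intro h2; exact absurd (Finset.mem_filter.2 ⟨Finset.mem_univ _, hu⟩) h2

theorem power_null (hK : Down K) {a : W} (ha : K {a}) (u : G t0 (R K) (Z K 0))
    (hu : ∀ h, ev t0 hK (fun _ => a) h u = 1) (i : ℕ) (hac : ∀ m, 1 ≤ m → m ≤ i + 1 → Acyc K m) :
    ∃ N : ℕ, Odd N ∧ res K (i + 1) 0 (u ^ N) = 1 := by
  induction i with
  | zero =>
    refine ⟨1, odd_one, ?_⟩
    rw [pow_one]
    refine glue_sk (down_sk hK _) (fun _ h => h.2) _ fun σ hσ hc => ?_
    unfold res
    rw [ev_incl _ hK]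
    obtain ⟨v, rfl⟩ := Finset.card_eq_one.1 hc
    rw [ev_congr hK (g' := fun _ => v) (funext fun k => by
      simp) _ (hK (by intro w; simp [eq_comm]) hσ.1)]
    exact ev_vertex hK (hac 1 le_rfl le_rfl) ha u hu hσ.1 _
  | succ i ih =>
    obtain ⟨N, hN, h1⟩ := ih fun m h1 h2 => hac m h1 (by omega)
    obtain ⟨N', hN', h2⟩ := step hK ⟨_, single_mem (v := a) ⟨ha, by simp⟩⟩
      (hac (i + 2) (by omega) le_rfl) _ h1
    exact ⟨N * N', hN.mul hN', by rwa [pow_mul]⟩

end Pool.Agent.H418Z.Box
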