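import Pool.Agent.H418Z.BoxStep

set_option autoImplicit false
set_option linter.unusedSectionVars false

namespace Pool.Agent.H418Z.Box

open Topology Set Function

variable {W : Type} [Fintype W] [DecidableEq W] [LinearOrder W]

def Sp (K : Finset W → Prop) : Set ((W → ℝ) × ℝ) :=
  {p | (∀ w, 0 ≤ p.1 w) ∧ ∑ w, p.1 w + |p.2| = 1 ∧ ∃ σ, K σ ∧ ∀ w ∉ σ, p.1 w = 0}

abbrev Su (K : Finset W → Prop) : Type := ↥(Sp K)

def Inv (τ : W → W) (K : Finset W → Prop) : Prop := ∀ σ, K σ → K (σ.image τ)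

variable {τ : W → W} {K : Finset W → Prop}

theorem inv_sk (hK : Inv τ K) (m : ℕ) : Inv τ (sk K m) :=
  fun σ h => ⟨hK σ h.1, Finset.card_image_le.trans h.2⟩

theorem sum_tau (hτ : Involutive τ) (x : W → ℝ) : ∑ w, x (τ w) = ∑ w, x w :=
  Equiv.sum_comp hτ.toPerm x

theorem supp_tau (hτ : Involutive τ) (hK : Inv τ K) {x : W → ℝ}
    (h : ∃ σ, K σ ∧ ∀ w ∉ σ, x w = 0) : ∃ σ, K σ ∧ ∀ w ∉ σ, x (τ w) = 0 := by
  obtain ⟨σ, h1, h2⟩ := h
  exact ⟨_, hK σ h1, fun w hw => h2 _ fun h => hw (Finset.mem_image.2 ⟨_, h, hτ w⟩)⟩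

def tR (hτ : Involutive τ) (hK : Inv τ K) (x : R K) : R K :=
  ⟨fun w => x.1 (τ w), fun _ => x.2.1 _, (sum_tau hτ _).trans x.2.2.1, supp_tau hτ hK x.2.2.2⟩

def tS (hτ : Involutive τ) (hK : Inv τ K) (p : Su K) : Su K :=
  ⟨(fun w => p.1.1 (τ w), -p.1.2), fun _ => p.2.1 _, by
    rw [sum_tau hτ p.1.1, abs_neg]; exact p.2.2.1, supp_tau hτ hK p.2.2.2⟩

theorem tR_tR (hτ : Involutive τ) (hK : Inv τ K) (x : R K) : tR hτ hK (tR hτ hK x) = x :=
  Subtype.ext (funext fun w => congrArg x.1 (hτ w))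

theorem tS_tS (hτ : Involutive τ) (hK : Inv τ K) (x : Su K) : tS hτ hK (tS hτ hK x) = x :=
  Subtype.ext (Prod.ext (funext fun w => congrArg x.1.1 (hτ w)) (neg_neg _))

theorem continuous_tS (hτ : Involutive τ) (hK : Inv τ K) : Continuous (tS hτ hK) := by
  refine Continuous.subtype_mk (Continuous.prodMk (continuous_pi fun w => ?_) (by fun_prop)) _
  exact (continuous_apply _).comp (continuous_fst.comp continuous_subtype_val)

def inclS {L K : Finset W → Prop} (h : ∀ σ, L σ → K σ) : C(Su L, Su K) :=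
  ⟨fun x => ⟨x.1, x.2.1, x.2.2.1, by
      obtain ⟨σ, h1, h2⟩ := x.2.2.2
      exact ⟨σ, h σ h1, h2⟩⟩, continuous_subtype_val.subtype_mk _⟩

def pt (x : R K) (r : ℝ) (hr : |r| ≤ 1) : Su K :=
  ⟨(fun w => (1 - |r|) * x.1 w, r), fun w => mul_nonneg (sub_nonneg.2 hr) (x.2.1 w), by
    rw [← Finset.mul_sum, x.2.2.1]; ring, by
    obtain ⟨σ, h1, h2⟩ := x.2.2.2
    exact ⟨σ, h1, fun w hw => by simp [h2 w hw]⟩⟩

theorem continuous_pt {X : Type} [TopologicalSpace X] {x : X → R K} {r : X → ℝ}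
    (hx : Continuous x) (hr : Continuous r) (h : ∀ z, |r z| ≤ 1) :
    Continuous fun z => pt (x z) (r z) (h z) := by
  refine Continuous.subtype_mk (Continuous.prodMk (continuous_pi fun w => ?_) hr) _
  exact (continuous_const.sub hr.abs).mul
    ((continuous_apply w).comp (continuous_subtype_val.comp hx))

def pole (h0 : K ∅) (r : ℝ) (hr : |r| = 1) : Su K :=
  ⟨(0, r), fun _ => le_rfl, by simp [hr], ∅, h0, fun _ _ => rfl⟩

theorem pt_pole (h0 : K ∅) (x : R K) {r r' : ℝ} (h : r = r') (hr : |r| ≤ 1) (hr' : |r'| = 1) :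
    pt x r hr = pole h0 r' hr' := by
  subst h
  exact Subtype.ext (Prod.ext (funext fun w => by simp [pt, pole, hr']) rfl)

theorem trans_rel {X X' : Type} [TopologicalSpace X] [TopologicalSpace X'] {a b c : X}
    {a' b' c' : X'} (r : X → X' → Prop) {p : Path a b} {q : Path b c} {p' : Path a' b'}
    {q' : Path b' c'} (h1 : ∀ s, r (p s) (p' s)) (h2 : ∀ s, r (q s) (q' s)) :
    ∀ s, r ((p.trans q) s) ((p'.trans q') s) := by
  intro s
  simp only [Path.trans_apply]
  split_ifs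
  · exact h1 _
  · exact h2 _

theorem path_cancel {X : Type} [TopologicalSpace X] {a b : X} {p q : Path a b}
    (h : (p.trans q.symm).Homotopic (Path.refl a)) : p.Homotopic q := by
  rw [← Path.Homotopic.Quotient.eq] at h ⊢
  have := congrArg (fun z => z.trans (Path.Homotopic.Quotient.mk q)) h
  simpa using this

section main

variable {T : Type} [TopologicalSpace T] {t0 : T}

theorem cls_trans {K' : Type} [TopologicalSpace K'] {L' : Set K'}
    (γ γ' : Path (cst t0 K' L') (cst t0 K' L')) :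
    cls t0 (γ.trans γ') = cls t0 γ' * cls t0 γ := rfl

/-- constant map as a point of the free mapping space -/
def cN {W' : Type} [Fintype W'] [DecidableEq W'] (t0 t1 : T) (K' : Finset W' → Prop) : M t0 (R K') (Z K' 0) :=
  ⟨ContinuousMap.const _ t1, fun x hx => absurd hx (not_mem_Z0 x)⟩

/-- pull back a path from the constant map to the constant map -/
def pb {W' : Type} [Fintype W'] [DecidableEq W'] {K' : Finset W' → Prop} {t1 : T}
    (U : Path (cst t0 (R K) (Z K 0)) (cN t0 t1 K)) (g : C(R K', R K)) :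
    Path (cst t0 (R K') (Z K' 0)) (cN t0 t1 K') :=
  mkPath ⟨fun z => (U z.2).1 (g z.1), cont_ev (by fun_prop) (by fun_prop)⟩
    (fun x hx => absurd hx (not_mem_Z0 x)) _ _ (fun x => by simp; rfl) (fun x => by simp; rfl)

theorem pull_pb {W' : Type} [Fintype W'] [DecidableEq W'] {K' : Finset W' → Prop} {t1 : T}
    (U U' : Path (cst t0 (R K) (Z K 0)) (cN t0 t1 K)) (g : C(R K', R K))
    (hg : MapsTo g (Z K' 0) (Z K 0)) :
    pull t0 g hg (cls t0 (U.trans U'.symm)) = cls t0 ((pb U g).trans (pb U' g).symm) := by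
  rw [pull_cls]
  refine congrArg (cls t0) (Path.ext (funext fun s => M_ext fun x => ?_))
  exact (trans_rel (fun (f : M t0 (R K) (Z K 0)) (f' : M t0 (R K') (Z K' 0)) =>
    ∀ x, f'.1 x = f.1 (g x)) (fun _ _ => rfl) (fun _ _ => rfl) s x).symm

end main

theorem power_path (hK : Down K) (hτ : Involutive τ) (hI : Inv τ K) (h0 : K ∅) {a : W}
    (ha : K {a}) (i : ℕ) (hac : ∀ m, 1 ≤ m → m ≤ i + 1 → Acyc K m) :
    ∃ (Γ : Path (cst (pole h0 (-1) (by simp)) (R K) (Z K 0)) (cN _ (pole h0 1 (by simp)) K))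
      (D : Path (cst (pole h0 (-1) (by simp)) (R K) (Z K 0)) (cN _ (pole h0 1 (by simp)) K)),
      (∀ s x, (Γ.symm s).1 (tR hτ hI x) = tS hτ hI ((Γ s).1 x)) ∧
      (∀ s x y, (D s).1 x = (D s).1 y) ∧
      (pb Γ (incl (sk_le K (i + 1)))).Homotopic (pb D (incl (sk_le K (i + 1)))) := by
  classical
  set tS0 : Su K := pole h0 (-1) (by simp) with htS0
  set tN : Su K := pole h0 1 (by simp) with htN
  let mid : M tS0 (R K) (Z K 0) := ⟨⟨fun x => pt x 0 (by simp),
    continuous_pt continuous_id continuous_const fun _ => by simp⟩, fun x hx => absurd hx (not_mem_Z0 x)⟩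
  have hb1 : ∀ z : R K × II, |(z.2 : ℝ) - 1| ≤ 1 := fun z =>
    abs_le.2 ⟨by linarith [z.2.2.1], by linarith [z.2.2.2]⟩
  have hb2 : ∀ z : R K × II, |1 - (z.2 : ℝ)| ≤ 1 := fun z =>
    abs_le.2 ⟨by linarith [z.2.2.2], by linarith [z.2.2.1]⟩
  let Λ0 : Path (cst tS0 (R K) (Z K 0)) mid :=
    mkPath ⟨fun z => pt z.1 (z.2 - 1) (hb1 z), continuous_pt (by fun_prop) (by fun_prop) hb1⟩
      (fun x hx => absurd hx (not_mem_Z0 x)) _ _
      (fun x => pt_pole h0 x (by simp) (hb1 (x, 0)) (by simp)) (fun x => by simp [mid])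
  let Λ0' : Path (cN tS0 tN K) mid :=
    mkPath ⟨fun z => pt z.1 (1 - z.2) (hb2 z), continuous_pt (by fun_prop) (by fun_prop) hb2⟩
      (fun x hx => absurd hx (not_mem_Z0 x)) _ _
      (fun x => pt_pole h0 x (by simp) (hb2 (x, 0)) (by simp)) (fun x => by simp [mid])
  let r : M tS0 (R K) (Z K 0) → M tS0 (R K) (Z K 0) → Prop :=
    fun f f' => ∀ x, f'.1 (tR hτ hI x) = tS hτ hI (f.1 x)
  have rs : ∀ f f', r f f' → r f' f := fun f f' h x => by
    have := h (tR hτ hI x)
    rw [tR_tR] at this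
    rw [this, tS_tS]
  have hdbl : ∀ (Λ : Path (cst tS0 (R K) (Z K 0)) mid) (Λ' : Path (cN tS0 tN K) mid),
      (∀ s, r (Λ s) (Λ' s)) → ∀ s, r ((Λ.trans Λ'.symm) s) ((Λ.trans Λ'.symm).symm s) := by
    intro Λ Λ' h
    rw [Path.trans_symm, Path.symm_symm]
    exact trans_rel r h fun s => rs _ _ (h _)
  have h00 : ∀ s, r (Λ0 s) (Λ0' s) := fun s x =>
    Subtype.ext (Prod.ext (funext fun w => by simp [Λ0, Λ0', pt, tS, tR, abs_sub_comm])
      (by simp [Λ0, Λ0', pt, tS]))
  let U := Λ0.trans Λ0'.symm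
  have hU : ∀ s, r (U s) (U.symm s) := hdbl _ _ h00
  let va : R K := ⟨Pi.single a 1, single_mem ha⟩
  let D := pb (K' := K) U (ContinuousMap.const _ va)
  let E := pb (K' := K) U (ContinuousMap.const _ (tR hτ hI va))
  have hDE : ∀ s, r (D.symm s) (E s) := fun s x => rs _ _ (hU _) va
  let u := U.trans D.symm
  let u' := U.symm.trans E
  have hu : ∀ s, r (u s) (u' s) := trans_rel r hU hDE
  have hpush : ∀ (w : W) (x : R (full (Fin (0 + 1)))),
      push (fun _ => w) x.1 = Pi.single w 1 := by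
    intro w x
    funext z
    have := x.2.2.1
    simp only [push, Pi.single_apply]
    by_cases hz : z = w
    · simp only [hz, if_true]; exact this
    · simp [hz, Ne.symm hz]
  have hua : ∀ h, ev tS0 hK (j := 0) (fun _ => a) h (cls tS0 u) = 1 := by
    intro h
    unfold ev
    rw [pull_pb, ← cls_refl, cls_eq]
    have e : ∀ g : C(R (full (Fin (0 + 1))), R K), (∀ x, g x = va) → pb D g = pb U g :=
      fun g hg => Path.ext (funext fun s => M_ext fun x => congrArg (U s).1 (hg x).symm)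
    rw [e _ fun x => Subtype.ext (hpush a x)]
    exact Path.Homotopic.trans_symm _
  have hτa : K {τ a} := by simpa using hI _ ha
  have hE : Path.Homotopic.Quotient.mk E = Path.Homotopic.Quotient.mk D := by
    have h1 := ev_vertex hK (hac 1 le_rfl (by omega)) ha _ hua hτa
      (hK (by intro w; simp) hτa)
    let e0 : R (full (Fin (0 + 1))) := ⟨Pi.single 0 1, single_mem trivial⟩
    have h2 := congrArg (pull tS0 (ContinuousMap.const (R K) e0) (L' := Z K 0)
      (fun x hx => absurd hx (not_mem_Z0 x))) h1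
    unfold ev at h2
    rw [map_one, pull_comp _ _ _ _ (ContinuousMap.const _ (tR hτ hI va))
      (fun x hx => absurd hx (not_mem_Z0 x)) (fun x => Subtype.ext (by
        simp only [ContinuousMap.const_apply, pushR_val, hpush]
        funext w
        simp only [tR, va, Pi.single_apply]
        by_cases hw : w = τ a
        · simp [hw, hτ a]
        · rw [if_neg hw, if_neg fun h => hw (by rw [← h, hτ w])])),
      pull_pb, ← cls_refl, cls_eq] at h2
    exact Path.Homotopic.Quotient.eq.2 (path_cancel h2)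
  have key : ∀ n : ℕ, ∃ (Λ : Path (cst tS0 (R K) (Z K 0)) mid) (Λ' : Path (cN tS0 tN K) mid),
      (∀ s, r (Λ s) (Λ' s)) ∧
      cls tS0 ((Λ.trans Λ'.symm).trans D.symm) = cls tS0 u ^ (2 * n + 1) := by
    intro n
    induction n with
    | zero => exact ⟨Λ0, Λ0', h00, (pow_one _).symm⟩
    | succ n ih =>
      obtain ⟨Λ, Λ', h1, h2⟩ := ih
      refine ⟨u.trans Λ, u'.trans Λ', trans_rel r hu h1, ?_⟩
      rw [show 2 * (n + 1) + 1 = 1 + (2 * n + 1) + 1 by ring, pow_add, pow_add, pow_one, ← h2,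
        ← cls_trans, ← cls_trans]
      unfold cls
      simp only [u, u', Path.trans_symm, Path.symm_symm, Path.Homotopic.Quotient.mk_trans,
        Path.Homotopic.Quotient.mk_symm, Path.Homotopic.Quotient.trans_assoc, hE]
  obtain ⟨N, ⟨n, rfl⟩, hN⟩ := power_null hK ha (cls tS0 u) hua i hac
  obtain ⟨Λ, Λ', h1, h2⟩ := key n
  refine ⟨Λ.trans Λ'.symm, D, hdbl _ _ h1, fun _ _ _ => rfl, path_cancel ?_⟩
  rw [← h2] at hN
  unfold res at hN
  rwa [pull_pb, ← cls_refl, cls_eq] at hN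

theorem power_map (hK : Down K) (hτ : Involutive τ) (hI : Inv τ K) {a : W}
    (ha : K {a}) (i : ℕ) (hac : ∀ m, 1 ≤ m → m ≤ i + 1 → Acyc K m) :
    ∃ P : C(Su (sk K (i + 1)), Su K),
      (∀ p, P (tS hτ (inv_sk hI _) p) = tS hτ hI (P p)) ∧
      ∃ w0, P.Homotopic (ContinuousMap.const _ w0) := by
  have h0 : K ∅ := hK (Finset.empty_subset _) ha
  obtain ⟨Γ, D, hΓ, hD, hH⟩ := power_path hK hτ hI h0 ha i hac
  obtain ⟨H, hp, hq, hs0, hs1, -⟩ := of_homotopic hH
  have hb : ∀ s : II, |2 * (s : ℝ) - 1| ≤ 1 := fun s =>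
    abs_le.2 ⟨by linarith [s.2.1], by linarith [s.2.2]⟩
  let q : R (sk K (i + 1)) × II → Su (sk K (i + 1)) := fun z => pt z.1 (2 * z.2 - 1) (hb z.2)
  have hqc : Continuous q := continuous_pt (by fun_prop) (by fun_prop) _
  let va : R (sk K (i + 1)) := ⟨Pi.single a 1, single_mem ⟨ha, by simp⟩⟩
  have hab : ∀ p : Su (sk K (i + 1)), |p.1.2| ≤ 1 := fun p => by
    have := p.2.2.1
    have := Finset.sum_nonneg fun w (_ : w ∈ Finset.univ) => p.2.1 w
    linarith
  let sc : Su (sk K (i + 1)) → II := fun p => ⟨(p.1.2 + 1) / 2, by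
    have := abs_le.1 (hab p); constructor <;> linarith⟩
  have hsc : Continuous sc := Continuous.subtype_mk (by fun_prop) _
  have hscq : ∀ x s, sc (q (x, s)) = s := fun x s => Subtype.ext (by simp [sc, q, pt])
  have hqs : Surjective q := by
    intro p
    have e : 2 * ((p.1.2 + 1) / 2) - 1 = p.1.2 := by ring
    rcases (hab p).lt_or_eq with h | h
    · have h' : 0 < 1 - |p.1.2| := by linarith
      refine ⟨(⟨fun w => p.1.1 w / (1 - |p.1.2|), fun w => div_nonneg (p.2.1 w) h'.le, ?_, ?_⟩,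
        sc p), Subtype.ext (Prod.ext (funext fun w => ?_) e)⟩
      · rw [← Finset.sum_div, div_eq_one_iff_eq h'.ne']; linarith [p.2.2.1]
      · obtain ⟨σ, h1, h2⟩ := p.2.2.2
        exact ⟨σ, h1, fun w hw => by simp [h2 w hw]⟩
      · simp only [q, pt, sc, e]; field_simp
    · refine ⟨(va, sc p), Subtype.ext (Prod.ext (funext fun w => ?_) e)⟩
      have h1 : ∑ w, p.1.1 w = 0 := by linarith [p.2.2.1]
      simp only [q, pt, sc, e, h, sub_self, zero_mul]
      exact ((Finset.sum_eq_zero_iff_of_nonneg fun w _ => p.2.1 w).1 h1 w (Finset.mem_univ _)).symm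
  obtain ⟨F, hF⟩ := descend0 (Prod.map q (id : II → II)) (hqc.prodMap continuous_id)
    (hqs.prodMap surjective_id) (fun z => H (z.1.1, (z.2, z.1.2))) (by fun_prop) (by
      rintro ⟨⟨x, s⟩, t⟩ ⟨⟨x', s'⟩, t'⟩ h
      simp only [Prod.map, id, Prod.mk.injEq] at h
      obtain ⟨h, rfl⟩ := h
      obtain rfl : s = s' := by rw [← hscq x s, h, hscq]
      by_cases h0 : s = 0
      · subst h0; simp only [hs0]; rfl
      by_cases h1 : s = 1
      · subst h1; simp only [hs1]; rfl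
      have h2 : 1 - |2 * (s : ℝ) - 1| ≠ 0 := by
        have h3 : 0 < (s : ℝ) := lt_of_le_of_ne s.2.1 fun h => h0 (Subtype.ext h.symm)
        have h4 : (s : ℝ) < 1 := lt_of_le_of_ne s.2.2 fun h => h1 (Subtype.ext h)
        have : |2 * (s : ℝ) - 1| < 1 := abs_lt.2 ⟨by linarith, by linarith⟩
        linarith
      obtain rfl : x = x' := Subtype.ext (funext fun w =>
        mul_left_cancel₀ h2 (congrFun (congrArg (fun p : Su (sk K (i + 1)) => p.1.1) h) w))
      rfl)
  have hF' : ∀ x s t, F (q (x, s), t) = H (x, (t, s)) := fun x s t => hF ((x, s), t)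
  refine ⟨⟨fun p => F (p, 0), by fun_prop⟩, fun p => ?_, (D 0).1 (incl (sk_le K _) va), ?_⟩
  · obtain ⟨⟨x, s⟩, rfl⟩ := hqs p
    have : tS hτ (inv_sk hI _) (q (x, s)) = q (tR hτ (inv_sk hI _) x, unitInterval.symm s) := by
      have e : 2 * (1 - (s : ℝ)) - 1 = -(2 * s - 1) := by ring
      exact Subtype.ext (Prod.ext (funext fun w => by simp only [q, pt, tS, tR,
        unitInterval.coe_symm_eq, e, abs_neg]) (by simp only [q, pt, tS,
        unitInterval.coe_symm_eq, e]))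
    simp only [ContinuousMap.coe_mk, this, hF', hp]
    exact hΓ s (incl (sk_le K _) x)
  · refine ContinuousMap.Homotopic.trans (g := ⟨fun p => F (p, 1), by fun_prop⟩)
      ⟨⟨⟨fun z => F (z.2, z.1), by fun_prop⟩, fun _ => rfl, fun _ => rfl⟩⟩
      ⟨⟨⟨fun z => (D (unitInterval.symm z.1 * sc z.2)).1 (incl (sk_le K _) va),
        cont_ev (by fun_prop) (by fun_prop)⟩, fun p => ?_, fun p => ?_⟩⟩
    · obtain ⟨⟨x, s⟩, rfl⟩ := hqs p
      simp only [ContinuousMap.coe_mk, hF', hq, hscq, unitInterval.symm_zero, one_mul]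
      exact hD _ _ _
    · simp

end Pool.Agent.H418Z.Box
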