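import Mathlib

/-!
A Fourier-analytic lower bound for resolving sets of sums of matrix rows.
-/

set_option autoImplicit false

namespace Pool.Agent.H418Z.MD

open Finset

variable {V : Type*} [Fintype V] [DecidableEq V]

/-- a trigonometric polynomial in the differences of the phases -/
noncomputable def trig (c : V → V → ℝ) (a : V → ℝ) : ℝ :=
  ∑ p : V × V, c p.1 p.2 * Real.cos (a p.1 - a p.2)

omit [DecidableEq V] in
theorem trig_complex (c : V → V → ℝ) (hc : ∀ x y, c x y = c y x) (a : V → ℝ) :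
    ((trig c a : ℝ) : ℂ) =
      ∑ p : V × V, (c p.1 p.2 : ℂ) * Complex.exp (((a p.1 - a p.2 : ℝ) : ℂ) * Complex.I) := by
  have him : ∑ p : V × V, c p.1 p.2 * Real.sin (a p.1 - a p.2) = 0 := by
    have h1 : ∑ p : V × V, c p.1 p.2 * Real.sin (a p.1 - a p.2) =
        ∑ p : V × V, - (c p.1 p.2 * Real.sin (a p.1 - a p.2)) := by
      rw [← Equiv.sum_comp (Equiv.prodComm V V)]
      refine sum_congr rfl fun p _ => ?_
      simp only [Equiv.prodComm_apply, Prod.fst_swap, Prod.snd_swap]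
      rw [hc, ← neg_sub (a p.1), Real.sin_neg]
      ring
    rw [sum_neg_distrib] at h1
    linarith
  apply Complex.ext
  · rw [Complex.ofReal_re, Complex.re_sum, trig]
    refine sum_congr rfl fun p _ => ?_
    rw [Complex.re_ofReal_mul, Complex.exp_ofReal_mul_I_re]
  · rw [Complex.ofReal_im, Complex.im_sum, ← him]
    refine sum_congr rfl fun p _ => ?_
    rw [Complex.im_ofReal_mul, Complex.exp_ofReal_mul_I_im]

/-- the angle attached to an integer -/
noncomputable def ang (n : ℕ) (t : ℤ) : ℝ := 2 * Real.pi * t / (2 * n + 1)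

theorem orth (n : ℕ) (a : ℤ) (ha : |a| ≤ 2 * n) :
    ∑ t ∈ Icc (-(n : ℤ)) n, Complex.exp (((ang n t * a : ℝ) : ℂ) * Complex.I) =
      if a = 0 then (2 * n + 1 : ℂ) else 0 := by
  split_ifs with h0
  · subst h0
    simp only [Int.cast_zero, mul_zero, Complex.ofReal_zero, zero_mul, Complex.exp_zero, sum_const,
      Int.card_Icc, nsmul_eq_mul, mul_one]
    rw [show ((n : ℤ) + 1 - -(n : ℤ)).toNat = 2 * n + 1 by omega]
    push_cast; ring
  · rw [Int.Icc_eq_finset_map, sum_map, show ((n : ℤ) + 1 - -(n : ℤ)).toNat = 2 * n + 1 by omega]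
    have hN : (2 * n + 1 : ℂ) ≠ 0 := by exact_mod_cast (by omega : 2 * n + 1 ≠ 0)
    set z : ℂ := Complex.exp ((a : ℂ) / (2 * n + 1) * (2 * Real.pi * Complex.I)) with hz
    have hz1 : z ≠ 1 := by
      intro h1
      rw [hz, Complex.exp_eq_one_iff] at h1
      obtain ⟨k, hk⟩ := h1
      have h2 : (a : ℂ) / (2 * n + 1) = k := mul_right_cancel₀ Complex.two_pi_I_ne_zero hk
      rw [div_eq_iff hN] at h2
      have h3 : a = k * (2 * n + 1) := by exact_mod_cast h2
      rcases lt_trichotomy k 0 with hk0 | hk0 | hk0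
      · rw [abs_le] at ha; nlinarith [ha.1]
      · subst hk0; simp at h3; exact h0 h3
      · rw [abs_le] at ha; nlinarith [ha.2]
    have hzN : z ^ (2 * n + 1) = 1 := by
      rw [hz, ← Complex.exp_nat_mul, Complex.exp_eq_one_iff]
      refine ⟨a, ?_⟩
      push_cast
      field_simp
    have h4 : ∀ j ∈ range (2 * n + 1),
        Complex.exp (((ang n ((Nat.castEmbedding.trans (addLeftEmbedding (-(n : ℤ)))) j) * a : ℝ) : ℂ)
          * Complex.I) = Complex.exp (((ang n (-(n : ℤ)) * a : ℝ) : ℂ) * Complex.I) * z ^ j := by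
      intro j _
      rw [hz, ← Complex.exp_nat_mul, ← Complex.exp_add]
      congr 1
      simp only [Function.Embedding.trans_apply, Nat.castEmbedding_apply, addLeftEmbedding_apply, ang]
      push_cast
      field_simp
    rw [sum_congr rfl h4, ← mul_sum, geom_sum_eq hz1, hzN]
    simp

/-- the phases in coordinate `k` -/
noncomputable def phase (D : V → V → ℤ) {n : ℕ} (S : Finset (Fin n → V)) (t : S → ℤ) (k : Fin n)
    (x : V) : ℝ := ∑ s : S, ang n (t s) * D x (s.1 k)

theorem main_identity (D : V → V → ℤ) (hD : ∀ x x' y, |D x y - D x' y| ≤ 2) (c : V → V → ℝ)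
    (hc : ∀ x y, c x y = c y x) {n : ℕ} (S : Finset (Fin n → V))
    (hS : ∀ x y : Fin n → V, x ≠ y → ∃ s ∈ S, ∑ k, D (x k) (s k) ≠ ∑ k, D (y k) (s k)) :
    ∑ t ∈ Fintype.piFinset (fun _ : S => Icc (-(n : ℤ)) n), ∏ k, trig c (phase D S t k) =
      (2 * n + 1) ^ S.card * (∑ x, c x x) ^ n := by
  classical
  apply Complex.ofReal_injective
  push_cast
  simp_rw [trig_complex c hc]
  set Δ : (Fin n → V × V) → S → ℤ := fun P s => ∑ k, (D (P k).1 (s.1 k) - D (P k).2 (s.1 k))
    with hΔ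
  have h1 : ∀ t : S → ℤ, ∏ k, ∑ p : V × V, (c p.1 p.2 : ℂ) *
      Complex.exp (((phase D S t k p.1 - phase D S t k p.2 : ℝ) : ℂ) * Complex.I) =
      ∑ P : Fin n → V × V, (∏ k, (c (P k).1 (P k).2 : ℂ)) *
        ∏ s : S, Complex.exp (((ang n (t s) * Δ P s : ℝ) : ℂ) * Complex.I) := by
    intro t
    rw [Finset.prod_univ_sum, Fintype.piFinset_univ]
    refine sum_congr rfl fun P _ => ?_
    rw [prod_mul_distrib, ← Complex.exp_sum, ← Complex.exp_sum, ← sum_mul, ← sum_mul,
      ← Complex.ofReal_sum, ← Complex.ofReal_sum]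
    congr 4
    simp only [phase, hΔ, ← sum_sub_distrib]
    rw [sum_comm]
    refine sum_congr rfl fun s _ => ?_
    push_cast
    rw [mul_sum]
    exact sum_congr rfl fun k _ => by ring
  simp_rw [h1]
  rw [sum_comm]
  simp_rw [← mul_sum]
  have h2 : ∀ P : Fin n → V × V,
      ∑ t ∈ Fintype.piFinset (fun _ : S => Icc (-(n : ℤ)) n),
        ∏ s : S, Complex.exp (((ang n (t s) * Δ P s : ℝ) : ℂ) * Complex.I) =
      if ∀ k, (P k).1 = (P k).2 then (2 * n + 1 : ℂ) ^ S.card else 0 := by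
    intro P
    rw [← Finset.prod_univ_sum (fun _ : S => Icc (-(n : ℤ)) n)
      (fun s j => Complex.exp (((ang n j * Δ P s : ℝ) : ℂ) * Complex.I))]
    have hb : ∀ s, |Δ P s| ≤ 2 * n := fun s => by
      refine (abs_sum_le_sum_abs _ _).trans ?_
      refine (sum_le_sum fun k _ => hD _ _ _).trans ?_
      simp [mul_comm]
    simp_rw [fun s => orth n (Δ P s) (hb s)]
    split_ifs with hP
    · have : ∀ s, Δ P s = 0 := fun s => by
        simp only [hΔ]
        exact sum_eq_zero fun k _ => by rw [hP k, sub_self]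
      simp [this]
    · obtain ⟨s, hs, hne⟩ := hS (fun k => (P k).1) (fun k => (P k).2)
        (fun h => hP fun k => congrFun h k)
      apply prod_eq_zero (mem_univ (⟨s, hs⟩ : S))
      rw [if_neg]
      simp only [hΔ, sum_sub_distrib]
      exact sub_ne_zero.mpr hne
  simp_rw [h2]
  have h3 : ∀ P : Fin n → V × V, (∏ k, (c (P k).1 (P k).2 : ℂ)) *
      (if ∀ k, (P k).1 = (P k).2 then (2 * n + 1 : ℂ) ^ S.card else 0) =
      (2 * n + 1 : ℂ) ^ S.card *
        ∏ k, (if (P k).1 = (P k).2 then (c (P k).1 (P k).2 : ℂ) else 0) := by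
    intro P
    split_ifs with hP
    · rw [mul_comm]
      congr 1
      exact prod_congr rfl fun k _ => by rw [if_pos (hP k)]
    · push Not at hP
      obtain ⟨k, hk⟩ := hP
      rw [mul_zero, prod_eq_zero (mem_univ k) (if_neg hk), mul_zero]
  simp_rw [h3]
  rw [← mul_sum]
  congr 1
  have h4 := Finset.prod_univ_sum (fun _ : Fin n => (univ : Finset (V × V)))
    (fun _ p => if p.1 = p.2 then (c p.1 p.2 : ℂ) else 0)
  rw [Fintype.piFinset_univ] at h4
  rw [← h4, prod_const, card_univ, Fintype.card_fin]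
  congr 1
  rw [Fintype.sum_prod_type]
  simp

omit [DecidableEq V] in
theorem trig_lower (c : V → V → ℝ) {γ : ℝ} (hγ : 0 < γ) (hθ : 0 < ∑ p : V × V, c p.1 p.2) :
    ∃ C : ℝ, 0 ≤ C ∧ ∀ a : V → ℝ, γ ≤ trig c a →
      (∑ p : V × V, c p.1 p.2) * Real.exp (-(C * ∑ p : V × V, (a p.1 - a p.2) ^ 2)) ≤ trig c a := by
  set θ := ∑ p : V × V, c p.1 p.2 with hθdef
  set M := ∑ p : V × V, |c p.1 p.2| with hM
  set Λ := |Real.log (θ / γ)| with hΛ
  have hM0 : 0 ≤ M := sum_nonneg fun _ _ => abs_nonneg _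
  have hΛ0 : 0 ≤ Λ := abs_nonneg _
  refine ⟨(1 + Λ) * M / θ, by positivity, fun a ha => ?_⟩
  set Q := ∑ p : V × V, (a p.1 - a p.2) ^ 2 with hQ
  have hQ0 : 0 ≤ Q := sum_nonneg fun _ _ => sq_nonneg _
  have h1 : θ - M / 2 * Q ≤ trig c a := by
    rw [hθdef, hQ, mul_sum, ← sum_sub_distrib, trig]
    refine sum_le_sum fun p _ => ?_
    have h2 : |c p.1 p.2| ≤ M :=
      single_le_sum (f := fun p : V × V => |c p.1 p.2|) (fun _ _ => abs_nonneg _) (mem_univ p)
    have h3 := Real.one_sub_sq_div_two_le_cos (x := a p.1 - a p.2)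
    have h4 := Real.cos_le_one (a p.1 - a p.2)
    have h5 := le_abs_self (c p.1 p.2)
    have h6 : c p.1 p.2 * (1 - Real.cos (a p.1 - a p.2)) ≤ M * ((a p.1 - a p.2) ^ 2 / 2) :=
      mul_le_mul (h5.trans h2) (by linarith) (by linarith) hM0
    linarith
  set L := M * Q / (2 * θ) with hL
  have hL0 : 0 ≤ L := by positivity
  have e1 : (1 + Λ) * M / θ * Q = 2 * (1 + Λ) * L := by rw [hL]; field_simp
  have e2 : θ - M / 2 * Q = θ * (1 - L) := by rw [hL]; field_simp
  rw [e1]
  by_cases hc : L ≤ 1 / 2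
  · refine le_trans ?_ (e2 ▸ h1)
    refine mul_le_mul_of_nonneg_left ?_ hθ.le
    have h7 : Real.exp (-(2 * (1 + Λ) * L)) ≤ Real.exp (-(2 * L)) :=
      Real.exp_le_exp.mpr (by nlinarith)
    refine h7.trans ?_
    rw [Real.exp_neg, inv_le_comm₀ (Real.exp_pos _) (by linarith)]
    refine le_trans ?_ (Real.add_one_le_exp _)
    rw [inv_le_iff_one_le_mul₀ (by linarith)]
    nlinarith
  · refine le_trans ?_ ha
    have h7 : Real.exp (-(2 * (1 + Λ) * L)) ≤ Real.exp (-Real.log (θ / γ)) := by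
      apply Real.exp_le_exp.mpr
      have := le_abs_self (Real.log (θ / γ))
      nlinarith
    rw [Real.exp_neg (Real.log _), Real.exp_log (by positivity)] at h7
    calc _ ≤ θ * (θ / γ)⁻¹ := mul_le_mul_of_nonneg_left h7 hθ.le
      _ = γ := by field_simp

theorem second_moment {ι : Type*} [Fintype ι] [DecidableEq ι] (T : ℕ) (b : ι → ℝ) :
    ∑ t ∈ Fintype.piFinset (fun _ : ι => Icc (-(T : ℤ)) T), (∑ s, (t s : ℝ) * b s) ^ 2 ≤
      (Fintype.piFinset (fun _ : ι => Icc (-(T : ℤ)) T)).card * ((T : ℝ) ^ 2 * ∑ s, b s ^ 2) := by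
  set B := Fintype.piFinset (fun _ : ι => Icc (-(T : ℤ)) T) with hB
  have cross : ∀ s s' : ι, s ≠ s' → ∑ t ∈ B, (t s : ℝ) * (t s' : ℝ) = 0 := by
    intro s s' hne
    have hmem : ∀ t ∈ B, Function.update t s (-t s) ∈ B := by
      intro t ht
      rw [hB, Fintype.mem_piFinset] at ht ⊢
      intro i
      by_cases hi : i = s
      · subst hi
        have := ht i
        rw [Function.update_self, mem_Icc] at *
        omega
      · rw [Function.update_of_ne hi]; exact ht i
    have hinv : ∀ t : ι → ℤ, Function.update (Function.update t s (-t s)) s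
        (-(Function.update t s (-t s)) s) = t := by
      intro t
      simp
    have h1 : ∑ t ∈ B, (t s : ℝ) * (t s' : ℝ) = ∑ t ∈ B, -((t s : ℝ) * (t s' : ℝ)) := by
      refine sum_nbij' (fun t => Function.update t s (-t s)) (fun t => Function.update t s (-t s))
        hmem hmem (fun t _ => hinv t) (fun t _ => hinv t) ?_
      intro t _
      rw [Function.update_self, Function.update_of_ne hne.symm]
      push_cast; ring
    rw [sum_neg_distrib] at h1
    linarith
  have h2 : ∑ t ∈ B, (∑ s, (t s : ℝ) * b s) ^ 2 = ∑ s, b s ^ 2 * ∑ t ∈ B, (t s : ℝ) ^ 2 := by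
    simp_rw [sq, sum_mul_sum]
    rw [sum_comm]
    refine sum_congr rfl fun s _ => ?_
    rw [sum_comm, sum_eq_single s]
    · rw [mul_sum]; exact sum_congr rfl fun t _ => by ring
    · intro s' _ hne
      have := cross s s' hne.symm
      calc ∑ t ∈ B, (t s : ℝ) * b s * ((t s' : ℝ) * b s')
          = b s * b s' * ∑ t ∈ B, (t s : ℝ) * (t s' : ℝ) := by
            rw [mul_sum]; exact sum_congr rfl fun t _ => by ring
        _ = 0 := by rw [this, mul_zero]
    · intro h; exact absurd (mem_univ s) h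
  rw [h2, mul_sum, mul_sum]
  refine sum_le_sum fun s _ => ?_
  have h3 : ∑ t ∈ B, (t s : ℝ) ^ 2 ≤ B.card * (T : ℝ) ^ 2 := by
    rw [← nsmul_eq_mul]
    refine sum_le_card_nsmul _ _ _ fun t ht => ?_
    rw [hB, Fintype.mem_piFinset] at ht
    have := mem_Icc.mp (ht s)
    have h4 : (-(T : ℝ)) ≤ t s := by exact_mod_cast this.1
    have h5 : (t s : ℝ) ≤ T := by exact_mod_cast this.2
    exact sq_le_sq' h4 h5
  nlinarith [sq_nonneg (b s)]

theorem jensen_exp {β : Type*} (B : Finset β) (Y : β → ℝ) (A : ℝ)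
    (h : ∑ t ∈ B, Y t ≤ B.card * A) : B.card * Real.exp (-A) ≤ ∑ t ∈ B, Real.exp (-Y t) := by
  have h1 : ∀ t ∈ B, Real.exp (-A) * (1 + A - Y t) ≤ Real.exp (-Y t) := by
    intro t _
    have := Real.add_one_le_exp (A - Y t)
    calc _ ≤ Real.exp (-A) * Real.exp (A - Y t) :=
          mul_le_mul_of_nonneg_left (by linarith) (Real.exp_pos _).le
      _ = _ := by rw [← Real.exp_add]; congr 1; ring
  refine le_trans ?_ (sum_le_sum h1)
  rw [← mul_sum, sum_sub_distrib, sum_const, nsmul_eq_mul, mul_comm]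
  refine mul_le_mul_of_nonneg_left ?_ (Real.exp_pos _).le
  linarith

theorem phase_moment (D : V → V → ℤ) (hD : ∀ x x' y, |D x y - D x' y| ≤ 2) {n : ℕ} (hn : 1 ≤ n)
    (S : Finset (Fin n → V)) (k : Fin n) (x x' : V) :
    ∑ t ∈ Fintype.piFinset (fun _ : S => Icc (-(n.sqrt : ℤ)) n.sqrt),
      (phase D S t k x - phase D S t k x') ^ 2 ≤
      (Fintype.piFinset (fun _ : S => Icc (-(n.sqrt : ℤ)) n.sqrt)).card * (64 * S.card / n) := by
  classical
  have hn0 : (0 : ℝ) < n := by exact_mod_cast hn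
  have h := second_moment (ι := S) n.sqrt
    (fun s => 2 * Real.pi / (2 * n + 1) * ((D x (s.1 k) - D x' (s.1 k) : ℤ) : ℝ))
  refine le_trans (le_of_eq ?_) (h.trans ?_)
  · refine sum_congr rfl fun t _ => ?_
    congr 1
    simp only [phase, ← sum_sub_distrib, ang]
    refine sum_congr rfl fun s _ => ?_
    push_cast
    ring
  · refine mul_le_mul_of_nonneg_left ?_ (Nat.cast_nonneg _)
    have h1 : ((n.sqrt : ℝ)) ^ 2 ≤ n := by exact_mod_cast Nat.sqrt_le' n
    have h2 : ∀ s ∈ (univ : Finset S),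
        (2 * Real.pi / (2 * n + 1) * ((D x (s.1 k) - D x' (s.1 k) : ℤ) : ℝ)) ^ 2 ≤
          64 / (n : ℝ) ^ 2 := by
      intro s _
      have h3 : |((D x (s.1 k) - D x' (s.1 k) : ℤ) : ℝ)| ≤ 2 := by exact_mod_cast hD _ _ _
      have h4 : ((D x (s.1 k) - D x' (s.1 k) : ℤ) : ℝ) ^ 2 ≤ 2 ^ 2 := by
        rw [← sq_abs]; exact pow_le_pow_left₀ (abs_nonneg _) h3 2
      have h5 : 2 * Real.pi / (2 * n + 1) ≤ 4 / n := by
        rw [div_le_div_iff₀ (by positivity) hn0]
        nlinarith [Real.pi_le_four]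
      have h6 : (2 * Real.pi / (2 * n + 1)) ^ 2 ≤ (4 / n) ^ 2 :=
        pow_le_pow_left₀ (by positivity) h5 2
      rw [mul_pow]
      calc _ ≤ (4 / (n : ℝ)) ^ 2 * 2 ^ 2 := mul_le_mul h6 h4 (sq_nonneg _) (sq_nonneg _)
        _ = _ := by field_simp; norm_num
    have h7 := sum_le_card_nsmul _ _ _ h2
    rw [card_univ, Fintype.card_coe, nsmul_eq_mul] at h7
    calc _ ≤ (n : ℝ) * (S.card * (64 / (n : ℝ) ^ 2)) :=
          mul_le_mul h1 h7 (sum_nonneg fun _ _ => sq_nonneg _) hn0.le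
      _ = _ := by field_simp

theorem lower_bound {W : Type} [Fintype W] [DecidableEq W]
    (D : W → W → ℤ) (hD : ∀ x x' y, |D x y - D x' y| ≤ 2) (c : W → W → ℝ)
    (hc : ∀ x y, c x y = c y x) {γ : ℝ} (hγ : 0 < γ) (hθ : 0 < ∑ p : W × W, c p.1 p.2)
    (hg : 0 < ∑ x, c x x)
    (hpos : ∀ (ι : Type) [Fintype ι] (ξ : ι → ℝ) (v : ι → W),
      γ ≤ trig c (fun x => ∑ i, ξ i * D x (v i))) :
    ∃ C : ℝ, ∀ n : ℕ, 1 ≤ n → ∀ S : Finset (Fin n → W),
      (∀ x y : Fin n → W, x ≠ y → ∃ s ∈ S, ∑ k, D (x k) (s k) ≠ ∑ k, D (y k) (s k)) →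
      n * Real.log ((∑ p : W × W, c p.1 p.2) / ∑ x, c x x) ≤ S.card * (C + Real.log n / 2) := by
  classical
  obtain ⟨C1, hC1, hlow⟩ := trig_lower c hγ hθ
  set θ := ∑ p : W × W, c p.1 p.2 with hθdef
  set g := ∑ x, c x x with hgdef
  refine ⟨C1 * (Fintype.card (W × W) * 64) + Real.log 3, fun n hn S hS => ?_⟩
  have hn0 : (0 : ℝ) < n := by exact_mod_cast hn
  have hid := main_identity D hD c hc S hS
  set B := Fintype.piFinset (fun _ : S => Icc (-(n.sqrt : ℤ)) n.sqrt) with hB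
  have hph : ∀ (t : S → ℤ) (k : Fin n), γ ≤ trig c (phase D S t k) := fun t k =>
    hpos S (fun s => ang n (t s)) (fun s => s.1 k)
  have hsub : B ⊆ Fintype.piFinset (fun _ : S => Icc (-(n : ℤ)) n) := by
    apply Fintype.piFinset_subset
    intro _
    have := Nat.sqrt_le_self n
    apply Icc_subset_Icc <;> omega
  set A : ℝ := S.card * (C1 * (Fintype.card (W × W) * 64)) with hA
  set Y : (S → ℤ) → ℝ := fun t => ∑ k, C1 * ∑ p : W × W,
    (phase D S t k p.1 - phase D S t k p.2) ^ 2 with hY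
  have hYsum : ∑ t ∈ B, Y t ≤ B.card * A := by
    simp only [hY]
    rw [sum_comm]
    have h1 : ∀ k ∈ (univ : Finset (Fin n)), ∑ t ∈ B, C1 * ∑ p : W × W,
        (phase D S t k p.1 - phase D S t k p.2) ^ 2 ≤
        C1 * (Fintype.card (W × W) * (B.card * (64 * S.card / n))) := by
      intro k _
      rw [← mul_sum, sum_comm]
      refine mul_le_mul_of_nonneg_left ?_ hC1
      have := sum_le_card_nsmul (univ : Finset (W × W)) _ _
        (fun p _ => phase_moment D hD hn S k p.1 p.2)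
      rwa [card_univ, nsmul_eq_mul] at this
    refine (sum_le_card_nsmul _ _ _ h1).trans (le_of_eq ?_)
    rw [card_univ, Fintype.card_fin, nsmul_eq_mul, hA]
    field_simp
  have hj := jensen_exp B Y A hYsum
  have h2 : ∀ t ∈ B, θ ^ n * Real.exp (-Y t) ≤ ∏ k, trig c (phase D S t k) := by
    intro t _
    have h3 : θ ^ n * Real.exp (-Y t) = ∏ k : Fin n, θ * Real.exp (-(C1 * ∑ p : W × W,
        (phase D S t k p.1 - phase D S t k p.2) ^ 2)) := by
      rw [prod_mul_distrib, prod_const, card_univ, Fintype.card_fin, ← Real.exp_sum,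
        sum_neg_distrib]
    rw [h3]
    exact prod_le_prod (fun k _ => by positivity) (fun k _ => hlow _ (hph t k))
  have h4 : θ ^ n * (B.card * Real.exp (-A)) ≤ (2 * n + 1) ^ S.card * g ^ n := by
    rw [← hid]
    refine le_trans ?_ (sum_le_sum_of_subset_of_nonneg hsub
      (fun t _ _ => prod_nonneg fun k _ => hγ.le.trans (hph t k)))
    refine le_trans ?_ (sum_le_sum h2)
    rw [← mul_sum]
    exact mul_le_mul_of_nonneg_left hj (by positivity)
  have hcard : (B.card : ℝ) = (2 * n.sqrt + 1) ^ S.card := by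
    rw [hB, Fintype.card_piFinset, prod_const, card_univ, Fintype.card_coe, Int.card_Icc,
      show ((n.sqrt : ℤ) + 1 - -(n.sqrt : ℤ)).toNat = 2 * n.sqrt + 1 by omega]
    push_cast; ring
  rw [hcard] at h4
  have h5 := Real.log_le_log (by positivity) h4
  rw [Real.log_mul (by positivity) (by positivity), Real.log_mul (by positivity) (by positivity),
    Real.log_mul (by positivity) (by positivity), Real.log_exp, Real.log_pow, Real.log_pow,
    Real.log_pow, Real.log_pow] at h5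
  have h6 : Real.log (2 * n + 1) ≤ Real.log (2 * n.sqrt + 1) + (Real.log 3 + Real.log n / 2) := by
    have h7 : (n : ℝ) ≤ ((n.sqrt : ℝ) + 1) ^ 2 := by
      have := (Nat.lt_succ_sqrt' n).le
      exact_mod_cast this
    have h8 : ((2 : ℝ) * n + 1) ^ 2 ≤ (2 * n.sqrt + 1) ^ 2 * (3 ^ 2 * n) := by
      have h9 : (1 : ℝ) ≤ n := by exact_mod_cast hn
      have h10 : ((n.sqrt : ℝ) + 1) ^ 2 ≤ (2 * n.sqrt + 1) ^ 2 :=
        pow_le_pow_left₀ (by positivity) (by have : (0 : ℝ) ≤ n.sqrt := Nat.cast_nonneg _; linarith) 2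
      nlinarith
    have h11 := Real.log_le_log (by positivity) h8
    rw [Real.log_mul (by positivity) (by positivity), Real.log_mul (by positivity) (by positivity),
      Real.log_pow, Real.log_pow, Real.log_pow] at h11
    push_cast at h11
    linarith
  rw [Real.log_div hθ.ne' hg.ne']
  have h12 := mul_le_mul_of_nonneg_left h6 (Nat.cast_nonneg S.card : (0 : ℝ) ≤ S.card)
  rw [hA] at h5
  nlinarith

theorem not_tendsto (m : ℕ → ℕ) {q ρ C : ℝ} (hq : 1 < q) (hρ : Real.log q < ρ)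
    (h : ∀ n : ℕ, 1 ≤ n → n * ρ ≤ m n * (C + Real.log n / 2)) :
    ¬ Filter.Tendsto (fun n : ℕ => (m n : ℝ) * Real.logb q n / n) Filter.atTop (nhds 2) := by
  intro ht
  have hL : 0 < Real.log q := Real.log_pos hq
  have hlog : Filter.Tendsto (fun n : ℕ => (Real.log n)⁻¹) Filter.atTop (nhds 0) :=
    (Real.tendsto_log_atTop.comp tendsto_natCast_atTop_atTop).inv_tendsto_atTop
  have h1 := (ht.mul ((hlog.const_mul C).add_const (1 / 2))).const_mul (Real.log q)
  have h2 : ρ ≤ Real.log q * (2 * (C * 0 + 1 / 2)) := by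
    refine ge_of_tendsto h1 ?_
    filter_upwards [Filter.eventually_ge_atTop 2] with n hn
    have hn0 : (0 : ℝ) < n := by exact_mod_cast (by omega : 0 < n)
    have hl : 0 < Real.log n := Real.log_pos (by exact_mod_cast (by omega : 1 < n))
    have h3 := h n (by omega)
    have h4 : Real.log q * ((m n : ℝ) * Real.logb q n / n * (C * (Real.log n)⁻¹ + 1 / 2)) =
        m n * (C + Real.log n / 2) / n := by
      rw [Real.logb]; field_simp
    rw [h4, le_div_iff₀ hn0]
    linarith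
  linarith

end Pool.Agent.H418Z.MD
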