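import Mathlib

/-!
An inequality for seven unit complex numbers: if the first elementary symmetric function is large,
the second one is bounded away from zero.
-/

set_option autoImplicit false

namespace Pool.Agent.H418Z.MD

open Finset

theorem final_ineq {a b Q s : ℝ} (ha0 : 0 ≤ a) (ha : a ≤ 71 / 100) (hb : 0 ≤ b)
    (b1 : Q ≤ a * b) (b2 : Q ≤ b * b) (hS : 3 - s ≤ a + b) (hs : 488 / 100 ≤ s ^ 2) :
    1 / 100 ≤ s ^ 2 - 7 + 2 * (2 * a - a ^ 2 + (2 * b - Q)) := by
  by_cases hc3 : a + b ≤ 791 / 1000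
  · have h1 : (3 - (a + b)) ^ 2 ≤ s ^ 2 := pow_le_pow_left₀ (by linarith) (by linarith) 2
    by_cases hc2 : b ≤ a
    · by_cases hc4 : a + b ≤ 71 / 100
      · have h2 : (a - b) ^ 2 ≤ (71 / 100) ^ 2 := pow_le_pow_left₀ (by linarith) (by linarith) 2
        nlinarith
      · have h2 : (a - b) ^ 2 ≤ (142 / 100 - (a + b)) ^ 2 :=
          pow_le_pow_left₀ (by linarith) (by linarith) 2
        have h3 : 71 / 100 * (49 / 1000) ≤ (a + b) * (84 / 100 - (a + b)) :=
          mul_le_mul (by linarith) (by linarith) (by norm_num) (by linarith)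
        nlinarith
    · have h2 : 0 ≤ (b - a) * (a + b) := mul_nonneg (by linarith) (by linarith)
      nlinarith
  · by_cases hc2 : b ≤ a
    · have h2 : 0 ≤ (a - 81 / 1000) * (71 / 100 - a) := mul_nonneg (by linarith) (by linarith)
      have h3 : 0 ≤ (b - 81 / 1000) * (71 / 100 - b) := mul_nonneg (by linarith) (by linarith)
      nlinarith
    · by_cases hc4 : 9 / 10 ≤ a + b
      · have h2 : 129 / 100 * (9 / 10) ≤ (2 - a) * (a + b) :=
          mul_le_mul (by linarith) hc4 (by norm_num) (by linarith)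
        nlinarith
      · have h2 : 155 / 100 * (791 / 1000) ≤ (2 - a) * (a + b) :=
          mul_le_mul (by linarith) (by linarith) (by norm_num) (by linarith)
        nlinarith

theorem real_ineq (x y : Fin 7 → ℝ) (h : ∀ j, x j ^ 2 + y j ^ 2 = 1) (hy : ∑ j, y j = 0)
    (hs0 : 0 ≤ ∑ j, x j) (hs : 488 / 100 ≤ (∑ j, x j) ^ 2) :
    1 / 100 ≤ (∑ j, x j) ^ 2 - 7 + 2 * ∑ j, y j ^ 2 := by
  set s := ∑ j, x j with hsdef
  have hY0 : 0 ≤ ∑ j, y j ^ 2 := sum_nonneg fun j _ => sq_nonneg _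
  by_cases hbig : 701 / 100 ≤ s ^ 2
  · linarith
  have hs1 : 2209 / 1000 ≤ s := by nlinarith
  have hs2 : s ≤ 265 / 100 := by nlinarith
  set d : Fin 7 → ℝ := fun j => 1 - |x j| with hd
  have hd0 : ∀ j, 0 ≤ d j := fun j => by
    have h1 := h j
    have : |x j| ≤ 1 := by
      rw [← sq_le_one_iff_abs_le_one]
      nlinarith [sq_nonneg (y j)]
    simp only [hd]; linarith
  have hyd : ∀ j, y j ^ 2 = 2 * d j - d j ^ 2 := fun j => by
    have h1 := h j
    have h2 := sq_abs (x j)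
    simp only [hd]; nlinarith
  -- parity
  have hS : 3 - s ≤ ∑ j, d j := by
    set σ : Fin 7 → ℤ := fun j => if 0 ≤ x j then 1 else -1 with hσ
    have h1 : ∀ j, |x j - σ j| ≤ d j := fun j => by
      have := hd0 j
      simp only [hd, hσ] at this ⊢
      split_ifs with h0
      · rw [abs_of_nonneg h0] at this ⊢
        push_cast
        rw [abs_le]; constructor <;> linarith
      · rw [abs_of_neg (not_le.mp h0)] at this ⊢
        push_cast
        rw [abs_le]; constructor <;> linarith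
    have h2 : |s - ((∑ j, σ j : ℤ) : ℝ)| ≤ ∑ j, d j := by
      push_cast
      rw [hsdef, ← sum_sub_distrib]
      exact (abs_sum_le_sum_abs _ _).trans (sum_le_sum fun j _ => h1 j)
    have h3 : (∑ j, σ j) % 2 = 1 := by
      have h4 : ∀ j, σ j % 2 = 1 := fun j => by
        simp only [hσ]; split_ifs <;> rfl
      rw [Finset.sum_int_mod]
      simp [h4]
    rw [abs_le] at h2
    rcases (by omega : (∑ j, σ j) ≤ 1 ∨ 3 ≤ ∑ j, σ j) with h5 | h5
    · have : ((∑ j, σ j : ℤ) : ℝ) ≤ 1 := by exact_mod_cast h5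
      linarith [h2.2]
    · have : (3 : ℝ) ≤ ((∑ j, σ j : ℤ) : ℝ) := by exact_mod_cast h5
      linarith [h2.1]
  obtain ⟨j0, -, hj0⟩ := exists_max_image univ d univ_nonempty
  set a := d j0 with ha
  set T := univ.erase j0 with hT
  have hcard : (T.card : ℝ) = 6 := by
    rw [hT, card_erase_of_mem (mem_univ _)]; simp
  have eY : ∑ j, y j ^ 2 = y j0 ^ 2 + ∑ j ∈ T, y j ^ 2 :=
    (add_sum_erase univ (fun j => y j ^ 2) (mem_univ j0)).symm
  have eS : ∑ j, d j = a + ∑ j ∈ T, d j := (add_sum_erase univ d (mem_univ j0)).symm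
  have ey : y j0 + ∑ j ∈ T, y j = 0 := by
    rw [← hy]; exact add_sum_erase univ y (mem_univ j0)
  have ha0 := hd0 j0
  have ha1 : a ≤ 1 := by simp only [ha, hd]; linarith [abs_nonneg (x j0)]
  have hv := hyd j0
  by_cases hc : 71 / 100 ≤ a
  · have hcs := sq_sum_le_card_mul_sum_sq (s := T) (f := y)
    rw [hcard] at hcs
    have h1 : (∑ j ∈ T, y j) ^ 2 = y j0 ^ 2 := by
      rw [show ∑ j ∈ T, y j = - y j0 by linarith]; ring
    have h2 : 9159 / 10000 ≤ y j0 ^ 2 := by rw [hv]; nlinarith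
    linarith
  · push Not at hc
    set S' := ∑ j ∈ T, d j with hS'
    have hS'0 : 0 ≤ S' := sum_nonneg fun j _ => hd0 j
    have eT : ∑ j ∈ T, y j ^ 2 = 2 * S' - ∑ j ∈ T, d j ^ 2 := by
      rw [hS', mul_sum, ← sum_sub_distrib]
      exact sum_congr rfl fun j _ => hyd j
    have b1 : ∑ j ∈ T, d j ^ 2 ≤ a * S' := by
      rw [hS', mul_sum]
      refine sum_le_sum fun j _ => ?_
      have := hj0 j (mem_univ j)
      have := hd0 j
      nlinarith
    have b2 : ∑ j ∈ T, d j ^ 2 ≤ S' * S' := by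
      rw [hS', mul_sum]
      refine sum_le_sum fun j hj => ?_
      have h1 : d j ≤ ∑ i ∈ T, d i := single_le_sum (fun i _ => hd0 i) hj
      have := hd0 j
      nlinarith
    rw [eY, eT, hv]
    rw [eS] at hS
    exact final_ineq ha0 hc.le hS'0 b1 b2 hS hs

open Complex in
/-- twice the second elementary symmetric function -/
noncomputable def e2 (u : Fin 7 → ℂ) : ℂ := (∑ j, u j) ^ 2 - ∑ j, u j ^ 2

open Complex in
theorem complex_ineq (u : Fin 7 → ℂ) (hu : ∀ j, normSq (u j) = 1)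
    (hs : 488 / 100 ≤ normSq (∑ j, u j)) : 1 / 10000 ≤ normSq (e2 u) := by
  set e := ∑ j, u j with he
  have hr : 0 < ‖e‖ := by
    rw [norm_pos_iff]
    intro h0
    rw [h0] at hs
    norm_num at hs
  set ω : ℂ := (starRingEnd ℂ) e / (‖e‖ : ℂ) with hω
  have hne : ((‖e‖ : ℝ) : ℂ) ≠ 0 := by exact_mod_cast hr.ne'
  have hωn : normSq ω = 1 := by
    rw [hω, map_div₀, normSq_conj, normSq_ofReal, normSq_eq_norm_sq]
    field_simp
  have hωe : ω * e = (‖e‖ : ℂ) := by
    rw [hω, div_mul_eq_mul_div, mul_comm, mul_conj, normSq_eq_norm_sq]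
    push_cast
    field_simp
  have hsum : ∑ j, ω * u j = (‖e‖ : ℂ) := by rw [← mul_sum, hωe]
  have hx : ∑ j, (ω * u j).re = ‖e‖ := by
    rw [← re_sum, hsum, ofReal_re]
  have hy : ∑ j, (ω * u j).im = 0 := by
    rw [← im_sum, hsum, ofReal_im]
  have hn : ∀ j, (ω * u j).re ^ 2 + (ω * u j).im ^ 2 = 1 := fun j => by
    have : normSq (ω * u j) = 1 := by rw [map_mul, hωn, hu j, one_mul]
    rw [normSq_apply] at this
    nlinarith
  have key := real_ineq (fun j => (ω * u j).re) (fun j => (ω * u j).im) hn hy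
    (by rw [hx]; exact hr.le) (by rw [hx, ← normSq_eq_norm_sq]; exact hs)
  rw [hx] at key
  have h1 : ω ^ 2 * e2 u = (‖e‖ : ℂ) ^ 2 - ∑ j, (ω * u j) ^ 2 := by
    rw [← hωe, e2, mul_sub, mul_sum, ← he]
    congr 1
    · ring
    · exact sum_congr rfl fun j _ => by ring
  have h2 : (ω ^ 2 * e2 u).re = ‖e‖ ^ 2 - 7 + 2 * ∑ j, (ω * u j).im ^ 2 := by
    rw [h1, sub_re, re_sum, ← ofReal_pow, ofReal_re]
    have : ∀ j ∈ (univ : Finset (Fin 7)), ((ω * u j) ^ 2).re = 1 - 2 * (ω * u j).im ^ 2 := by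
      intro j _
      have := hn j
      rw [sq, mul_re]
      nlinarith
    rw [sum_congr rfl this, sum_sub_distrib, ← mul_sum]
    simp only [sum_const, card_univ, Fintype.card_fin, nsmul_eq_mul, Nat.cast_ofNat, mul_one]
    ring
  have h3 : normSq (ω ^ 2 * e2 u) = normSq (e2 u) := by
    rw [map_mul, map_pow, hωn]; ring
  rw [← h3, normSq_apply]
  rw [← h2] at key
  nlinarith [mul_self_nonneg (ω ^ 2 * e2 u).im]

open Complex in
theorem e1_le (u : Fin 7 → ℂ) (hu : ∀ j, normSq (u j) = 1) :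
    normSq (∑ j, u j) ≤ 488 / 100 + 490000 * normSq (e2 u) := by
  by_cases hs : 488 / 100 ≤ normSq (∑ j, u j)
  · have h1 := complex_ineq u hu hs
    have h2 : ‖∑ j, u j‖ ≤ 7 := by
      refine (norm_sum_le _ _).trans ?_
      have : ∀ j ∈ (univ : Finset (Fin 7)), ‖u j‖ = 1 := fun j _ => by
        have h3 := hu j
        rw [normSq_eq_norm_sq] at h3
        have := norm_nonneg (u j)
        nlinarith
      rw [sum_congr rfl this]
      simp
    rw [normSq_eq_norm_sq (∑ j, u j)]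
    have := norm_nonneg (∑ j, u j)
    nlinarith
  · have := normSq_nonneg (e2 u)
    linarith

end Pool.Agent.H418Z.MD
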