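import Mathlib
import Pool.Agent.H418Z.MDIneq
import Pool.Agent.H418Z.MDFourier

/-!
The line graph of `K_7` and its Cartesian powers.
-/

set_option autoImplicit false

namespace Pool.Agent.H418Z.MD

open Finset

theorem dist_eq_of_fun {U : Type*} (G : SimpleGraph U) (y : U) (f : U → ℕ)
    (h0 : ∀ x, f x = 0 ↔ x = y) (h1 : ∀ a b, G.Adj a b → f a ≤ f b + 1)
    (h2 : ∀ a, 0 < f a → ∃ b, G.Adj a b ∧ f b + 1 = f a) (x : U) :
    G.Reachable x y ∧ G.dist x y = f x := by
  have hw : ∀ (k : ℕ) (a : U), f a = k → ∃ p : G.Walk a y, p.length = k := by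
    intro k
    induction k with
    | zero =>
      intro a ha
      obtain rfl := (h0 a).mp ha
      exact ⟨SimpleGraph.Walk.nil, rfl⟩
    | succ k ih =>
      intro a ha
      obtain ⟨b, hab, hb⟩ := h2 a (by omega)
      obtain ⟨p, hp⟩ := ih b (by omega)
      exact ⟨SimpleGraph.Walk.cons hab p, by simp [hp]⟩
  have hl : ∀ (a z : U) (p : G.Walk a z), f a ≤ f z + p.length := by
    intro a z p
    induction p with
    | nil => simp
    | cons hab p ih =>
      have := h1 _ _ hab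
      simp only [SimpleGraph.Walk.length_cons]
      omega
  obtain ⟨p, hp⟩ := hw (f x) x rfl
  refine ⟨⟨p⟩, le_antisymm (hp ▸ SimpleGraph.dist_le p) ?_⟩
  obtain ⟨q, hq⟩ := (SimpleGraph.Walk.reachable p).exists_walk_length_eq_dist
  have := hl x y q
  rw [(h0 y).mpr rfl, hq] at this
  omega

theorem pow_dist {U : Type*} [DecidableEq U] (G : SimpleGraph U) (δ : U → U → ℕ)
    (h0 : ∀ x y, δ x y = 0 ↔ x = y) (h1 : ∀ a b y, G.Adj a b → δ a y ≤ δ b y + 1)
    (h2 : ∀ a y, 0 < δ a y → ∃ b, G.Adj a b ∧ δ b y + 1 = δ a y) (n : ℕ) (x y : Fin n → U) :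
    (SimpleGraph.fromRel (fun a b : Fin n → U =>
      ∃ i : Fin n, G.Adj (a i) (b i) ∧ ∀ j : Fin n, j ≠ i → a j = b j)).dist x y =
      ∑ k, δ (x k) (y k) := by
  refine (dist_eq_of_fun _ y (fun x => ∑ k, δ (x k) (y k)) ?_ ?_ ?_ x).2
  · intro a
    rw [sum_eq_zero_iff]
    constructor
    · intro h
      funext k
      exact (h0 _ _).mp (h k (mem_univ k))
    · rintro rfl k _
      exact (h0 _ _).mpr rfl
  · have key : ∀ (a b : Fin n → U) (i : Fin n), G.Adj (a i) (b i) → (∀ j, j ≠ i → a j = b j) →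
        ∑ k, δ (a k) (y k) ≤ ∑ k, δ (b k) (y k) + 1 := by
      intro a b i hi hj
      rw [← add_sum_erase univ _ (mem_univ i), ← add_sum_erase univ _ (mem_univ i)]
      have e : ∑ k ∈ univ.erase i, δ (a k) (y k) = ∑ k ∈ univ.erase i, δ (b k) (y k) :=
        sum_congr rfl fun k hk => by rw [hj k (ne_of_mem_erase hk)]
      have := h1 _ _ (y i) hi
      omega
    intro a b hab
    rw [SimpleGraph.fromRel_adj] at hab
    rcases hab.2 with ⟨i, hi, hj⟩ | ⟨i, hi, hj⟩
    · exact key a b i hi hj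
    · exact key a b i hi.symm fun j h => (hj j h).symm
  · intro a ha
    obtain ⟨i, -, hi⟩ := exists_ne_zero_of_sum_ne_zero ha.ne'
    obtain ⟨b, hab, hb⟩ := h2 (a i) (y i) (Nat.pos_of_ne_zero hi)
    refine ⟨Function.update a i b, ?_, ?_⟩
    · rw [SimpleGraph.fromRel_adj]
      refine ⟨fun h => ?_, Or.inl ⟨i, by simpa using hab, fun j hj => by
        rw [Function.update_of_ne hj]⟩⟩
      have := congrFun h i
      rw [Function.update_self] at this
      exact hab.ne this
    · show ∑ k, δ (Function.update a i b k) (y k) + 1 = ∑ k, δ (a k) (y k)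
      rw [← add_sum_erase univ _ (mem_univ i), ← add_sum_erase univ _ (mem_univ i),
        Function.update_self]
      have e : ∑ k ∈ univ.erase i, δ (Function.update a i b k) (y k) =
          ∑ k ∈ univ.erase i, δ (a k) (y k) :=
        sum_congr rfl fun k hk => by rw [Function.update_of_ne (ne_of_mem_erase hk)]
      omega

/-- first end of the edge of `K_7` -/
def pa : Fin 21 → Fin 7 := ![0, 0, 0, 0, 0, 0, 1, 1, 1, 1, 1, 2, 2, 2, 2, 3, 3, 3, 4, 4, 5]

/-- second end of the edge of `K_7` -/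
def pb : Fin 21 → Fin 7 := ![1, 2, 3, 4, 5, 6, 2, 3, 4, 5, 6, 3, 4, 5, 6, 4, 5, 6, 5, 6, 6]

/-- incidence -/
def inc (i : Fin 7) (x : Fin 21) : ℕ := if pa x = i ∨ pb x = i then 1 else 0

/-- number of common ends -/
def ip (x y : Fin 21) : ℕ := inc (pa x) y + inc (pb x) y

theorem ip_eq : ∀ x y, ip x y = ∑ i, inc i x * inc i y := by decide +kernel

theorem ip_symm (x y : Fin 21) : ip x y = ip y x := by
  rw [ip_eq, ip_eq]; exact sum_congr rfl fun i _ => mul_comm _ _

theorem ip_self : ∀ x, ip x x = 2 := by decide +kernel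

theorem ip_le : ∀ x y, ip x y ≤ 2 := by decide +kernel

/-- the line graph of `K_7` -/
def LK : SimpleGraph (Fin 21) where
  Adj x y := ip x y = 1
  symm := ⟨fun x y h => by rw [ip_symm]; exact h⟩
  loopless := ⟨fun x h => by rw [ip_self] at h; omega⟩

/-- its distance -/
def dl (x y : Fin 21) : ℕ := 2 - ip x y

theorem dl0 : ∀ x y, dl x y = 0 ↔ x = y := by decide +kernel

theorem dl1 : ∀ a b y, ip a b = 1 → dl a y ≤ dl b y + 1 := by decide +kernel

theorem dl2 : ∀ a y, 0 < dl a y → ∃ b, ip a b = 1 ∧ dl b y + 1 = dl a y := by decide +kernel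

theorem LK_connected : LK.Connected := by
  have h : ∀ x, LK.Reachable x 0 := fun x =>
    (dist_eq_of_fun LK 0 (fun x => dl x 0) (fun x => dl0 x 0) (fun a b => dl1 a b 0)
      (fun a => dl2 a 0) x).1
  exact ⟨fun x y => (h x).trans (h y).symm⟩

/-- the small parameter -/
noncomputable def eta : ℝ := 1 / 2000000

/-- coefficients of the positive trigonometric polynomial -/
noncomputable def cf (x y : Fin 21) : ℝ :=
  1 - eta / 5 * ip x y + if x = y then eta * (629 / 100) / 21 else 0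

theorem cf_symm (x y : Fin 21) : cf x y = cf y x := by
  unfold cf
  rw [ip_symm]
  simp only [eq_comm]

theorem sum_ip : ∑ p : Fin 21 × Fin 21, ip p.1 p.2 = 252 := by decide +kernel

theorem sum_cf : ∑ p : Fin 21 × Fin 21, cf p.1 p.2 = 441 - eta * (4411 / 100) := by
  unfold cf
  rw [sum_add_distrib, sum_sub_distrib, ← mul_sum, ← Nat.cast_sum, sum_ip, Fintype.sum_prod_type,
    Fintype.sum_prod_type]
  simp
  ring

theorem sum_cf_diag : ∑ x, cf x x = 21 - eta * (211 / 100) := by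
  unfold cf
  simp [ip_self]
  ring

theorem sum_w (u : Fin 7 → ℂ) : 2 * ∑ x, u (pa x) * u (pb x) = e2 u := by
  simp [e2, pa, pb, Fin.sum_univ_succ]
  ring

theorem sum_inc_w (u : Fin 7 → ℂ) (i : Fin 7) :
    ∑ x, (inc i x : ℂ) * (u (pa x) * u (pb x)) = u i * (∑ j, u j - u i) := by
  fin_cases i <;> simp [inc, pa, pb, Fin.sum_univ_succ] <;> ring

theorem normSq_sum_weight {ι : Type*} [Fintype ι] (r : ι → ℝ) (w : ι → ℂ) :
    Complex.normSq (∑ x, (r x : ℂ) * w x) =
      ∑ p : ι × ι, r p.1 * r p.2 * (w p.1 * (starRingEnd ℂ) (w p.2)).re := by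
  have h := Complex.mul_conj (∑ x, (r x : ℂ) * w x)
  have h2 := congrArg Complex.re h
  rw [Complex.ofReal_re] at h2
  rw [← h2, map_sum, sum_mul_sum, Complex.re_sum, Fintype.sum_prod_type]
  refine sum_congr rfl fun x _ => ?_
  rw [Complex.re_sum]
  refine sum_congr rfl fun y _ => ?_
  rw [map_mul, Complex.conj_ofReal, ← Complex.re_ofReal_mul]
  congr 1
  push_cast
  ring

theorem trig_pos (β : Fin 7 → ℝ) (κ : ℝ) :
    eta / 100 ≤ trig cf (fun x => κ + (β (pa x) + β (pb x))) := by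
  set u : Fin 7 → ℂ := fun i => Complex.exp (β i * Complex.I) with hu
  have hn : ∀ j, Complex.normSq (u j) = 1 := fun j => by
    rw [Complex.normSq_eq_norm_sq, hu]
    simp only [Complex.norm_exp_ofReal_mul_I, one_pow]
  set w : Fin 21 → ℂ := fun x => u (pa x) * u (pb x) with hw
  have hcos : ∀ x y, Real.cos (κ + (β (pa x) + β (pb x)) - (κ + (β (pa y) + β (pb y)))) =
      (w x * (starRingEnd ℂ) (w y)).re := by
    intro x y
    simp only [hw, hu]
    rw [← Complex.exp_add, ← Complex.exp_add, ← Complex.exp_conj, ← Complex.exp_add,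
      ← Complex.exp_ofReal_mul_I_re]
    congr 2
    simp only [map_add, map_mul, Complex.conj_ofReal, Complex.conj_I]
    push_cast
    ring
  have h1 : ∑ p : Fin 21 × Fin 21, (w p.1 * (starRingEnd ℂ) (w p.2)).re =
      Complex.normSq (e2 u) / 4 := by
    have := normSq_sum_weight (fun _ : Fin 21 => (1 : ℝ)) w
    simp only [Complex.ofReal_one, one_mul] at this
    have h4 : Complex.normSq (2 : ℂ) = 4 := by norm_num [Complex.normSq_apply]
    rw [← this, ← sum_w u, map_mul, h4]
    ring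
  have h2 : ∑ p : Fin 21 × Fin 21, (ip p.1 p.2 : ℝ) * (w p.1 * (starRingEnd ℂ) (w p.2)).re =
      5 * Complex.normSq (∑ j, u j) + 7 := by
    have h3 : ∀ i : Fin 7, ∑ p : Fin 21 × Fin 21,
        (inc i p.1 : ℝ) * (inc i p.2 : ℝ) * (w p.1 * (starRingEnd ℂ) (w p.2)).re =
        Complex.normSq (∑ j, u j) + 1 - 2 * ((∑ j, u j) * (starRingEnd ℂ) (u i)).re := by
      intro i
      rw [← normSq_sum_weight (fun x => (inc i x : ℝ)) w]
      simp only [Complex.ofReal_natCast, hw]
      rw [sum_inc_w, map_mul, hn, one_mul, Complex.normSq_sub, hn]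
    have h4 := sum_congr (rfl : (univ : Finset (Fin 7)) = univ) fun i _ => h3 i
    rw [sum_comm, sum_sub_distrib, ← mul_sum, ← Complex.re_sum, ← mul_sum, ← map_sum,
      Complex.mul_conj, Complex.ofReal_re] at h4
    simp only [sum_const, card_univ, Fintype.card_fin, nsmul_eq_mul, Nat.cast_ofNat] at h4
    rw [show 5 * Complex.normSq (∑ j, u j) + 7 =
      7 * (Complex.normSq (∑ j, u j) + 1) - 2 * Complex.normSq (∑ j, u j) by ring, ← h4]
    refine sum_congr rfl fun p _ => ?_
    rw [ip_eq, ← sum_mul]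
    push_cast
    rfl
  have h5 : ∑ p : Fin 21 × Fin 21, (if p.1 = p.2 then eta * (629 / 100) / 21 else 0) *
      (w p.1 * (starRingEnd ℂ) (w p.2)).re = eta * (629 / 100) := by
    rw [Fintype.sum_prod_type]
    have : ∀ x : Fin 21, (w x * (starRingEnd ℂ) (w x)).re = 1 := fun x => by
      rw [Complex.mul_conj, Complex.ofReal_re, hw]
      simp only [map_mul, hn, one_mul]
    simp only [ite_mul, zero_mul, sum_ite_eq, mem_univ, if_true, this]
    simp
    ring
  have h6 : trig cf (fun x => κ + (β (pa x) + β (pb x))) = Complex.normSq (e2 u) / 4 -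
      eta / 5 * (5 * Complex.normSq (∑ j, u j) + 7) + eta * (629 / 100) := by
    rw [← h1, ← h2, ← h5, mul_sum, ← sum_sub_distrib, ← sum_add_distrib, trig]
    refine sum_congr rfl fun p _ => ?_
    rw [hcos, cf]
    ring
  rw [h6]
  have h7 := e1_le u hn
  have h8 := Complex.normSq_nonneg (e2 u)
  unfold eta
  linarith

/-- integer-valued distance -/
def DZ (x y : Fin 21) : ℤ := dl x y

theorem DZ_eq (x y : Fin 21) : (DZ x y : ℝ) = 2 - inc (pa x) y - inc (pb x) y := by
  have h := ip_le x y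
  unfold DZ dl
  rw [Int.cast_natCast, Nat.cast_sub h, ip]
  push_cast
  ring

theorem DZ_bound (x x' y : Fin 21) : |DZ x y - DZ x' y| ≤ 2 := by
  unfold DZ dl
  rw [abs_le]
  omega

theorem LK_lower : ∃ C ρ : ℝ, Real.log 21 < ρ ∧ ∀ n : ℕ, 1 ≤ n → ∀ S : Finset (Fin n → Fin 21),
    (∀ x y : Fin n → Fin 21, x ≠ y → ∃ s ∈ S, ∑ k, dl (x k) (s k) ≠ ∑ k, dl (y k) (s k)) →
    n * ρ ≤ S.card * (C + Real.log n / 2) := by
  have hθ : 0 < ∑ p : Fin 21 × Fin 21, cf p.1 p.2 := by rw [sum_cf, eta]; norm_num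
  have hg : 0 < ∑ x, cf x x := by rw [sum_cf_diag, eta]; norm_num
  obtain ⟨C, hC⟩ := lower_bound DZ DZ_bound cf cf_symm (γ := eta / 100) (by rw [eta]; norm_num)
    hθ hg (by
      intro ι _ ξ v
      have := trig_pos (fun i => -∑ s, ξ s * inc i (v s)) (∑ s, ξ s * 2)
      convert this using 3 with x
      simp only [DZ_eq, mul_sub, sum_sub_distrib]
      ring)
  refine ⟨C, _, ?_, fun n hn S hS => hC n hn S fun x y hxy => ?_⟩
  · apply Real.log_lt_log (by norm_num)
    rw [lt_div_iff₀ hg, sum_cf, sum_cf_diag, eta]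
    norm_num
  · obtain ⟨s, hs, hne⟩ := hS x y hxy
    refine ⟨s, hs, fun h => hne ?_⟩
    unfold DZ at h
    exact_mod_cast h

end Pool.Agent.H418Z.MD
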